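import Pool.Agent.W832.HR.Fin2
import Pool.Agent.W832.HR.Cham
import Pool.Agent.H978R2.Hex.Conn
import Pool.Agent.H978R2.Hex.Lower

set_option autoImplicit false

/-! Self-avoiding walks with a given number of steps in subsets of the honeycomb lattice. -/

namespace Pool.Agent.X130.ST

open H978R2.Hex Pool.Agent.W832.HR Pool.Agent.W818.TD
open scoped ENNReal

/-- the `n`-step self-avoiding walks from `a` in `D` -/
def Wk (D : Set V) (a : V) (n : ℕ) : Set (List V) :=
  {l | l.length = n + 1 ∧ l.head? = some a ∧ l.Nodup ∧ l.IsChain Nbr ∧ ∀ p ∈ l, p ∈ D}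

/-- chains -/
def E : ℕ → V → Finset (List V)
  | 0, a => {[a]}
  | n + 1, a => (nbrs a).biUnion fun b => (E n b).image (a :: ·)

theorem mem_E : ∀ (n : ℕ) (a : V) (l : List V), l.length = n + 1 → l.head? = some a →
    l.IsChain Nbr → l ∈ E n a
  | 0, a, [b], _, h, _ => by
    simp only [List.head?_cons, Option.some.injEq] at h
    simp [E, h]
  | 0, a, b :: c :: t, hl, _, _ => by simp at hl
  | n + 1, a, [b], hl, _, _ => by simp at hl
  | n + 1, a, b :: c :: t, hl, hh, hc => by
    simp only [List.head?_cons, Option.some.injEq] at hh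
    subst hh
    rw [List.isChain_cons_cons] at hc
    simp only [E, Finset.mem_biUnion, Finset.mem_image]
    exact ⟨c, mem_nbrs'.2 (nbr_iff.1 hc.1), c :: t,
      mem_E n c (c :: t) (by simpa using hl) rfl hc.2, rfl⟩
  | 0, a, [], hl, _, _ => by simp at hl
  | n + 1, a, [], hl, _, _ => by simp at hl

theorem Wk_finite (D : Set V) (a : V) (n : ℕ) : (Wk D a n).Finite :=
  (E n a).finite_toSet.subset fun l hl => mem_E n a l hl.1 hl.2.1 hl.2.2.2.1

/-- the finite set of the walks -/
noncomputable def wf (D : Set V) (a : V) (n : ℕ) : Finset (List V) := (Wk_finite D a n).toFinset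

theorem mem_wf {D : Set V} {a : V} {n : ℕ} {l : List V} : l ∈ wf D a n ↔ l ∈ Wk D a n := by
  unfold wf
  rw [Set.Finite.mem_toFinset]

/-- the number of the walks -/
noncomputable def cw (D : Set V) (a : V) (n : ℕ) : ℕ := (wf D a n).card

theorem ncard_Wk (D : Set V) (a : V) (n : ℕ) : (Wk D a n).ncard = cw D a n := by
  unfold cw wf
  rw [Set.ncard_eq_toFinset_card _ (Wk_finite D a n)]

theorem cw_mono {D D' : Set V} (h : D ⊆ D') (a : V) (n : ℕ) : cw D a n ≤ cw D' a n := by
  apply Finset.card_le_card
  intro l hl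
  rw [mem_wf] at hl ⊢
  exact ⟨hl.1, hl.2.1, hl.2.2.1, hl.2.2.2.1, fun p hp => h (hl.2.2.2.2 p hp)⟩

/-- automorphisms -/
theorem cw_map {D D' : Set V} {a : V} {n : ℕ} (g : V → V) (hg : Function.Injective g)
    (hn : ∀ p q, Nbr p q → Nbr (g p) (g q)) (hD : ∀ p ∈ D, g p ∈ D') :
    cw D a n ≤ cw D' (g a) n := by
  apply Finset.card_le_card_of_injOn (List.map g)
  · intro l hl
    rw [Finset.mem_coe, mem_wf] at hl
    rw [Finset.mem_coe, mem_wf]
    obtain ⟨h1, h2, h3, h4, h5⟩ := hl
    refine ⟨by rw [List.length_map]; exact h1, ?_, h3.map hg, ?_, ?_⟩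
    · rw [List.head?_map, h2]
      rfl
    · rw [List.isChain_map]
      exact h4.imp fun {x y} hxy => hn x y hxy
    · intro p hp
      rw [List.mem_map] at hp
      obtain ⟨q, hq, rfl⟩ := hp
      exact hD q (h5 q hq)
  · intro l _ l' _ h
    exact List.map_injective_iff.2 hg h

theorem nbr_trans {c p q : V} (hc : (c.1 + c.2) % 2 = 0) (h : Nbr p q) : Nbr (p + c) (q + c) :=
  nbr_iff.2 (HP.adj_trans hc (nbr_iff.1 h))

theorem nbr_refl {c p q : V} (hc : (c.1 + c.2) % 2 = 1) (h : Nbr p q) : Nbr (c - p) (c - q) :=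
  nbr_iff.2 (HP.adj_refl hc (nbr_iff.1 h))

/-- number of walks of the whole lattice -/
noncomputable def F (n : ℕ) : ℕ := cw Set.univ (0, 0) n

theorem cw_le_F (D : Set V) (a : V) (n : ℕ) : cw D a n ≤ F n := by
  rcases Int.emod_two_eq_zero_or_one (a.1 + a.2) with h | h
  · have h1 := cw_map (D := D) (D' := Set.univ) (a := a) (n := n) (fun p => p + -a)
      (fun p q hpq => by simpa using hpq)
      (fun p q hpq => nbr_trans (by simp only [Prod.fst_neg, Prod.snd_neg]; omega) hpq)
      (fun p _ => Set.mem_univ _)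
    simp only [add_neg_cancel] at h1
    exact h1
  · have h1 := cw_map (D := D) (D' := Set.univ) (a := a) (n := n) (fun p => a - p)
      (fun p q hpq => by simpa using hpq)
      (fun p q hpq => nbr_refl h hpq)
      (fun p _ => Set.mem_univ _)
    simp only [sub_self] at h1
    exact h1

/-- splitting after `m` steps -/
theorem cw_add_le {D : Set V} {a : V} {m n B : ℕ} (hB : ∀ b ∈ D, cw D b n ≤ B) :
    cw D a (m + n) ≤ cw D a m * B := by
  classical
  unfold cw
  rw [mul_comm]
  apply Finset.card_le_mul_card_image_of_maps_to (f := fun l => l.take (m + 1))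
  · intro l hl
    rw [mem_wf] at hl ⊢
    obtain ⟨h1, h2, h3, h4, h5⟩ := hl
    refine ⟨by rw [List.length_take]; omega, ?_, h3.sublist (List.take_sublist _ _),
      h4.take _, fun p hp => h5 p (List.mem_of_mem_take hp)⟩
    rw [List.head?_take, if_neg (by omega)]
    exact h2
  · intro p hp
    rw [mem_wf] at hp
    obtain ⟨h1, h2, h3, h4, h5⟩ := hp
    have hne : p ≠ [] := by rintro rfl; simp at h1
    obtain ⟨b, hb⟩ : ∃ b, b = p.getLast hne := ⟨_, rfl⟩
    have hbD : b ∈ D := h5 b (by rw [hb]; exact List.getLast_mem hne)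
    refine le_trans ?_ (hB b hbD)
    apply Finset.card_le_card_of_injOn (fun l => l.drop m)
    · intro l hl
      rw [Finset.mem_coe, Finset.mem_filter, mem_wf] at hl
      rw [Finset.mem_coe, mem_wf]
      obtain ⟨⟨g1, g2, g3, g4, g5⟩, g6⟩ := hl
      refine ⟨by rw [List.length_drop]; omega, ?_, g3.sublist (List.drop_sublist _ _),
        g4.drop _, fun p hp => g5 p (List.mem_of_mem_drop hp)⟩
      rw [List.head?_drop, hb, List.getLast_eq_getElem]
      have : l[m]? = some (l[m]'(by omega)) := List.getElem?_eq_getElem _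
      rw [this]
      congr 1
      simp only [← g6, List.getElem_take, List.length_take]
      congr 1
      omega
    · intro l hl l' hl' h
      rw [Finset.mem_coe, Finset.mem_filter] at hl hl'
      have e1 : l.take m = l'.take m := by
        have := congrArg (List.take m) (hl.2.trans hl'.2.symm)
        rw [List.take_take, List.take_take] at this
        simpa using this
      rw [← List.take_append_drop m l, ← List.take_append_drop m l', e1]
      congr 1

theorem F_add_le (m n : ℕ) : F (m + n) ≤ F m * F n :=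
  cw_add_le fun b _ => cw_le_F _ b n

end Pool.Agent.X130.ST
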