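import Pool.Agent.X130.ST.A

set_option autoImplicit false

/-! Growth of the number of walks. -/

namespace Pool.Agent.X130.ST

open H978R2.Hex Pool.Agent.W832.HR Pool.Agent.W818.TD Filter Topology
open scoped ENNReal

theorem F_le_saws (n : ℕ) : F n ≤ (saws n).ncard := by
  unfold F
  rw [← ncard_Wk]
  haveI := (saws_finite n).to_subtype
  apply Set.ncard_le_ncard_of_injOn (fun l => fun i : Fin (n + 1) => l.getD i.1 (0, 0))
  · rintro l ⟨h1, h2, h3, h4, -⟩
    refine ⟨?_, ?_, ?_⟩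
    · simp only [Fin.val_zero]
      rw [List.getD_eq_getElem?_getD, ← List.head?_eq_getElem?, h2]
      rfl
    · intro i j hij
      simp only at hij
      have hi : i.1 < l.length := by have := i.2; omega
      have hj : j.1 < l.length := by have := j.2; omega
      rw [List.getD_eq_getElem _ _ hi, List.getD_eq_getElem _ _ hj] at hij
      exact Fin.ext ((List.Nodup.getElem_inj_iff h3).1 hij)
    · intro i
      have hi : i.1 < l.length := by have := i.2; omega
      have hi' : i.1 + 1 < l.length := by have := i.2; omega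
      simp only [Fin.val_castSucc, Fin.val_succ]
      rw [List.getD_eq_getElem _ _ hi, List.getD_eq_getElem _ _ hi']
      rw [List.isChain_iff_getElem] at h4
      exact nbr_iff.1 (h4 i.1 hi')
  · rintro l ⟨h1, -⟩ l' ⟨h1', -⟩ h
    apply List.ext_getElem (by omega)
    intro i hi hi'
    have := congrFun h ⟨i, by omega⟩
    simp only at this
    rwa [List.getD_eq_getElem _ _ hi, List.getD_eq_getElem _ _ hi'] at this

/-- growth of a submultiplicative sequence -/
theorem growth {u : ℕ → ℝ} (h0 : ∀ n, 0 ≤ u n) (h1 : ∀ m n, u (m + n) ≤ u m * u n)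
    {k : ℕ} (hk : 1 ≤ k) {ρ : ℝ} (hρ : 0 < ρ) (hu : u k ≤ ρ ^ k) :
    ∃ B : ℝ, 0 < B ∧ ∀ n, u n ≤ B * ρ ^ n := by
  have hmul : ∀ q r, u (k * q + r) ≤ ρ ^ (k * q) * u r := by
    intro q r
    induction q with
    | zero => simp
    | succ q ih =>
      have e : k * (q + 1) + r = k + (k * q + r) := by ring
      rw [e]
      calc u (k + (k * q + r)) ≤ u k * u (k * q + r) := h1 _ _
        _ ≤ ρ ^ k * (ρ ^ (k * q) * u r) := by
            apply mul_le_mul hu ih (h0 _) (by positivity)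
        _ = ρ ^ (k * (q + 1)) * u r := by rw [← mul_assoc, ← pow_add]; congr 2; ring
  refine ⟨∑ r ∈ Finset.range k, u r / ρ ^ r + 1, ?_, ?_⟩
  · have : 0 ≤ ∑ r ∈ Finset.range k, u r / ρ ^ r :=
      Finset.sum_nonneg fun r _ => div_nonneg (h0 r) (pow_pos hρ r).le
    linarith
  · intro n
    have h2 := hmul (n / k) (n % k)
    rw [Nat.div_add_mod] at h2
    have hr : n % k < k := Nat.mod_lt _ (by omega)
    have h3 : u (n % k) / ρ ^ (n % k) ≤ ∑ r ∈ Finset.range k, u r / ρ ^ r :=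
      Finset.single_le_sum (f := fun r => u r / ρ ^ r)
        (fun r _ => div_nonneg (h0 r) (pow_pos hρ r).le) (Finset.mem_range.2 hr)
    have h4 : u (n % k) = u (n % k) / ρ ^ (n % k) * ρ ^ (n % k) := by
      rw [div_mul_cancel₀ _ (pow_pos hρ _).ne']
    calc u n ≤ ρ ^ (k * (n / k)) * u (n % k) := h2
      _ = (u (n % k) / ρ ^ (n % k)) * (ρ ^ (k * (n / k)) * ρ ^ (n % k)) := by
          rw [h4]
          field_simp
      _ = (u (n % k) / ρ ^ (n % k)) * ρ ^ n := by
          rw [← pow_add, Nat.div_add_mod]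
      _ ≤ _ := by
          apply mul_le_mul_of_nonneg_right _ (pow_pos hρ n).le
          linarith

theorem F_growth {δ : ℝ} (hδ : 0 < δ) : ∃ B : ℝ, 0 < B ∧
    ∀ n : ℕ, (F n : ℝ) ≤ B * (mu0 * Real.exp δ) ^ n := by
  have hm := mu0_pos
  have h1 := connective_le
  have h2 : (⨅ n : {n : ℕ // 1 ≤ n}, ((Set.ncard (saws n.1) : ℝ) ^ ((1 : ℝ) / (n.1 : ℝ)))) <
      mu0 * Real.exp δ := by
    refine lt_of_le_of_lt h1 ?_
    have : 1 < Real.exp δ := Real.one_lt_exp_iff.2 hδ
    nlinarith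
  haveI : Nonempty {n : ℕ // 1 ≤ n} := ⟨⟨1, le_rfl⟩⟩
  obtain ⟨⟨k, hk⟩, hlt⟩ := exists_lt_of_ciInf_lt h2
  simp only at hlt
  have hk0 : (0 : ℝ) < k := by exact_mod_cast hk
  have h3 : (F k : ℝ) ≤ (mu0 * Real.exp δ) ^ k := by
    have h4 : (F k : ℝ) ≤ ((saws k).ncard : ℝ) := by exact_mod_cast F_le_saws k
    refine h4.trans ?_
    have h5 : ((saws k).ncard : ℝ) = (((saws k).ncard : ℝ) ^ ((1 : ℝ) / k)) ^ k := by
      rw [← Real.rpow_natCast, ← Real.rpow_mul (Nat.cast_nonneg _)]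
      rw [one_div, inv_mul_cancel₀ hk0.ne', Real.rpow_one]
    rw [h5]
    exact pow_le_pow_left₀ (Real.rpow_nonneg (Nat.cast_nonneg _) _) hlt.le _
  exact growth (fun n => Nat.cast_nonneg _) (fun m n => by exact_mod_cast F_add_le m n) hk
    (by positivity) h3

end Pool.Agent.X130.ST
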