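import Pool.Agent.X130.ST.B

set_option autoImplicit false

/-! Walks in a strip which start at the boundary. -/

namespace Pool.Agent.X130.ST

open H978R2.Hex hiding Strip
open Pool.Agent.W818.TD hiding Up
open Pool.Agent.W832.HR Filter Topology
open scoped ENNReal

/-- the box -/
noncomputable def box (T m : ℕ) : Finset V :=
  (Finset.Icc (-(m : ℤ)) m ×ˢ Finset.Icc (1 : ℤ) (2 * T)).image (fun p => (p.1 + p.2, p.1))

theorem mem_box {T m : ℕ} {v : V} (h : Dm T (.I m) (.I m) v) : v ∈ box T m := by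
  obtain ⟨h1, h2, h3, h4⟩ := h
  simp only [Up] at h3
  simp only [Lo] at h4
  unfold box
  rw [Finset.mem_image]
  refine ⟨(v.2, v.1 - v.2), ?_, ?_⟩
  · rw [Finset.mem_product, Finset.mem_Icc, Finset.mem_Icc]
    exact ⟨⟨h4, by simp only; omega⟩, h1, h2⟩
  · apply Prod.ext
    · simp
    · rfl

theorem card_box (T m : ℕ) : (box T m).card ≤ (2 * m + 1) * (2 * T) := by
  unfold box
  refine Finset.card_image_le.trans ?_
  rw [Finset.card_product, Int.card_Icc, Int.card_Icc]
  have e1 : ((m : ℤ) + 1 - -(m : ℤ)).toNat = 2 * m + 1 := by omega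
  have e2 : (2 * (T : ℤ) + 1 - 1).toNat = 2 * T := by omega
  rw [e1, e2]

open Classical in
/-- the walks which leave the box through one of the two walls -/
noncomputable def Af (T m : ℕ) : Finset (List V) :=
  (LS (Dm T (.I m) (.I m)) (box T m).card).filter (fun w => W w = 1 ∨ W w = -1)

theorem mem_Af {T m : ℕ} {w : List V} : w ∈ Af T m ↔
    w ∈ LS (Dm T (.I m) (.I m)) (box T m).card ∧ (W w = 1 ∨ W w = -1) := by
  unfold Af
  rw [Finset.mem_filter]

theorem ms_Af {T m : ℕ} (hT : 1 ≤ T) : ms (Af T m) ≤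
    mq (Dm T (.I m) (.I m)) 1 + mq (Dm T (.I m) (.I m)) (-1) := by
  have hI := idn hT (.I m) (.I m)
  have h1 : ma (Af T m : Set (List V)) ≤
      ma (LK (Dm T (.I m) (.I m)) 1) + ma (LK (Dm T (.I m) (.I m)) (-1)) := by
    refine (ma_mono ?_).trans (ma_union_le _ _)
    intro w hw
    rw [Finset.mem_coe, mem_Af, mem_LS] at hw
    rcases hw.2 with h | h
    · left
      exact ⟨⟨hw.1.1, hw.1.2.2⟩, h⟩
    · right
      exact ⟨⟨hw.1.1, hw.1.2.2⟩, h⟩
  rw [ma_finset] at h1
  unfold mq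
  rw [← ENNReal.toReal_add (hI.ne_top LK_sub) (hI.ne_top LK_sub)]
  have h2 := ENNReal.toReal_mono (ENNReal.add_ne_top.2 ⟨hI.ne_top LK_sub, hI.ne_top LK_sub⟩) h1
  rwa [ENNReal.toReal_ofReal (ms_nonneg _)] at h2

theorem cover {T m n : ℕ} (hT : 1 ≤ T) (hn : (2 * m + 1) * (2 * T) < n + 1) {l : List V}
    (hl : l ∈ Wk (Strip T) (1, 0) n) :
    ∃ w ∈ Af T m, w.length ≤ n + 2 ∧
      ∃ q ∈ Wk Set.univ (w.headD (0, 0)) (n - (w.length - 2)), l = path w ++ q := by
  classical
  obtain ⟨h1, h2, h3, h4, h5⟩ := hl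
  have hbox : ∀ k, (∀ i (hi : i < l.length), i < k → Dm T (.I m) (.I m) (l[i]'hi)) →
      (l.take k).length ≤ (box T m).card := by
    intro k hk
    have hnd : (l.take k).Nodup := h3.sublist (List.take_sublist _ _)
    rw [← List.toFinset_card_of_nodup hnd]
    apply Finset.card_le_card
    intro v hv
    rw [List.mem_toFinset, List.mem_iff_getElem] at hv
    obtain ⟨i, hi, rfl⟩ := hv
    rw [List.length_take] at hi
    rw [List.getElem_take]
    exact mem_box (hk i (by omega) (by omega))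
  have hex : ∃ i, ∃ hi : i < l.length, ¬ Dm T (.I m) (.I m) (l[i]'hi) := by
    by_contra hcon
    push Not at hcon
    have := hbox (n + 1) (fun i hi _ => hcon i hi)
    rw [List.length_take, h1, min_self] at this
    have := card_box T m
    omega
  obtain ⟨i, hi⟩ : ∃ i, i = Nat.find hex := ⟨_, rfl⟩
  obtain ⟨hil, hiD⟩ := Nat.find_spec hex
  rw [← hi] at hil
  simp only [← hi] at hiD
  have hmin : ∀ j (hj : j < l.length), j < i → Dm T (.I m) (.I m) (l[j]'hj) := by
    intro j hj hji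
    have := Nat.find_min hex (hi ▸ hji)
    push Not at this
    exact this hj
  have hl0 : l[0]'(by omega) = (1, 0) := by
    have := h2
    rw [List.head?_eq_getElem?, List.getElem?_eq_getElem (by omega), Option.some.injEq] at this
    exact this
  have hi1 : 1 ≤ i := by
    by_contra hcon
    have h0 : i = 0 := by omega
    apply hiD
    simp only [h0, hl0]
    exact base_Dm hT _ _
  obtain ⟨z, hz⟩ : ∃ z, z = l[i]'hil := ⟨_, rfl⟩
  obtain ⟨v, hv⟩ : ∃ v, v = l[i - 1]'(by omega) := ⟨_, rfl⟩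
  rw [← hz] at hiD
  have hzS : z ∈ Strip T := h5 z (by rw [hz]; exact List.getElem_mem _)
  have hadj : Adj v z := by
    rw [← nbr_iff, hv, hz]
    rw [List.isChain_iff_getElem] at h4
    have := h4 (i - 1) (by omega)
    have e : i - 1 + 1 = i := by omega
    simp only [e] at this
    exact this
  have hT0 : ¬ Dm T (.I m) (.I m) (0, 0) := by
    intro h
    have := h.1
    simp at this
  have hz0 : z ≠ (0, 0) := by
    rintro h
    rw [h] at hzS
    have := hzS.1
    simp at this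
  have hp : l.take i ∈ Traj {p | Dm T (.I m) (.I m) p} (1, 0) v := by
    refine ⟨?_, ?_, h3.sublist (List.take_sublist _ _), h4.take _, ?_⟩
    · rw [List.head?_take, if_neg (by omega)]
      exact h2
    · rw [List.getLast?_eq_getElem?, List.length_take, min_eq_left (by omega),
        List.getElem?_take_of_lt (by omega), List.getElem?_eq_getElem (by omega), hv]
    · intro p hp
      rw [List.mem_iff_getElem] at hp
      obtain ⟨j, hj, rfl⟩ := hp
      rw [List.length_take] at hj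
      rw [List.getElem_take]
      exact hmin j (by omega) (by omega)
  obtain ⟨b1, b2⟩ := back_mem (D := Dm T (.I m) (.I m)) hT0 hadj hz0 hiD hp
  have hlen : (back z (l.take i)).length = i + 2 := by
    unfold back
    simp only [List.length_cons, List.length_append, List.length_reverse, List.length_take,
      List.length_nil]
    omega
  have hLW : back z (l.take i) ∈ LW (Dm T (.I m) (.I m)) := ⟨b1, by rw [b2]; exact hiD⟩
  refine ⟨back z (l.take i), ?_, by omega, l.drop i, ?_, ?_⟩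
  · rw [mem_Af, mem_LS]
    refine ⟨⟨b1, ?_, by rw [b2]; exact hiD⟩, ?_⟩
    · rw [hlen]
      have := hbox i (fun j hj hji => hmin j hj hji)
      rw [List.length_take] at this
      omega
    · have c := LW_cls hT hLW
      rw [b2] at c
      have hz1 := hzS.1
      have hz2 := hzS.2
      simp only [ku] at c
      omega
  · rw [b2, hlen]
    refine ⟨by rw [List.length_drop]; omega, ?_, h3.sublist (List.drop_sublist _ _), h4.drop _,
      fun _ _ => Set.mem_univ _⟩
    rw [List.head?_drop, List.getElem?_eq_getElem hil, hz]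
  · rw [path_back, List.take_append_drop]

theorem exit_count {T m n : ℕ} (hT : 1 ≤ T) (hn : (2 * m + 1) * (2 * T) < n + 1) {M : ℝ}
    (hM : ∀ k ≤ n, (F k : ℝ) * (mu0⁻¹) ^ k ≤ M) :
    (cw (Strip T) (1, 0) n : ℝ) * (mu0⁻¹) ^ n ≤
      M * (mq (Dm T (.I m) (.I m)) 1 + mq (Dm T (.I m) (.I m)) (-1)) := by
  classical
  have hmu := mu0_pos
  have hM0 : 0 ≤ M := le_trans (by positivity) (hM 0 (Nat.zero_le _))
  set A := (Af T m).filter (fun w => w.length ≤ n + 2) with hA
  have h1 : cw (Strip T) (1, 0) n ≤ ∑ w ∈ A, F (n - (w.length - 2)) := by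
    have hsub : wf (Strip T) (1, 0) n ⊆ A.biUnion
        (fun w => (wf Set.univ (w.headD (0, 0)) (n - (w.length - 2))).image (path w ++ ·)) := by
      intro l hl
      rw [mem_wf] at hl
      obtain ⟨w, hw, hwl, q, hq, rfl⟩ := cover hT hn hl
      rw [Finset.mem_biUnion]
      refine ⟨w, ?_, ?_⟩
      · rw [hA, Finset.mem_filter]
        exact ⟨hw, hwl⟩
      · rw [Finset.mem_image]
        exact ⟨q, mem_wf.2 hq, rfl⟩
    refine (Finset.card_le_card hsub).trans (Finset.card_biUnion_le.trans ?_)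
    apply Finset.sum_le_sum
    intro w _
    exact Finset.card_image_le.trans (cw_le_F _ _ _)
  have h2 : (cw (Strip T) (1, 0) n : ℝ) * (mu0⁻¹) ^ n ≤ ∑ w ∈ A, M * wt w := by
    calc (cw (Strip T) (1, 0) n : ℝ) * (mu0⁻¹) ^ n
        ≤ (∑ w ∈ A, (F (n - (w.length - 2)) : ℝ)) * (mu0⁻¹) ^ n := by
          apply mul_le_mul_of_nonneg_right _ (by positivity)
          exact_mod_cast h1
      _ = ∑ w ∈ A, (F (n - (w.length - 2)) : ℝ) * (mu0⁻¹) ^ n := Finset.sum_mul _ _ _
      _ ≤ _ := by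
          apply Finset.sum_le_sum
          intro w hw
          rw [hA, Finset.mem_filter, mem_Af, mem_LS] at hw
          have hlen := val_len hw.1.1.1
          have e : (mu0⁻¹ : ℝ) ^ n = (mu0⁻¹) ^ (n - (w.length - 2)) * wt w := by
            unfold wt
            rw [← pow_add]
            congr 1
            omega
          rw [e, ← mul_assoc]
          apply mul_le_mul_of_nonneg_right _ (wt_nonneg w)
          exact hM _ (Nat.sub_le _ _)
  refine h2.trans ?_
  rw [← Finset.mul_sum]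
  apply mul_le_mul_of_nonneg_left _ hM0
  refine le_trans ?_ (ms_Af hT)
  exact ms_mono (Finset.filter_subset _ _)

theorem wall_mono {T m : ℕ} (hT : 1 ≤ T) :
    mq (Dm T (.I m) (.I m)) 1 ≤ mq (Dm T (.I m) .no) 1 := by
  unfold mq
  apply ENNReal.toReal_mono ((idn hT (.I m) .no).ne_top LK_sub)
  apply ma_mono
  rintro w ⟨hw, hk⟩
  refine ⟨⟨Val_mono (fun v hv => ⟨hv.1, hv.2.1, hv.2.2.1, trivial⟩) hw.1, ?_⟩, hk⟩
  intro hD
  have c := LW_cls hT hw
  rw [hk] at c
  have h1 := hD.1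
  have h2 := hD.2.1
  have h3 := hD.2.2.1
  simp only [ku] at c
  rcases c with c | c | c | c | c
  · omega
  · omega
  · omega
  · exact c.1 h3
  · omega

theorem wall_sym {T m : ℕ} (hT : 1 ≤ T) :
    mq (Dm T (.I m) (.I m)) (-1) ≤ mq (Dm T (.I m) (.I m)) 1 := by
  unfold mq
  apply ENNReal.toReal_mono ((idn hT (.I m) (.I m)).ne_top LK_sub)
  apply ma_sg_le
  rintro w ⟨hw, hwk⟩
  have hLW : w.map sg ∈ LW (Dm T (.I m) (.I m)) := by
    refine ⟨Val_sg (fun v hv => Dm_sg.1 hv) hw.1, ?_⟩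
    rw [head_sg hw.1, ← Dm_sg]
    exact hw.2
  refine ⟨hLW, ?_⟩
  have c1 := LW_cls hT hw
  have c2 := LW_cls hT hLW
  rw [head_sg hw.1] at c2
  have hzz : ¬ (2 * (m : ℤ) + 1 < (w.headD (0, 0)).1 + (w.headD (0, 0)).2 ∧
      (w.headD (0, 0)).2 < -(m : ℤ)) := by
    obtain ⟨z, v, K, rfl, hD⟩ := LW_land hT hw
    have hv := hD.h5 v List.mem_cons_self
    have ha := hD.h2
    rw [adj_iff] at ha
    unfold Dm at hv
    simp only [Up, Lo] at hv
    simp only [List.headD_cons]
    omega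
  generalize w.headD (0, 0) = z at c1 c2 hzz
  simp only [Up, Lo, ku, sg, ne_eq, reduceCtorEq, not_false_eq_true, true_and] at c1 c2
  omega

theorem wall_decay {T m : ℕ} (hT : 1 ≤ T) :
    mq (Dm T (.I m) .no) 1 ≤ 4 * (3 / 5) ^ (m / T) := by
  have h1 := (id_I hT m).2
  have h2 := al_nonneg hT (.I m)
  have h3 := (I_mono hT (Nat.div_mul_le_self m T)).1
  have h4 := contr_pow hT 0 (m / T)
  rw [zero_add] at h4
  have h5 : rh T (.I 0) ≤ Ar T := by
    unfold rh
    have := mq_nonneg (Dm T (.I 0) .no) 3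
    linarith
  have h6 := Ar_le hT
  rw [c3_eq] at h6
  have hs := s8_ge
  have hc : Real.cos (Real.pi / 8) ≤ 1 := Real.cos_le_one _
  have hc0 := c8_pos
  have hp : (0 : ℝ) ≤ (3 / 5) ^ (m / T) := by positivity
  have hA := Ar_nonneg T
  have h7 : rh T (.I m) ≤ (3 / 5) ^ (m / T) * Ar T :=
    h3.trans (h4.trans (mul_le_mul_of_nonneg_left h5 hp))
  have h8 : Real.sin (Real.pi / 8) * mq (Dm T (.I m) .no) 1 ≤ (3 / 5) ^ (m / T) * Ar T := by
    rw [h1]
    have h9 := rh_nonneg hT (.I m)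
    nlinarith
  have hq := mq_nonneg (Dm T (.I m) .no) 1
  have hs0 : 0 < Real.sin (Real.pi / 8) := by linarith
  have h10 : Real.sin (Real.pi / 8) * (Real.sin (Real.pi / 8) * mq (Dm T (.I m) .no) 1) ≤
      (3 / 5) ^ (m / T) * (1 / 2) := by
    calc _ ≤ Real.sin (Real.pi / 8) * ((3 / 5) ^ (m / T) * Ar T) :=
          mul_le_mul_of_nonneg_left h8 hs0.le
      _ = (3 / 5) ^ (m / T) * (Real.sin (Real.pi / 8) * Ar T) := by ring
      _ ≤ _ := mul_le_mul_of_nonneg_left h6 hp
  have h11 : (19 / 50 : ℝ) * ((19 / 50) * mq (Dm T (.I m) .no) 1) ≤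
      Real.sin (Real.pi / 8) * (Real.sin (Real.pi / 8) * mq (Dm T (.I m) .no) 1) := by
    apply mul_le_mul hs (mul_le_mul_of_nonneg_right hs hq) (by positivity) hs0.le
  nlinarith

theorem wall_total {T m : ℕ} (hT : 1 ≤ T) :
    mq (Dm T (.I m) (.I m)) 1 + mq (Dm T (.I m) (.I m)) (-1) ≤ 8 * (3 / 5) ^ (m / T) := by
  have h1 := wall_mono (m := m) hT
  have h2 := wall_sym (m := m) hT
  have h3 := wall_decay (m := m) hT
  linarith

theorem pow_exp (k : ℕ) : (3 / 5 : ℝ) ^ k ≤ Real.exp (-(k / 2)) := by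
  have h1 := exp_half
  have h2 : (3 / 5 : ℝ) ≤ Real.exp (-(1 / 2)) := by
    rw [Real.exp_neg]
    rw [le_inv_comm₀ (by norm_num) (Real.exp_pos _)]
    linarith
  calc (3 / 5 : ℝ) ^ k ≤ Real.exp (-(1 / 2)) ^ k := pow_le_pow_left₀ (by norm_num) h2 k
    _ = Real.exp (-(k / 2)) := by
        rw [← Real.exp_nat_mul]
        congr 1
        ring

/-- **walks from the boundary vertex** -/
theorem bd_growth {T : ℕ} (hT : 1 ≤ T) {δ : ℝ} (hδ : 0 < δ) : ∃ A : ℝ, 0 < A ∧ ∀ n : ℕ,
    (cw (Strip T) (1, 0) n : ℝ) ≤ A * (mu0 * Real.exp (δ - 1 / (8 * (T : ℝ) ^ 2))) ^ n := by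
  obtain ⟨B, hB, hF⟩ := F_growth hδ
  have hmu := mu0_pos
  have hT0 : (0 : ℝ) < T := by exact_mod_cast hT
  have hT1 : (1 : ℝ) ≤ T := by exact_mod_cast hT
  refine ⟨B * (8 * Real.exp (5 / 4)), by positivity, ?_⟩
  intro n
  have hM : ∀ k ≤ n, (F k : ℝ) * (mu0⁻¹) ^ k ≤ B * Real.exp δ ^ n := by
    intro k hk
    calc (F k : ℝ) * (mu0⁻¹) ^ k ≤ (B * (mu0 * Real.exp δ) ^ k) * (mu0⁻¹) ^ k :=
          mul_le_mul_of_nonneg_right (hF k) (by positivity)
      _ = B * Real.exp δ ^ k := by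
          rw [mul_pow, inv_pow]
          field_simp
      _ ≤ _ := by
          apply mul_le_mul_of_nonneg_left _ hB.le
          exact pow_le_pow_right₀ (Real.one_le_exp hδ.le) hk
  have key : (cw (Strip T) (1, 0) n : ℝ) * (mu0⁻¹) ^ n ≤
      B * Real.exp δ ^ n * (8 * Real.exp (5 / 4) * Real.exp (-(n / (8 * (T : ℝ) ^ 2)))) := by
    rcases Nat.lt_or_ge n (2 * T) with hn | hn
    · have h1 : (cw (Strip T) (1, 0) n : ℝ) ≤ F n := by exact_mod_cast cw_le_F _ _ n
      have h2 := hM n le_rfl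
      have h3 : (1 : ℝ) ≤ 8 * Real.exp (5 / 4) * Real.exp (-(n / (8 * (T : ℝ) ^ 2))) := by
        have h4 : (n : ℝ) / (8 * (T : ℝ) ^ 2) ≤ 1 / 4 := by
          rw [div_le_iff₀ (by positivity)]
          have : (n : ℝ) ≤ 2 * T := by exact_mod_cast hn.le
          nlinarith
        rw [mul_assoc, ← Real.exp_add]
        have h5 := Real.add_one_le_exp (5 / 4 + -((n : ℝ) / (8 * (T : ℝ) ^ 2)))
        linarith
      calc (cw (Strip T) (1, 0) n : ℝ) * (mu0⁻¹) ^ n ≤ F n * (mu0⁻¹) ^ n :=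
            mul_le_mul_of_nonneg_right h1 (by positivity)
        _ ≤ B * Real.exp δ ^ n := h2
        _ ≤ _ := le_mul_of_one_le_right (by positivity) h3
    · obtain ⟨N, hN⟩ : ∃ N, N = n / (2 * T) := ⟨_, rfl⟩
      have hN1 : 1 ≤ N := by
        rw [hN]
        exact (Nat.one_le_div_iff (by omega)).2 hn
      obtain ⟨m, hm⟩ : ∃ m, m = (N - 1) / 2 := ⟨_, rfl⟩
      have hmN : 2 * m + 1 ≤ N := by omega
      have hNm : N ≤ 2 * m + 2 := by omega
      have hlt : (2 * m + 1) * (2 * T) < n + 1 := by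
        have h1 : (2 * m + 1) * (2 * T) ≤ N * (2 * T) := Nat.mul_le_mul_right _ hmN
        have h2 : N * (2 * T) ≤ n := by rw [hN]; exact Nat.div_mul_le_self _ _
        omega
      have h1 := exit_count hT hlt hM
      have h2 := wall_total (m := m) hT
      have h3 : (3 / 5 : ℝ) ^ (m / T) ≤ Real.exp (5 / 4) * Real.exp (-(n / (8 * (T : ℝ) ^ 2))) := by
        refine (pow_exp _).trans ?_
        rw [← Real.exp_add]
        apply Real.exp_le_exp.2
        have h4 : (m : ℝ) < (T : ℝ) * ((m / T : ℕ) + 1) := by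
          have := Nat.lt_mul_div_succ m (show 0 < T by omega)
          exact_mod_cast this
        have h5 : (n : ℝ) < (2 * T) * ((N : ℝ) + 1) := by
          have := Nat.lt_mul_div_succ n (show 0 < 2 * T by omega)
          rw [← hN] at this
          exact_mod_cast this
        have h6 : (N : ℝ) ≤ 2 * m + 2 := by exact_mod_cast hNm
        have h7 : (n : ℝ) < 2 * T * (2 * (T * ((m / T : ℕ) + 1)) + 3) := by
          nlinarith
        have h8 : (n : ℝ) / (8 * (T : ℝ) ^ 2) ≤ ((m / T : ℕ) : ℝ) / 2 + 5 / 4 := by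
          rw [div_le_iff₀ (by positivity)]
          nlinarith
        linarith
      calc (cw (Strip T) (1, 0) n : ℝ) * (mu0⁻¹) ^ n
          ≤ B * Real.exp δ ^ n * (mq (Dm T (.I m) (.I m)) 1 + mq (Dm T (.I m) (.I m)) (-1)) := h1
        _ ≤ B * Real.exp δ ^ n * (8 * (3 / 5) ^ (m / T)) :=
            mul_le_mul_of_nonneg_left h2 (by positivity)
        _ ≤ _ := by
            apply mul_le_mul_of_nonneg_left _ (by positivity)
            rw [mul_assoc]
            exact mul_le_mul_of_nonneg_left h3 (by norm_num)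
  have e1 : (cw (Strip T) (1, 0) n : ℝ) = ((cw (Strip T) (1, 0) n : ℝ) * (mu0⁻¹) ^ n) * mu0 ^ n := by
    rw [inv_pow]
    field_simp
  rw [e1]
  calc ((cw (Strip T) (1, 0) n : ℝ) * (mu0⁻¹) ^ n) * mu0 ^ n
      ≤ (B * Real.exp δ ^ n * (8 * Real.exp (5 / 4) * Real.exp (-(n / (8 * (T : ℝ) ^ 2))))) *
        mu0 ^ n := mul_le_mul_of_nonneg_right key (by positivity)
    _ = _ := by
        have e2 : Real.exp (-(n / (8 * (T : ℝ) ^ 2))) = Real.exp (-(1 / (8 * (T : ℝ) ^ 2))) ^ n := by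
          rw [← Real.exp_nat_mul]
          congr 1
          ring
        rw [e2, mul_pow, sub_eq_add_neg, Real.exp_add, mul_pow]
        ring

end Pool.Agent.X130.ST
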