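import Pool.Agent.X130.ST.C

set_option autoImplicit false

/-! The connective constant of a strip: upper bound. -/

namespace Pool.Agent.X130.ST

open H978R2.Hex hiding Strip
open Pool.Agent.W818.TD hiding Up
open Pool.Agent.W832.HR Filter Topology
open scoped ENNReal

theorem nbr_symm {p q : V} (h : Nbr p q) : Nbr q p :=
  nbr_iff.2 (HP.adj_symm' (nbr_iff.1 h))

theorem nbr_step {p q : V} (h : Nbr p q) : |q.1 - p.1| ≤ 1 ∧ |q.2 - p.2| ≤ 1 := by
  unfold Nbr at h
  rw [abs_le, abs_le]
  omega

/-- the part of the strip at levels at least that of `u` -/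
def Hu (T : ℕ) (u : V) : Set V := {p | p ∈ Strip T ∧ u.1 - u.2 ≤ p.1 - p.2}

theorem half_le {T k : ℕ} {u : V} (hu : u ∈ Strip T) :
    cw (Hu T u) u k ≤ cw (Strip T) (1, 0) k + cw (Strip T) (1, 0) (k + 1) := by
  obtain ⟨h1, h2⟩ := hu
  rcases Int.emod_two_eq_zero_or_one (u.1 + u.2) with h | h
  · -- even
    refine le_trans ?_ (Nat.le_add_left _ _)
    obtain ⟨u', hu'⟩ : ∃ u' : V, u' = (u.1 - 1, u.2) := ⟨_, rfl⟩
    have e1 : u'.1 = u.1 - 1 := by rw [hu']
    have e2 : u'.2 = u.2 := by rw [hu']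
    have s1 : cw (Hu T u) u k ≤ cw {p | 1 ≤ p.1 - p.2 ∧ p.1 - p.2 ≤ 2 * (T : ℤ) ∧
        u'.1 - u'.2 ≤ p.1 - p.2} u' (k + 1) := by
      apply Finset.card_le_card_of_injOn (fun l => u' :: l)
      · intro l hl
        rw [Finset.mem_coe, mem_wf] at hl
        rw [Finset.mem_coe, mem_wf]
        obtain ⟨g1, g2, g3, g4, g5⟩ := hl
        refine ⟨by simp [g1], rfl, ?_, ?_, ?_⟩
        · rw [List.nodup_cons]
          refine ⟨fun hm => ?_, g3⟩
          have := (g5 u' hm).2
          omega
        · rw [List.isChain_cons]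
          refine ⟨fun y hy => ?_, g4⟩
          rw [g2, Option.mem_def, Option.some.injEq] at hy
          rw [← hy]
          left
          omega
        · intro p hp
          rw [List.mem_cons] at hp
          rcases hp with rfl | hp
          · refine ⟨?_, ?_, le_rfl⟩
            · omega
            · omega
          · obtain ⟨⟨a1, a2⟩, a3⟩ := g5 p hp
            exact ⟨a1, a2, by omega⟩
      · intro l _ l' _ h
        simpa using h
    refine s1.trans ?_
    have s2 := cw_map (D := {p : V | 1 ≤ p.1 - p.2 ∧ p.1 - p.2 ≤ 2 * (T : ℤ) ∧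
        u'.1 - u'.2 ≤ p.1 - p.2}) (D' := Strip T) (a := u') (n := k + 1)
      (fun p => p + ((1, 0) - u')) (fun p q hpq => by simpa using hpq)
      (fun p q hpq => nbr_trans (by simp only [Prod.fst_sub, Prod.snd_sub]; omega) hpq)
      (fun p hp => by
        obtain ⟨a1, a2, a3⟩ := hp
        constructor
        · simp only [Prod.fst_add, Prod.snd_add, Prod.fst_sub, Prod.snd_sub]
          omega
        · simp only [Prod.fst_add, Prod.snd_add, Prod.fst_sub, Prod.snd_sub]
          omega)
    simp only [add_sub_cancel] at s2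
    exact s2
  · refine le_trans ?_ (Nat.le_add_right _ _)
    have s2 := cw_map (D := Hu T u) (D' := Strip T) (a := u) (n := k)
      (fun p => p + ((1, 0) - u)) (fun p q hpq => by simpa using hpq)
      (fun p q hpq => nbr_trans (by simp only [Prod.fst_sub, Prod.snd_sub]; omega) hpq)
      (fun p hp => by
        obtain ⟨⟨a1, a2⟩, a3⟩ := hp
        constructor
        · simp only [Prod.fst_add, Prod.snd_add, Prod.fst_sub, Prod.snd_sub]
          omega
        · simp only [Prod.fst_add, Prod.snd_add, Prod.fst_sub, Prod.snd_sub]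
          omega)
    simp only [add_sub_cancel] at s2
    exact s2

/-- a box around `a` -/
noncomputable def Bo (a : V) (n : ℕ) : Finset V :=
  Finset.Icc (a.1 - n) (a.1 + n) ×ˢ Finset.Icc (a.2 - n) (a.2 + n)

theorem card_Bo (a : V) (n : ℕ) : (Bo a n).card = (2 * n + 1) ^ 2 := by
  unfold Bo
  rw [Finset.card_product, Int.card_Icc, Int.card_Icc]
  have e1 : (a.1 + (n : ℤ) + 1 - (a.1 - n)).toNat = 2 * n + 1 := by omega
  have e2 : (a.2 + (n : ℤ) + 1 - (a.2 - n)).toNat = 2 * n + 1 := by omega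
  rw [e1, e2, sq]

theorem walk_box {D : Set V} {a : V} {n : ℕ} {l : List V} (hl : l ∈ Wk D a n) :
    ∀ (i : ℕ) (hi : i < l.length), |(l[i]'hi).1 - a.1| ≤ i ∧ |(l[i]'hi).2 - a.2| ≤ i := by
  obtain ⟨h1, h2, h3, h4, h5⟩ := hl
  intro i
  induction i with
  | zero =>
    intro hi
    have h0 : l[0]'hi = a := by
      rw [List.head?_eq_getElem?, List.getElem?_eq_getElem hi, Option.some.injEq] at h2
      exact h2
    rw [h0]
    simp
  | succ i ih =>
    intro hi
    obtain ⟨g1, g2⟩ := ih (by omega)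
    rw [List.isChain_iff_getElem] at h4
    obtain ⟨k1, k2⟩ := nbr_step (h4 i hi)
    push_cast
    constructor
    · have := abs_sub_le (l[i + 1]'hi).1 (l[i]'(by omega)).1 a.1
      linarith
    · have := abs_sub_le (l[i + 1]'hi).2 (l[i]'(by omega)).2 a.2
      linarith

theorem cw_strip_le (T n : ℕ) (a : V) : cw (Strip T) a n ≤
    ∑ i ∈ Finset.range (n + 1), (2 * n + 1) ^ 2 *
      ((cw (Strip T) (1, 0) i + cw (Strip T) (1, 0) (i + 1)) *
        (cw (Strip T) (1, 0) (n - i) + cw (Strip T) (1, 0) (n - i + 1))) := by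
  classical
  have hsub : wf (Strip T) a n ⊆ (Finset.range (n + 1)).biUnion fun i =>
      ((Bo a n).filter (fun u => u ∈ Strip T)).biUnion fun u =>
        ((wf (Hu T u) u i) ×ˢ (wf (Hu T u) u (n - i))).image
          (fun pq => pq.1.reverse.dropLast ++ pq.2) := by
    intro l hl
    rw [mem_wf] at hl
    have hbox := walk_box hl
    obtain ⟨h1, h2, h3, h4, h5⟩ := hl
    obtain ⟨i, hi, hmin⟩ := Finset.exists_min_image (Finset.range (n + 1))
      (fun i => (l.getD i (0, 0)).1 - (l.getD i (0, 0)).2) ⟨0, by simp⟩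
    rw [Finset.mem_range] at hi
    have hil : i < l.length := by omega
    have hmin' : ∀ p ∈ l, (l[i]'hil).1 - (l[i]'hil).2 ≤ p.1 - p.2 := by
      intro p hp
      obtain ⟨j, hj, rfl⟩ := List.mem_iff_getElem.1 hp
      have := hmin j (Finset.mem_range.2 (by omega))
      rw [List.getD_eq_getElem _ _ hil, List.getD_eq_getElem _ _ hj] at this
      exact this
    have hB := hbox i hil
    rw [Finset.mem_biUnion]
    refine ⟨i, Finset.mem_range.2 hi, ?_⟩
    rw [Finset.mem_biUnion]
    refine ⟨l[i]'hil, ?_, ?_⟩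
    · rw [Finset.mem_filter]
      refine ⟨?_, h5 _ (List.getElem_mem _)⟩
      unfold Bo
      rw [Finset.mem_product, Finset.mem_Icc, Finset.mem_Icc]
      obtain ⟨hB1, hB2⟩ := hB
      rw [abs_le] at hB1 hB2
      omega
    · rw [Finset.mem_image]
      refine ⟨((l.take (i + 1)).reverse, l.drop i), ?_, ?_⟩
      · rw [Finset.mem_product, mem_wf, mem_wf]
        refine ⟨⟨?_, ?_, ?_, ?_, ?_⟩, ⟨?_, ?_, ?_, ?_, ?_⟩⟩
        · simp only [List.length_reverse, List.length_take]
          omega
        · simp only [List.head?_reverse]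
          rw [List.getLast?_eq_getElem?, List.length_take, min_eq_left (by omega)]
          rw [show i + 1 - 1 = i by omega, List.getElem?_take_of_lt (by omega),
            List.getElem?_eq_getElem hil]
        · exact List.nodup_reverse.2 (h3.sublist (List.take_sublist _ _))
        · simp only
          rw [List.isChain_reverse]
          exact (h4.take _).imp fun {x y} hxy => nbr_symm hxy
        · intro p hp
          rw [List.mem_reverse] at hp
          have := List.mem_of_mem_take hp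
          exact ⟨h5 p this, hmin' p this⟩
        · simp only [List.length_drop]
          omega
        · simp only
          rw [List.head?_drop, List.getElem?_eq_getElem hil]
        · exact h3.sublist (List.drop_sublist _ _)
        · exact h4.drop _
        · intro p hp
          have := List.mem_of_mem_drop hp
          exact ⟨h5 p this, hmin' p this⟩
      · simp only [List.reverse_reverse]
        rw [List.take_add_one, List.getElem?_eq_getElem hil, Option.toList_some,
          List.dropLast_concat, List.take_append_drop]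
  refine (Finset.card_le_card hsub).trans (Finset.card_biUnion_le.trans ?_)
  apply Finset.sum_le_sum
  intro i _
  refine Finset.card_biUnion_le.trans ?_
  calc ∑ u ∈ (Bo a n).filter (fun u => u ∈ Strip T),
        (((wf (Hu T u) u i) ×ˢ (wf (Hu T u) u (n - i))).image
          (fun pq => pq.1.reverse.dropLast ++ pq.2)).card
      ≤ ∑ _u ∈ (Bo a n).filter (fun u => u ∈ Strip T),
        ((cw (Strip T) (1, 0) i + cw (Strip T) (1, 0) (i + 1)) *
        (cw (Strip T) (1, 0) (n - i) + cw (Strip T) (1, 0) (n - i + 1))) := by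
        apply Finset.sum_le_sum
        intro u hu
        rw [Finset.mem_filter] at hu
        refine Finset.card_image_le.trans ?_
        rw [Finset.card_product]
        exact Nat.mul_le_mul (half_le hu.2) (half_le hu.2)
    _ ≤ _ := by
        rw [Finset.sum_const, smul_eq_mul]
        apply Nat.mul_le_mul_right
        rw [← card_Bo a n]
        exact Finset.card_filter_le _ _

/-- the number of the `n`-step walks of the strip, up to translation -/
noncomputable def cs (T n : ℕ) : ℕ := ∑ h ∈ Finset.Icc 1 (2 * T), cw (Strip T) ((h : ℤ), 0) n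

theorem cw_le_cs {T n : ℕ} {a : V} (ha : a ∈ Strip T) : cw (Strip T) a n ≤ cs T n := by
  obtain ⟨h1, h2⟩ := ha
  have s2 := cw_map (D := Strip T) (D' := Strip T) (a := a) (n := n)
    (fun p => p + (-a.2, -a.2)) (fun p q hpq => by simpa using hpq)
    (fun p q hpq => nbr_trans (by simp only; omega) hpq)
    (fun p hp => by
      obtain ⟨a1, a2⟩ := hp
      constructor
      · simp only [Prod.fst_add, Prod.snd_add]
        omega
      · simp only [Prod.fst_add, Prod.snd_add]
        omega)
  refine s2.trans ?_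
  have e : a + (-a.2, -a.2) = (((a.1 - a.2).toNat : ℤ), 0) := by
    apply Prod.ext
    · simp only [Prod.fst_add]
      omega
    · simp
  simp only [e]
  exact Finset.single_le_sum (f := fun h : ℕ => cw (Strip T) ((h : ℤ), 0) n)
    (fun _ _ => Nat.zero_le _) (Finset.mem_Icc.2 ⟨by omega, by omega⟩)

theorem cs_add_le (T m n : ℕ) : cs T (m + n) ≤ cs T m * cs T n := by
  unfold cs
  rw [Finset.sum_mul]
  apply Finset.sum_le_sum
  intro h _
  exact cw_add_le fun b hb => cw_le_cs hb

/-- the zigzag -/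
def zz (k : ℕ) : V := if k % 2 = 0 then (1 + (k / 2 : ℕ), (k / 2 : ℕ)) else (2 + (k / 2 : ℕ), (k / 2 : ℕ))

theorem zz_inj : Function.Injective zz := by
  intro a b h
  unfold zz at h
  split_ifs at h <;> simp only [Prod.mk.injEq] at h <;> omega

theorem zz_nbr (k : ℕ) : Nbr (zz k) (zz (k + 1)) := by
  unfold zz Nbr
  rw [Int.even_iff, Int.even_iff]
  rcases Nat.mod_two_eq_zero_or_one k with h | h
  · rw [if_pos h, if_neg (by omega)]
    simp only
    omega
  · rw [if_neg (by omega), if_pos (by omega)]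
    simp only
    omega

theorem one_le_cs {T : ℕ} (hT : 1 ≤ T) (n : ℕ) : 1 ≤ cs T n := by
  refine le_trans ?_ (cw_le_cs (T := T) (n := n) (a := (1, 0)) ⟨by simp, by simp only; omega⟩)
  unfold cw
  rw [Nat.one_le_iff_ne_zero, Finset.card_ne_zero]
  refine ⟨(List.range (n + 1)).map zz, ?_⟩
  rw [mem_wf]
  refine ⟨by simp, ?_, ?_, ?_, ?_⟩
  · rw [List.head?_map, List.head?_range, if_neg (by omega)]
    rfl
  · exact List.nodup_range.map zz_inj
  · rw [List.isChain_iff_getElem]
    intro i hi
    simp only [List.getElem_map, List.getElem_range]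
    exact zz_nbr i
  · intro p hp
    rw [List.mem_map] at hp
    obtain ⟨k, _, rfl⟩ := hp
    unfold zz
    constructor
    · split_ifs <;> simp only <;> omega
    · split_ifs <;> simp only <;> omega

theorem exists_mu {T : ℕ} (hT : 1 ≤ T) : ∃ μ : ℝ, 0 < μ ∧
    Tendsto (fun n : ℕ => (cs T n : ℝ) ^ (1 / (n : ℝ))) atTop (𝓝 μ) ∧
    (∀ n : ℕ, μ ^ n ≤ cs T n) ∧
    ∀ δ : ℝ, 0 < δ → ∃ B : ℝ, 0 < B ∧ ∀ n : ℕ, (cs T n : ℝ) ≤ B * (μ * Real.exp δ) ^ n := by
  have hpos : ∀ n, (0 : ℝ) < cs T n := fun n => by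
    have := one_le_cs hT n
    exact_mod_cast this
  have hsub : Subadditive (fun n => Real.log (cs T n)) := by
    intro m n
    simp only
    rw [← Real.log_mul (hpos m).ne' (hpos n).ne']
    apply Real.log_le_log (hpos _)
    exact_mod_cast cs_add_le T m n
  have hbdd : BddBelow (Set.range fun n : ℕ => Real.log (cs T n) / n) := by
    refine ⟨0, ?_⟩
    rintro x ⟨n, rfl⟩
    apply div_nonneg _ (Nat.cast_nonneg _)
    apply Real.log_nonneg
    exact_mod_cast one_le_cs hT n
  have ht := hsub.tendsto_lim hbdd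
  have hlow : ∀ n : ℕ, Real.exp hsub.lim ^ n ≤ cs T n := by
    intro n
    rcases Nat.eq_zero_or_pos n with rfl | hn
    · rw [pow_zero]
      exact_mod_cast one_le_cs hT 0
    · have h1 := hsub.lim_le_div hbdd (n := n) (by omega)
      have hn0 : (0 : ℝ) < n := by exact_mod_cast hn
      rw [le_div_iff₀ hn0] at h1
      rw [← Real.exp_nat_mul, ← Real.le_log_iff_exp_le (hpos n)]
      linarith
  refine ⟨Real.exp hsub.lim, Real.exp_pos _, ?_, hlow, ?_⟩
  · have h1 := (Real.continuous_exp.tendsto _).comp ht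
    refine h1.congr' ?_
    filter_upwards [eventually_ge_atTop 1] with n hn
    simp only [Function.comp]
    rw [Real.rpow_def_of_pos (hpos n)]
    congr 1
    ring
  · intro δ hδ
    have h1 : ∀ᶠ n : ℕ in atTop, Real.log (cs T n) / n < hsub.lim + δ :=
      ht.eventually (gt_mem_nhds (by linarith))
    obtain ⟨k, hk, hk1⟩ := (h1.and (eventually_ge_atTop 1)).exists
    have hk0 : (0 : ℝ) < k := by exact_mod_cast hk1
    apply growth (fun n => Nat.cast_nonneg _) (fun m n => by exact_mod_cast cs_add_le T m n) hk1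
      (by positivity)
    rw [div_lt_iff₀ hk0] at hk
    rw [← Real.exp_add, ← Real.exp_nat_mul, ← Real.log_le_iff_le_exp (hpos k)]
    linarith

/-- **upper bound** -/
theorem mu_le {T : ℕ} (hT : 1 ≤ T) {μ : ℝ} (hμ0 : 0 < μ) (hμ : ∀ n : ℕ, μ ^ n ≤ cs T n) :
    μ ≤ mu0 * Real.exp (-(1 / (8 * (T : ℝ) ^ 2))) := by
  have hmu := mu0_pos
  -- for every `δ`
  have key : ∀ δ : ℝ, 0 < δ → μ ≤ mu0 * Real.exp (δ - 1 / (8 * (T : ℝ) ^ 2)) := by
    intro δ hδ
    obtain ⟨A, hA, hbd⟩ := bd_growth hT hδ
    obtain ⟨ρ, hρ⟩ : ∃ ρ, ρ = mu0 * Real.exp (δ - 1 / (8 * (T : ℝ) ^ 2)) := ⟨_, rfl⟩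
    rw [← hρ] at hbd ⊢
    have hρ0 : 0 < ρ := by rw [hρ]; positivity
    have hcw : ∀ (n : ℕ) (a : V), (cw (Strip T) a n : ℝ) ≤
        ((n : ℝ) + 1) * (2 * n + 1) ^ 2 * (A * (1 + ρ)) ^ 2 * ρ ^ n := by
      intro n a
      have h1 : (cw (Strip T) a n : ℝ) ≤ ∑ i ∈ Finset.range (n + 1), (2 * (n : ℝ) + 1) ^ 2 *
          (((cw (Strip T) (1, 0) i : ℝ) + cw (Strip T) (1, 0) (i + 1)) *
          ((cw (Strip T) (1, 0) (n - i) : ℝ) + cw (Strip T) (1, 0) (n - i + 1))) := by
        exact_mod_cast cw_strip_le T n a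
      have hR : ∀ i : ℕ, (cw (Strip T) (1, 0) i : ℝ) + cw (Strip T) (1, 0) (i + 1) ≤
          A * (1 + ρ) * ρ ^ i := by
        intro i
        have g1 := hbd i
        have g2 := hbd (i + 1)
        rw [pow_succ] at g2
        nlinarith
      refine h1.trans ?_
      calc _ ≤ ∑ i ∈ Finset.range (n + 1), (2 * (n : ℝ) + 1) ^ 2 *
            ((A * (1 + ρ)) ^ 2 * ρ ^ n) := by
            apply Finset.sum_le_sum
            intro i hi
            rw [Finset.mem_range] at hi
            apply mul_le_mul_of_nonneg_left _ (by positivity)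
            calc _ ≤ (A * (1 + ρ) * ρ ^ i) * (A * (1 + ρ) * ρ ^ (n - i)) :=
                  mul_le_mul (hR i) (hR (n - i)) (by positivity) (by positivity)
              _ = (A * (1 + ρ)) ^ 2 * (ρ ^ i * ρ ^ (n - i)) := by ring
              _ = _ := by
                  rw [← pow_add]
                  congr 2
                  omega
        _ = _ := by
            rw [Finset.sum_const, Finset.card_range, nsmul_eq_mul]
            push_cast
            ring
    -- limit
    by_contra hcon
    push Not at hcon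
    have hr : 1 < μ / ρ := by rwa [one_lt_div hρ0]
    have h2 : ∀ n : ℕ, (μ / ρ) ^ n ≤ (2 * T) * (((n : ℝ) + 1) * (2 * n + 1) ^ 2 * (A * (1 + ρ)) ^ 2) := by
      intro n
      rw [div_pow, div_le_iff₀ (pow_pos hρ0 n)]
      calc μ ^ n ≤ cs T n := hμ n
        _ = ∑ h ∈ Finset.Icc 1 (2 * T), (cw (Strip T) ((h : ℤ), 0) n : ℝ) := by
            unfold cs
            push_cast
            rfl
        _ ≤ ∑ _h ∈ Finset.Icc 1 (2 * T),
            ((n : ℝ) + 1) * (2 * n + 1) ^ 2 * (A * (1 + ρ)) ^ 2 * ρ ^ n :=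
            Finset.sum_le_sum fun h _ => hcw n _
        _ = _ := by
            rw [Finset.sum_const, Nat.card_Icc, nsmul_eq_mul]
            have : 2 * T + 1 - 1 = 2 * T := by omega
            rw [this]
            push_cast
            ring
    have h3 : Tendsto (fun n : ℕ => ((n : ℝ) + 1) ^ 3 / (μ / ρ) ^ n) atTop (𝓝 0) := by
      obtain ⟨r, hrr⟩ : ∃ r, r = μ / ρ := ⟨_, rfl⟩
      rw [← hrr] at hr ⊢
      have hr0 : r ≠ 0 := by linarith
      have h4 := tendsto_pow_const_div_const_pow_of_one_lt 3 hr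
      have h5 := (h4.comp (tendsto_add_atTop_nat 1)).const_mul r
      rw [mul_zero] at h5
      refine h5.congr ?_
      intro n
      simp only [Function.comp]
      have e : r ^ (n + 1) = r * r ^ n := by ring
      have hrn : r ^ n ≠ 0 := pow_ne_zero _ hr0
      rw [e]
      push_cast
      field_simp
    have h6 := (h3.const_mul (2 * T * (4 * (A * (1 + ρ)) ^ 2)))
    rw [mul_zero] at h6
    obtain ⟨n, hn⟩ := (h6.eventually (gt_mem_nhds zero_lt_one)).exists
    have h7 := h2 n
    have h8 : (0 : ℝ) < (μ / ρ) ^ n := by positivity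
    have h9 : (2 * (T : ℝ)) * (((n : ℝ) + 1) * (2 * n + 1) ^ 2 * (A * (1 + ρ)) ^ 2) ≤
        2 * T * (4 * (A * (1 + ρ)) ^ 2) * ((n : ℝ) + 1) ^ 3 := by
      have h10 : ((n : ℝ) + 1) * (2 * n + 1) ^ 2 ≤ 4 * ((n : ℝ) + 1) ^ 3 := by
        have : (0 : ℝ) ≤ n := Nat.cast_nonneg n
        nlinarith [mul_nonneg this this]
      have h11 : (0 : ℝ) ≤ (A * (1 + ρ)) ^ 2 := by positivity
      have h12 : (0 : ℝ) ≤ T := Nat.cast_nonneg T
      calc (2 * (T : ℝ)) * (((n : ℝ) + 1) * (2 * n + 1) ^ 2 * (A * (1 + ρ)) ^ 2)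
          ≤ (2 * (T : ℝ)) * ((4 * ((n : ℝ) + 1) ^ 3) * (A * (1 + ρ)) ^ 2) := by gcongr
        _ = _ := by ring
    have h13 : 2 * (T : ℝ) * (4 * (A * (1 + ρ)) ^ 2) * ((n : ℝ) + 1) ^ 3 < (μ / ρ) ^ n := by
      rw [← mul_div_assoc, div_lt_one h8] at hn
      exact hn
    linarith
  -- limit `δ → 0`
  have h1 : Tendsto (fun δ : ℝ => mu0 * Real.exp (δ - 1 / (8 * (T : ℝ) ^ 2))) (𝓝[>] 0)
      (𝓝 (mu0 * Real.exp (0 - 1 / (8 * (T : ℝ) ^ 2)))) := by
    apply tendsto_nhdsWithin_of_tendsto_nhds
    apply Continuous.tendsto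
    fun_prop
  rw [zero_sub] at h1
  exact ge_of_tendsto h1 (eventually_nhdsWithin_of_forall fun δ hδ => key δ hδ)

end Pool.Agent.X130.ST
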