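import Pool.Agent.X130.ST.D

set_option autoImplicit false

/-! Partition functions at a general fugacity; the connective constant of a strip: lower bound. -/

namespace Pool.Agent.X130.ST

open H978R2.Hex hiding Strip
open Pool.Agent.W818.TD hiding Up
open Pool.Agent.W832.HR hiding nbr_trans
open Filter Topology
open scoped ENNReal

/-- the partition function at fugacity `x` -/
noncomputable def Zx (x : ℝ≥0∞) (D : Set V) (a b : V) : ℝ≥0∞ :=
  ∑' l : Traj D a b, x ^ (l.1.length - 1)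

theorem Zx_le_of {x : ℝ≥0∞} {D D' : Set V} {a b a' b' : V} (f : List V → List V)
    (hi : ∀ l ∈ Traj D a b, ∀ l' ∈ Traj D a b, f l = f l' → l = l')
    (h : ∀ l ∈ Traj D a b, f l ∈ Traj D' a' b') (hl : ∀ l ∈ Traj D a b, (f l).length = l.length) :
    Zx x D a b ≤ Zx x D' a' b' := by
  unfold Zx
  have hinj : Function.Injective (fun l : Traj D a b => (⟨f l.1, h l.1 l.2⟩ : Traj D' a' b')) := by
    rintro ⟨l, h1⟩ ⟨l', h1'⟩ e
    exact Subtype.ext (hi l h1 l' h1' (congrArg Subtype.val e))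
  refine le_trans (le_of_eq ?_) (ENNReal.tsum_comp_le_tsum_of_injective hinj
    (fun l : Traj D' a' b' => x ^ (l.1.length - 1)))
  refine tsum_congr fun l => ?_
  simp only
  rw [hl l.1 l.2]

theorem Zx_mono {x : ℝ≥0∞} {D D' : Set V} (h : D ⊆ D') (a b : V) : Zx x D a b ≤ Zx x D' a b :=
  Zx_le_of id (fun _ _ _ _ e => e)
    (fun _ hl => ⟨hl.1, hl.2.1, hl.2.2.1, hl.2.2.2.1, fun p hp => h (hl.2.2.2.2 p hp)⟩)
    (fun _ _ => rfl)

theorem Zx_map {x : ℝ≥0∞} {D D' : Set V} {a b a' b' : V} {g : V → V}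
    (hg : ∀ p q, g p = g q → p = q)
    (hn : ∀ p q, Nbr p q → Nbr (g p) (g q)) (hD : ∀ p ∈ D, g p ∈ D') (ha : g a = a')
    (hb : g b = b') : Zx x D a b ≤ Zx x D' a' b' :=
  Zx_le_of (fun l => l.map g)
    (fun _ _ _ _ e => List.map_injective_iff.2 (fun p q e => hg p q e) e)
    (fun _ hl => traj_map hg hn hD ha hb hl) (fun _ _ => by simp)

/-- **concatenation** -/
theorem Zx_concat {x : ℝ≥0∞} {D1 D2 D : Set V} {a v v' b : V} (hn : Nbr v v') (hd : Disjoint D1 D2)
    (h1 : D1 ⊆ D) (h2 : D2 ⊆ D) : x * (Zx x D1 a v * Zx x D2 v' b) ≤ Zx x D a b := by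
  unfold Zx
  have key : ∀ l ∈ Traj D1 a v, ∀ l' ∈ Traj D2 v' b, l ++ l' ∈ Traj D a b := by
    rintro l ⟨a1, a2, a3, a4, a5⟩ l' ⟨b1, b2, b3, b4, b5⟩
    have hl : l ≠ [] := by rintro rfl; simp at a1
    have hl' : l' ≠ [] := by rintro rfl; simp at b1
    refine ⟨?_, ?_, ?_, ?_, ?_⟩
    · rw [List.head?_append_of_ne_nil _ hl, a1]
    · rw [List.getLast?_append_of_ne_nil _ hl', b2]
    · rw [List.nodup_append]
      refine ⟨a3, b3, ?_⟩
      intro p hp q hq e
      rw [e] at hp
      exact Set.disjoint_left.1 hd (a5 _ hp) (b5 _ hq)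
    · rw [List.isChain_append]
      refine ⟨a4, b4, ?_⟩
      intro y hy z hz
      rw [a2, Option.mem_def, Option.some.injEq] at hy
      rw [b1, Option.mem_def, Option.some.injEq] at hz
      rw [← hy, ← hz]
      exact hn
    · intro p hp
      rw [List.mem_append] at hp
      rcases hp with hp | hp
      · exact h1 (a5 p hp)
      · exact h2 (b5 p hp)
  have hinj : Function.Injective (fun u : Traj D1 a v × Traj D2 v' b =>
      (⟨u.1.1 ++ u.2.1, key _ u.1.2 _ u.2.2⟩ : Traj D a b)) := by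
    rintro ⟨⟨l, hl⟩, ⟨m, hm⟩⟩ ⟨⟨l', hl'⟩, ⟨m', hm'⟩⟩ e
    have e' : l ++ m = l' ++ m' := congrArg Subtype.val e
    rw [List.append_eq_append_iff] at e'
    rcases e' with ⟨c, e1, e2⟩ | ⟨c, e1, e2⟩
    · match c with
      | [] =>
        simp only [List.append_nil, List.nil_append] at e1 e2
        subst e1 e2
        rfl
      | p :: c =>
        exfalso
        refine Set.disjoint_left.1 hd (hl'.2.2.2.2 p ?_) (hm.2.2.2.2 p ?_)
        · rw [e1]; simp
        · rw [e2]; simp
    · match c with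
      | [] =>
        simp only [List.append_nil, List.nil_append] at e1 e2
        subst e1 e2
        rfl
      | p :: c =>
        exfalso
        refine Set.disjoint_left.1 hd (hl.2.2.2.2 p ?_) (hm'.2.2.2.2 p ?_)
        · rw [e1]; simp
        · rw [e2]; simp
  have e : x * ((∑' l : Traj D1 a v, x ^ (l.1.length - 1)) *
      (∑' l : Traj D2 v' b, x ^ (l.1.length - 1))) =
      ∑' u : Traj D1 a v × Traj D2 v' b, x ^ ((u.1.1 ++ u.2.1).length - 1) := by
    rw [ENNReal.tsum_prod', ← ENNReal.tsum_mul_right, ← ENNReal.tsum_mul_left]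
    refine tsum_congr fun l => ?_
    rw [← ENNReal.tsum_mul_left, ← ENNReal.tsum_mul_left]
    refine tsum_congr fun m => ?_
    have hl : 1 ≤ l.1.length := by
      have := l.2.1
      match l.1, this with
      | y :: s, _ => simp
    have hm : 1 ≤ m.1.length := by
      have := m.2.1
      match m.1, this with
      | y :: s, _ => simp
    rw [← pow_add, ← pow_succ', List.length_append]
    congr 1
    simp only
    omega
  rw [e]
  exact ENNReal.tsum_comp_le_tsum_of_injective hinj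
    (fun l : Traj D a b => x ^ (l.1.length - 1))

theorem Zx_cell {x : ℝ≥0∞} {n : ℕ} {κ : ℝ≥0∞}
    (hκ : ∀ s s', s ≠ s' → κ ≤ Zx x (Tri n) (mid0 n s) (mid0 n s')) {o : V}
    (ho : (o.1 + o.2) % 2 = 0) (c : Ch) {s s' : Sd} (h : s ≠ s') :
    κ ≤ Zx x (cell n o c) (port n o c s) (port n o c s') := by
  refine (hκ s s' h).trans ?_
  exact Zx_map (g := push n o c) (push_inj n o c) (fun p q hpq => push_nbr ho c p q hpq)
    (fun p hp => by
      change pull n o c (push n o c p) ∈ Tri n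
      rw [pull_push]
      exact hp) rfl rfl

/-- a row of triangles -/
def Ro (n N : ℕ) : Set V :=
  {p | ∃ c : Ch, c.2.1 = 0 ∧ 0 ≤ c.1 ∧ c.1 ≤ N ∧ p ∈ cell n (0, 0) c}

theorem row {x : ℝ≥0∞} {n : ℕ} {κ : ℝ≥0∞}
    (hκ : ∀ s s', s ≠ s' → κ ≤ Zx x (Tri n) (mid0 n s) (mid0 n s')) (N : ℕ) :
    κ * (x * κ) ^ (2 * N + 1) ≤
      Zx x (Ro n N) (port n (0, 0) (0, 0, false) .R) (port n (0, 0) ((N : ℤ), 0, true) .R) := by
  have ho : (((0, 0) : V).1 + ((0, 0) : V).2) % 2 = 0 := by simp
  induction N with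
  | zero =>
    have h1 := Zx_cell hκ ho (0, 0, false) (s := .R) (s' := .L) (by simp)
    have h2 := Zx_cell hκ ho (0, 0, true) (s := .L) (s' := .R) (by simp)
    have h3 : x * (Zx x (cell n (0, 0) (0, 0, false)) (port n (0, 0) (0, 0, false) .R)
        (port n (0, 0) (0, 0, false) .L) * Zx x (cell n (0, 0) (0, 0, true))
        (port n (0, 0) (0, 0, true) .L) (port n (0, 0) (0, 0, true) .R)) ≤
        Zx x (Ro n 0) (port n (0, 0) (0, 0, false) .R) (port n (0, 0) (((0 : ℕ) : ℤ), 0, true) .R) := by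
      apply Zx_concat (port_nbr ho (0, 0, false) .L)
      · exact cell_disj (by simp)
      · intro p hp
        exact ⟨(0, 0, false), rfl, le_rfl, by simp, hp⟩
      · intro p hp
        exact ⟨(0, 0, true), rfl, le_rfl, by simp, hp⟩
    refine le_trans ?_ h3
    calc κ * (x * κ) ^ (2 * 0 + 1) = x * (κ * κ) := by ring
      _ ≤ _ := by gcongr
  | succ N ih =>
    have h1 := Zx_cell hκ ho ((N : ℤ) + 1, 0, false) (s := .R) (s' := .L) (by simp)
    have h2 := Zx_cell hκ ho ((N : ℤ) + 1, 0, true) (s := .L) (s' := .R) (by simp)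
    have h3 : x * (Zx x (Ro n N) (port n (0, 0) (0, 0, false) .R)
        (port n (0, 0) ((N : ℤ), 0, true) .R) *
        Zx x (cell n (0, 0) ((N : ℤ) + 1, 0, false)) (port n (0, 0) ((N : ℤ) + 1, 0, false) .R)
          (port n (0, 0) ((N : ℤ) + 1, 0, false) .L)) ≤
        Zx x (Ro n N ∪ cell n (0, 0) ((N : ℤ) + 1, 0, false)) (port n (0, 0) (0, 0, false) .R)
          (port n (0, 0) ((N : ℤ) + 1, 0, false) .L) := by
      apply Zx_concat (port_nbr ho ((N : ℤ), 0, true) .R)
      · rw [Set.disjoint_left]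
        rintro p ⟨c, hc0, hc1, hc2, hp⟩ hp'
        have hne : c ≠ ((N : ℤ) + 1, 0, false) := by
          rintro rfl
          simp only at hc2
          omega
        exact Set.disjoint_left.1 (cell_disj hne) hp hp'
      · exact Set.subset_union_left
      · exact Set.subset_union_right
    have h4 : x * (Zx x (Ro n N ∪ cell n (0, 0) ((N : ℤ) + 1, 0, false))
        (port n (0, 0) (0, 0, false) .R) (port n (0, 0) ((N : ℤ) + 1, 0, false) .L) *
        Zx x (cell n (0, 0) ((N : ℤ) + 1, 0, true)) (port n (0, 0) ((N : ℤ) + 1, 0, true) .L)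
          (port n (0, 0) ((N : ℤ) + 1, 0, true) .R)) ≤
        Zx x (Ro n (N + 1)) (port n (0, 0) (0, 0, false) .R)
          (port n (0, 0) (((N + 1 : ℕ) : ℤ), 0, true) .R) := by
      push_cast
      apply Zx_concat (port_nbr ho ((N : ℤ) + 1, 0, false) .L)
      · rw [Set.disjoint_left]
        rintro p (⟨c, hc0, hc1, hc2, hp⟩ | hp) hp'
        · have hne : c ≠ ((N : ℤ) + 1, 0, true) := by
            rintro rfl
            simp only at hc2
            omega
          exact Set.disjoint_left.1 (cell_disj hne) hp hp'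
        · exact Set.disjoint_left.1 (cell_disj (by simp)) hp hp'
      · rintro p (⟨c, hc0, hc1, hc2, hp⟩ | hp)
        · exact ⟨c, hc0, hc1, by push_cast; omega, hp⟩
        · exact ⟨((N : ℤ) + 1, 0, false), rfl, by simp only; omega, by simp, hp⟩
      · intro p hp
        exact ⟨((N : ℤ) + 1, 0, true), rfl, by simp only; omega, by simp, hp⟩
    refine le_trans ?_ h4
    calc κ * (x * κ) ^ (2 * (N + 1) + 1)
        = x * ((x * ((κ * (x * κ) ^ (2 * N + 1)) * κ)) * κ) := by ring
      _ ≤ _ := by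
          gcongr
          refine le_trans ?_ h3
          gcongr

theorem Ro_sub {n N T : ℕ} (h : 2 * n + 1 ≤ T) : Ro n N ⊆ Strip T := by
  rintro p ⟨c, hc0, -, -, hp⟩
  obtain ⟨-, -, h3, h4, -, -⟩ := cell_coord hp
  have e : (tv n (0, 0) c).1 - (tv n (0, 0) c).2 = 0 := by
    unfold tv
    rw [hc0]
    simp
  rw [e] at h3 h4
  constructor
  · omega
  · omega

theorem traj_steps {D : Set V} {a b : V} {l : List V} (hl : l ∈ Traj D a b) :
    |b.1 - a.1| ≤ (l.length - 1 : ℕ) ∧ |b.2 - a.2| ≤ (l.length - 1 : ℕ) := by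
  obtain ⟨h1, h2, h3, h4, h5⟩ := hl
  have hne : l ≠ [] := by rintro rfl; simp at h1
  have hlen : 1 ≤ l.length := List.length_pos_iff.2 hne
  have hw : l ∈ Wk D a (l.length - 1) := ⟨by omega, h1, h3, h4, h5⟩
  have h6 := walk_box hw (l.length - 1) (by omega)
  have e : l[l.length - 1]'(by omega) = b := by
    rw [List.getLast?_eq_getElem?, List.getElem?_eq_getElem (by omega), Option.some.injEq] at h2
    exact h2
  rwa [e] at h6

theorem geom_tail {r : ℝ} (h0 : 0 ≤ r) (h1 : r < 1) (N M : ℕ) :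
    ∑ j ∈ Finset.Ico N M, r ^ j ≤ r ^ N / (1 - r) := by
  have h2 : 0 < 1 - r := by linarith
  rw [le_div_iff₀ h2]
  rcases le_total N M with h | h
  · have h3 := geom_sum_Ico_mul_neg r h
    rw [h3]
    have := pow_nonneg h0 M
    linarith
  · rw [Finset.Ico_eq_empty_of_le h]
    simp only [Finset.sum_empty, zero_mul]
    positivity

/-- long trajectories have small weight below the critical point of the strip -/
theorem Zx_small {T : ℕ} {x B ρ : ℝ} (hx : 0 < x) (hB : 0 < B) (hρ : 0 < ρ)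
    (hc : ∀ n : ℕ, (cs T n : ℝ) ≤ B * ρ ^ n) (hr : ρ * x < 1) {a b : V} (ha : a ∈ Strip T) {N : ℕ}
    (hN : (N : ℤ) ≤ |b.1 - a.1|) :
    Zx (ENNReal.ofReal x) (Strip T) a b ≤ ENNReal.ofReal (B * ((ρ * x) ^ N / (1 - ρ * x))) := by
  classical
  unfold Zx
  rw [ENNReal.tsum_eq_iSup_sum]
  apply iSup_le
  intro G
  obtain ⟨G', hG'⟩ : ∃ G' : Finset (List V), G' = G.image Subtype.val := ⟨_, rfl⟩
  have e1 : ∑ l ∈ G, ENNReal.ofReal x ^ (l.1.length - 1) =
      ENNReal.ofReal (∑ l ∈ G', x ^ (l.length - 1)) := by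
    rw [ENNReal.ofReal_sum_of_nonneg (fun _ _ => by positivity), hG',
      Finset.sum_image (fun u _ v _ h => Subtype.ext h)]
    apply Finset.sum_congr rfl
    intro l _
    rw [ENNReal.ofReal_pow hx.le]
  rw [e1]
  apply ENNReal.ofReal_le_ofReal
  have hmem : ∀ l ∈ G', l ∈ Traj (Strip T) a b := by
    intro l hl
    rw [hG', Finset.mem_image] at hl
    obtain ⟨u, _, rfl⟩ := hl
    exact u.2
  obtain ⟨M, hM⟩ : ∃ M : ℕ, ∀ l ∈ G', l.length - 1 < M := by
    refine ⟨(G'.sup (fun l => l.length - 1)) + 1, fun l hl => ?_⟩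
    have := Finset.le_sup (f := fun l : List V => l.length - 1) hl
    omega
  have hsub : G' ⊆ (Finset.Ico N M).biUnion (fun j => wf (Strip T) a j) := by
    intro l hl
    have hl' := hmem l hl
    have hlen : 1 ≤ l.length := by
      have := hl'.1
      match l, this with
      | y :: s, _ => simp
    rw [Finset.mem_biUnion]
    refine ⟨l.length - 1, ?_, ?_⟩
    · rw [Finset.mem_Ico]
      refine ⟨?_, hM l hl⟩
      have := (traj_steps hl').1
      exact_mod_cast hN.trans this
    · rw [mem_wf]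
      exact ⟨by omega, hl'.1, hl'.2.2.1, hl'.2.2.2.1, hl'.2.2.2.2⟩
  calc ∑ l ∈ G', x ^ (l.length - 1)
      ≤ ∑ l ∈ (Finset.Ico N M).biUnion (fun j => wf (Strip T) a j), x ^ (l.length - 1) :=
        Finset.sum_le_sum_of_subset_of_nonneg hsub (fun _ _ _ => by positivity)
    _ = ∑ j ∈ Finset.Ico N M, ∑ l ∈ wf (Strip T) a j, x ^ (l.length - 1) := by
        apply Finset.sum_biUnion
        intro i _ j _ hij
        rw [Function.onFun, Finset.disjoint_left]
        intro l hl hl'
        rw [mem_wf] at hl hl'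
        have := hl.1
        have := hl'.1
        omega
    _ = ∑ j ∈ Finset.Ico N M, (cw (Strip T) a j : ℝ) * x ^ j := by
        apply Finset.sum_congr rfl
        intro j _
        have : ∀ l ∈ wf (Strip T) a j, x ^ (l.length - 1) = x ^ j := by
          intro l hl
          rw [mem_wf] at hl
          rw [hl.1]
          rfl
        rw [Finset.sum_congr rfl this, Finset.sum_const, nsmul_eq_mul]
        rfl
    _ ≤ ∑ j ∈ Finset.Ico N M, B * (ρ * x) ^ j := by
        apply Finset.sum_le_sum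
        intro j _
        have h1 : (cw (Strip T) a j : ℝ) ≤ cs T j := by exact_mod_cast cw_le_cs ha
        calc (cw (Strip T) a j : ℝ) * x ^ j ≤ (B * ρ ^ j) * x ^ j :=
              mul_le_mul_of_nonneg_right (h1.trans (hc j)) (by positivity)
          _ = _ := by rw [mul_pow]; ring
    _ = B * ∑ j ∈ Finset.Ico N M, (ρ * x) ^ j := by rw [Finset.mul_sum]
    _ ≤ _ := mul_le_mul_of_nonneg_left (geom_tail (by positivity) hr N M) hB.le

/-- **lower bound of the connective constant of a strip** -/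
theorem mu_ge {n T : ℕ} (h : 2 * n + 1 ≤ T) {x κ : ℝ} (hx : 0 < x) (hκ0 : 0 < κ)
    (hκ : ∀ s s', s ≠ s' → ENNReal.ofReal κ ≤ Zx (ENNReal.ofReal x) (Tri n) (mid0 n s) (mid0 n s'))
    (hκx : 1 ≤ x * κ) {μ : ℝ} (hμ0 : 0 < μ)
    (hB : ∀ δ : ℝ, 0 < δ → ∃ B : ℝ, 0 < B ∧ ∀ n : ℕ, (cs T n : ℝ) ≤ B * (μ * Real.exp δ) ^ n) :
    1 / x ≤ μ := by
  by_contra hcon
  push Not at hcon
  rw [lt_div_iff₀ hx] at hcon
  obtain ⟨δ, hδ, hδ1⟩ : ∃ δ : ℝ, 0 < δ ∧ μ * Real.exp δ * x < 1 := by
    have h1 : Tendsto (fun δ : ℝ => μ * Real.exp δ * x) (𝓝[>] 0) (𝓝 (μ * Real.exp 0 * x)) := by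
      apply tendsto_nhdsWithin_of_tendsto_nhds
      apply Continuous.tendsto
      fun_prop
    rw [Real.exp_zero, mul_one] at h1
    obtain ⟨δ, hδ⟩ := ((h1.eventually (gt_mem_nhds hcon)).and self_mem_nhdsWithin).exists
    exact ⟨δ, hδ.2, hδ.1⟩
  obtain ⟨B, hB0, hc⟩ := hB δ hδ
  have hρ : 0 < μ * Real.exp δ := by positivity
  have hr0 : 0 < μ * Real.exp δ * x := by positivity
  have key : ∀ N : ℕ, κ ≤ B * ((μ * Real.exp δ * x) ^ N / (1 - μ * Real.exp δ * x)) := by
    intro N
    have h1 := row hκ N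
    have h2 := Zx_mono (x := ENNReal.ofReal x) (Ro_sub (N := N) h)
      (port n (0, 0) (0, 0, false) .R) (port n (0, 0) ((N : ℤ), 0, true) .R)
    have ha : port n (0, 0) (0, 0, false) .R ∈ Strip T := by
      unfold port push tv mid0 Strip
      simp only [Bool.false_eq_true, if_false, Set.mem_ofPred_eq]
      constructor
      · push_cast; ring_nf; omega
      · push_cast; ring_nf; omega
    have hN : (N : ℤ) ≤ |(port n (0, 0) ((N : ℤ), 0, true) .R).1 -
        (port n (0, 0) (0, 0, false) .R).1| := by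
      have e : (port n (0, 0) ((N : ℤ), 0, true) .R).1 -
        (port n (0, 0) (0, 0, false) .R).1 = (2 * (n : ℤ) + 1) * ((N : ℤ) + 1) := by
        unfold port push tv mid0
        simp only [Bool.false_eq_true, if_false, if_true]
        ring
      rw [e, abs_of_nonneg (by positivity)]
      nlinarith [Int.natCast_nonneg n, Int.natCast_nonneg N]
    have h3 := Zx_small hx hB0 hρ hc hδ1 (b := port n (0, 0) ((N : ℤ), 0, true) .R) ha hN
    have h4 : ENNReal.ofReal κ ≤ ENNReal.ofReal κ *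
        (ENNReal.ofReal x * ENNReal.ofReal κ) ^ (2 * N + 1) := by
      apply le_mul_of_one_le_right zero_le
      apply one_le_pow₀
      rw [← ENNReal.ofReal_mul hx.le, ENNReal.one_le_ofReal]
      exact hκx
    have h5 := (h4.trans h1).trans (h2.trans h3)
    rwa [ENNReal.ofReal_le_ofReal_iff] at h5
    have : 0 < 1 - μ * Real.exp δ * x := by linarith
    positivity
  have hlim : Tendsto (fun N : ℕ => B * ((μ * Real.exp δ * x) ^ N / (1 - μ * Real.exp δ * x))) atTop
      (𝓝 (B * (0 / (1 - μ * Real.exp δ * x)))) := by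
    apply Tendsto.const_mul
    apply Tendsto.div_const
    exact tendsto_pow_atTop_nhds_zero_of_lt_one hr0.le hδ1
  rw [zero_div, mul_zero] at hlim
  have := ge_of_tendsto' hlim key
  linarith

end Pool.Agent.X130.ST
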