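import Pool.Agent.X130.ST.E
import Pool.Agent.Y981.QB.Fin4

set_option autoImplicit false

/-! Trajectories with few steps across a triangle. -/

namespace Pool.Agent.X130.ST

open H978R2.Hex hiding Strip
open Pool.Agent.W818.TD hiding Up
open Pool.Agent.W832.HR hiding nbr_trans
open Filter Topology
open scoped ENNReal

theorem mid_odd (n : ℕ) (s : Sd) : ((mid0 n s).1 + (mid0 n s).2) % 2 = 1 := by
  cases s <;> simp only [mid0] <;> omega

theorem mid_far {n : ℕ} {s s' : Sd} (h : s ≠ s') :
    |(mid0 n s).2 - (mid0 n s').2| = n ∨ |(mid0 n s).1 - (mid0 n s').1| = 2 * n := by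
  cases s <;> cases s' <;> simp only [mid0] <;> first | exact absurd rfl h | skip
  · left; simp
  · right; rw [abs_of_nonpos (by omega)]; omega
  · left; simp
  · left; simp
  · right; rw [abs_of_nonneg (by omega)]; omega
  · left; simp

theorem mid_step {n : ℕ} {s s' : Sd} (h : s ≠ s') :
    (n : ℤ) ≤ |(mid0 n s').1 - (mid0 n s).1| ∨ (n : ℤ) ≤ |(mid0 n s').2 - (mid0 n s).2| := by
  rcases mid_far (n := n) h with h1 | h1
  · right
    rw [abs_sub_comm, h1]
  · left
    rw [abs_sub_comm, h1]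
    omega

theorem norm_pos_ge {n : ℕ} {d : V} (hd : (d.1 + d.2) % 2 = 0) (h : |d.2| = n ∨ |d.1| = 2 * n) :
    (n : ℝ) ≤ ‖pos (0, 0) - pos d‖ := by
  have e0 : pos ((0, 0) : V) = 0 := by
    unfold pos H978R2.Hex.ht
    simp
    rfl
  rw [e0, zero_sub, norm_neg]
  have hs : (1 : ℝ) ≤ Real.sqrt 3 := by
    rw [Real.one_le_sqrt]
    norm_num
  rcases h with h | h
  · have h1 := Complex.abs_im_le_norm (pos d)
    refine le_trans ?_ h1
    have e1 : (pos d).im = 3 / 2 * (d.2 : ℝ) := by
      unfold pos H978R2.Hex.ht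
      simp only [hd, sub_zero]
      push_cast
      ring
    rw [e1, abs_mul, abs_of_pos (by norm_num : (0 : ℝ) < 3 / 2)]
    have h2 : |(d.2 : ℝ)| = n := by exact_mod_cast h
    rw [h2]
    have : (0 : ℝ) ≤ n := Nat.cast_nonneg n
    linarith
  · have h1 := Complex.abs_re_le_norm (pos d)
    refine le_trans ?_ h1
    have e1 : (pos d).re = Real.sqrt 3 / 2 * (d.1 : ℝ) := rfl
    rw [e1, abs_mul, abs_of_pos (by positivity : (0 : ℝ) < Real.sqrt 3 / 2)]
    have h2 : |(d.1 : ℝ)| = 2 * n := by exact_mod_cast h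
    rw [h2]
    have : (0 : ℝ) ≤ n := Nat.cast_nonneg n
    nlinarith

/-- number of the trajectories with `k` steps between two sides of the triangle -/
theorem count_cross {n k : ℕ} {s s' : Sd} (h : s ≠ s') (D : Set V) (G : Finset (List V))
    (hG : ∀ l ∈ G, l ∈ Traj D (mid0 n s) (mid0 n s') ∧ l.length = k + 1) :
    G.card ≤ {ω ∈ saws k | (n : ℝ) ≤ Y981.QB.diam ω}.ncard := by
  have hfin : {ω ∈ saws k | (n : ℝ) ≤ Y981.QB.diam ω}.Finite :=
    (saws_finite k).subset fun ω hω => hω.1
  haveI := hfin.to_subtype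
  rw [← Set.ncard_coe_finset]
  obtain ⟨a, ha⟩ : ∃ a, a = mid0 n s := ⟨_, rfl⟩
  obtain ⟨b, hb⟩ : ∃ b, b = mid0 n s' := ⟨_, rfl⟩
  have hao : (a.1 + a.2) % 2 = 1 := by rw [ha]; exact mid_odd n s
  have hbo : (b.1 + b.2) % 2 = 1 := by rw [hb]; exact mid_odd n s'
  apply Set.ncard_le_ncard_of_injOn (fun l => fun i : Fin (k + 1) => a - l.getD i.1 (0, 0))
  · intro l hl
    obtain ⟨⟨h1, h2, h3, h4, h5⟩, h6⟩ := hG l hl
    rw [← ha] at h1
    rw [← hb] at h2
    have e0 : l.getD 0 (0, 0) = a := by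
      rw [List.getD_eq_getElem?_getD, ← List.head?_eq_getElem?, h1]
      rfl
    have ek : l.getD k (0, 0) = b := by
      rw [List.getLast?_eq_getElem?, h6] at h2
      rw [List.getD_eq_getElem?_getD]
      simp only [Nat.add_sub_cancel] at h2
      rw [h2]
      rfl
    refine ⟨⟨?_, ?_, ?_⟩, ?_⟩
    · simp only [Fin.val_zero]
      rw [e0, sub_self]
    · intro i j hij
      simp only [sub_right_inj] at hij
      have hi : i.1 < l.length := by have := i.2; omega
      have hj : j.1 < l.length := by have := j.2; omega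
      rw [List.getD_eq_getElem _ _ hi, List.getD_eq_getElem _ _ hj] at hij
      exact Fin.ext ((List.Nodup.getElem_inj_iff h3).1 hij)
    · intro i
      have hi : i.1 < l.length := by have := i.2; omega
      have hi' : i.1 + 1 < l.length := by have := i.2; omega
      simp only [Fin.val_castSucc, Fin.val_succ]
      rw [List.getD_eq_getElem _ _ hi, List.getD_eq_getElem _ _ hi']
      rw [List.isChain_iff_getElem] at h4
      exact nbr_iff.1 (nbr_refl hao (h4 i.1 hi'))
    · refine le_trans ?_ (Y981.QB.le_diam _ 0 (Fin.last k))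
      simp only [Fin.val_zero, Fin.val_last]
      rw [e0, ek, sub_self]
      apply norm_pos_ge
      · simp only [Prod.fst_sub, Prod.snd_sub]
        omega
      · have := mid_far (n := n) h
        rw [← ha, ← hb] at this
        simpa using this
  · intro l hl l' hl' hll
    have h1 := (hG l hl).2
    have h1' := (hG l' hl').2
    apply List.ext_getElem (by omega)
    intro i hi hi'
    have := congrFun hll ⟨i, by omega⟩
    simp only [sub_right_inj] at this
    rwa [List.getD_eq_getElem _ _ hi, List.getD_eq_getElem _ _ hi'] at this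

open Classical in
/-- **few steps** -/
theorem few {n m : ℕ} {s s' : Sd} (h : s ≠ s') {w : ℝ} (hw0 : 0 ≤ w)
    (hw : ∀ k, n ≤ k → k < m →
      ({ω ∈ saws k | (n : ℝ) ≤ Y981.QB.diam ω}.ncard : ℝ) * (mu0⁻¹) ^ k ≤ w) :
    (∑' l : Traj (Tri n) (mid0 n s) (mid0 n s'),
      if l.1.length - 1 < m then xc ^ (l.1.length - 1) else 0) ≤ ENNReal.ofReal (m * w) := by
  have hmu := mu0_pos
  rw [ENNReal.tsum_eq_iSup_sum]
  apply iSup_le
  intro G
  obtain ⟨G', hG'⟩ : ∃ G' : Finset (List V),
    G' = (G.image Subtype.val).filter (fun l => l.length - 1 < m) := ⟨_, rfl⟩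
  have e1 : (∑ l ∈ G, if l.1.length - 1 < m then xc ^ (l.1.length - 1) else 0) =
      ENNReal.ofReal (∑ l ∈ G', (mu0⁻¹) ^ (l.length - 1)) := by
    rw [ENNReal.ofReal_sum_of_nonneg (fun _ _ => by positivity), hG', Finset.sum_filter,
      Finset.sum_image (fun u _ v _ h => Subtype.ext h)]
    apply Finset.sum_congr rfl
    intro l _
    split_ifs
    · rw [ENNReal.ofReal_pow (by positivity), xc_eq]
    · rfl
  rw [e1]
  apply ENNReal.ofReal_le_ofReal
  have hmem : ∀ l ∈ G', l ∈ Traj (Tri n) (mid0 n s) (mid0 n s') ∧ l.length - 1 < m := by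
    intro l hl
    rw [hG', Finset.mem_filter, Finset.mem_image] at hl
    obtain ⟨⟨u, _, rfl⟩, hu⟩ := hl
    exact ⟨u.2, hu⟩
  have hlen : ∀ l ∈ G', l.length - 1 ∈ Finset.Ico n m := by
    intro l hl
    obtain ⟨h1, h2⟩ := hmem l hl
    rw [Finset.mem_Ico]
    refine ⟨?_, h2⟩
    obtain ⟨h3, h4⟩ := traj_steps h1
    rcases mid_step (n := n) h with h5 | h5
    · exact_mod_cast h5.trans h3
    · exact_mod_cast h5.trans h4
  rw [← Finset.sum_fiberwise_of_maps_to hlen]
  calc ∑ j ∈ Finset.Ico n m, ∑ l ∈ G' with l.length - 1 = j, (mu0⁻¹) ^ (l.length - 1)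
      ≤ ∑ _j ∈ Finset.Ico n m, w := by
        apply Finset.sum_le_sum
        intro j hj
        rw [Finset.mem_Ico] at hj
        have h1 : ∀ l ∈ G'.filter (fun l => l.length - 1 = j), (mu0⁻¹ : ℝ) ^ (l.length - 1) =
            (mu0⁻¹) ^ j := by
          intro l hl
          rw [Finset.mem_filter] at hl
          rw [hl.2]
        rw [Finset.sum_congr rfl h1, Finset.sum_const, nsmul_eq_mul]
        refine le_trans ?_ (hw j hj.1 hj.2)
        apply mul_le_mul_of_nonneg_right _ (by positivity)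
        have h2 := count_cross (k := j) h (Tri n) (G'.filter (fun l => l.length - 1 = j)) (by
          intro l hl
          rw [Finset.mem_filter] at hl
          have h3 := (hmem l hl.1).1
          refine ⟨h3, ?_⟩
          have h4 : 1 ≤ l.length := by
            have := h3.1
            match l, this with
            | y :: s, _ => simp
          omega)
        exact_mod_cast h2
    _ = ((m - n : ℕ) : ℝ) * w := by
        rw [Finset.sum_const, Nat.card_Ico, nsmul_eq_mul]
    _ ≤ m * w := by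
        apply mul_le_mul_of_nonneg_right _ hw0
        exact_mod_cast Nat.sub_le m n

/-- **the weight of a triangle above the critical fugacity** -/
theorem block {n m : ℕ} {s s' : Sd} (h : s ≠ s') {w : ℝ} (hw0 : 0 ≤ w)
    (hw : ∀ k, n ≤ k → k < m →
      ({ω ∈ saws k | (n : ℝ) ≤ Y981.QB.diam ω}.ncard : ℝ) * (mu0⁻¹) ^ k ≤ w)
    (hmw : m * w ≤ 1 / (256 * ((n : ℝ) + 1) ^ 3)) {t : ℝ} (ht : 0 ≤ t) :
    ENNReal.ofReal (Real.exp (t * m) * (1 / (256 * ((n : ℝ) + 1) ^ 3))) ≤
      Zx (ENNReal.ofReal (mu0⁻¹ * Real.exp t)) (Tri n) (mid0 n s) (mid0 n s') := by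
  classical
  have hmu := mu0_pos
  have h1 := std_block (n := n) h
  have h2 := few h hw0 hw
  have e1 : Z (Tri n) (mid0 n s) (mid0 n s') =
      (∑' l : Traj (Tri n) (mid0 n s) (mid0 n s'),
        if l.1.length - 1 < m then xc ^ (l.1.length - 1) else 0) +
      (∑' l : Traj (Tri n) (mid0 n s) (mid0 n s'),
        if l.1.length - 1 < m then 0 else xc ^ (l.1.length - 1)) := by
    rw [← ENNReal.tsum_add]
    unfold Z
    apply tsum_congr
    intro l
    split_ifs <;> simp
  obtain ⟨P, hP⟩ : ∃ P, P = ∑' l : Traj (Tri n) (mid0 n s) (mid0 n s'),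
        if l.1.length - 1 < m then 0 else xc ^ (l.1.length - 1) := ⟨_, rfl⟩
  rw [e1, ← hP] at h1
  have h3 : ENNReal.ofReal (1 / (256 * ((n : ℝ) + 1) ^ 3)) ≤ P := by
    have h4 : kap n ≤ ENNReal.ofReal (1 / (256 * ((n : ℝ) + 1) ^ 3)) + P :=
      h1.trans (add_le_add (h2.trans (ENNReal.ofReal_le_ofReal hmw)) le_rfl)
    have h5 : kap n = ENNReal.ofReal (1 / (256 * ((n : ℝ) + 1) ^ 3)) +
        ENNReal.ofReal (1 / (256 * ((n : ℝ) + 1) ^ 3)) := by
      unfold kap
      rw [← ENNReal.ofReal_add (by positivity) (by positivity)]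
      congr 1
      field_simp
      norm_num
    rw [h5] at h4
    exact (ENNReal.add_le_add_iff_left ENNReal.ofReal_ne_top).1 h4
  rw [ENNReal.ofReal_mul (Real.exp_pos _).le]
  refine (mul_le_mul' le_rfl h3).trans ?_
  rw [hP, ← ENNReal.tsum_mul_left]
  unfold Zx
  apply ENNReal.tsum_le_tsum
  intro l
  split_ifs with hl
  · rw [mul_zero]
    exact zero_le
  · rw [xc_eq, ← ENNReal.ofReal_pow (by positivity), ← ENNReal.ofReal_pow (by positivity),
      ← ENNReal.ofReal_mul (Real.exp_pos _).le]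
    apply ENNReal.ofReal_le_ofReal
    rw [mul_pow, mul_comm]
    apply mul_le_mul_of_nonneg_left _ (by positivity)
    rw [← Real.exp_nat_mul]
    apply Real.exp_le_exp.2
    rw [mul_comm]
    apply mul_le_mul_of_nonneg_right _ ht
    push Not at hl
    exact_mod_cast hl

end Pool.Agent.X130.ST
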