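import Pool.Agent.X130.ST.G

set_option autoImplicit false

/-! Walks of a strip which travel a given distance along the strip: upper bound. -/

namespace Pool.Agent.X130.ST

open H978R2.Hex hiding Strip
open Pool.Agent.W818.TD hiding Up
open Pool.Agent.W832.HR hiding nbr_trans
open Filter Topology
open scoped ENNReal

/-- a walk which is not contained in the box -/
theorem cover' {T m n : ℕ} (hT : 1 ≤ T) {l : List V}
    (hl : l ∈ Wk (Strip T) (1, 0) n)
    (hex : ∃ i, ∃ hi : i < l.length, ¬ Dm T (.I m) (.I m) (l[i]'hi)) :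
    ∃ w ∈ Af T m, w.length ≤ n + 2 ∧
      ∃ q ∈ Wk Set.univ (w.headD (0, 0)) (n - (w.length - 2)), l = path w ++ q := by
  classical
  obtain ⟨h1, h2, h3, h4, h5⟩ := hl
  have hbox : ∀ k, (∀ i (hi : i < l.length), i < k → Dm T (.I m) (.I m) (l[i]'hi)) →
      (l.take k).length ≤ (box T m).card := by
    intro k hk
    have hnd : (l.take k).Nodup := h3.sublist (List.take_sublist _ _)
    rw [← List.toFinset_card_of_nodup hnd]
    apply Finset.card_le_card
    intro v hv
    rw [List.mem_toFinset, List.mem_iff_getElem] at hv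
    obtain ⟨i, hi, rfl⟩ := hv
    rw [List.length_take] at hi
    rw [List.getElem_take]
    exact mem_box (hk i (by omega) (by omega))
  obtain ⟨i, hi⟩ : ∃ i, i = Nat.find hex := ⟨_, rfl⟩
  obtain ⟨hil, hiD⟩ := Nat.find_spec hex
  rw [← hi] at hil
  simp only [← hi] at hiD
  have hmin : ∀ j (hj : j < l.length), j < i → Dm T (.I m) (.I m) (l[j]'hj) := by
    intro j hj hji
    have := Nat.find_min hex (hi ▸ hji)
    push Not at this
    exact this hj
  have hl0 : l[0]'(by omega) = (1, 0) := by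
    have := h2
    rw [List.head?_eq_getElem?, List.getElem?_eq_getElem (by omega), Option.some.injEq] at this
    exact this
  have hi1 : 1 ≤ i := by
    by_contra hcon
    have h0 : i = 0 := by omega
    apply hiD
    simp only [h0, hl0]
    exact base_Dm hT _ _
  obtain ⟨z, hz⟩ : ∃ z, z = l[i]'hil := ⟨_, rfl⟩
  obtain ⟨v, hv⟩ : ∃ v, v = l[i - 1]'(by omega) := ⟨_, rfl⟩
  rw [← hz] at hiD
  have hzS : z ∈ Strip T := h5 z (by rw [hz]; exact List.getElem_mem _)
  have hadj : Adj v z := by
    rw [← nbr_iff, hv, hz]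
    rw [List.isChain_iff_getElem] at h4
    have := h4 (i - 1) (by omega)
    have e : i - 1 + 1 = i := by omega
    simp only [e] at this
    exact this
  have hT0 : ¬ Dm T (.I m) (.I m) (0, 0) := by
    intro h
    have := h.1
    simp at this
  have hz0 : z ≠ (0, 0) := by
    rintro h
    rw [h] at hzS
    have := hzS.1
    simp at this
  have hp : l.take i ∈ Traj {p | Dm T (.I m) (.I m) p} (1, 0) v := by
    refine ⟨?_, ?_, h3.sublist (List.take_sublist _ _), h4.take _, ?_⟩
    · rw [List.head?_take, if_neg (by omega)]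
      exact h2
    · rw [List.getLast?_eq_getElem?, List.length_take, min_eq_left (by omega),
        List.getElem?_take_of_lt (by omega), List.getElem?_eq_getElem (by omega), hv]
    · intro p hp
      rw [List.mem_iff_getElem] at hp
      obtain ⟨j, hj, rfl⟩ := hp
      rw [List.length_take] at hj
      rw [List.getElem_take]
      exact hmin j (by omega) (by omega)
  obtain ⟨b1, b2⟩ := back_mem (D := Dm T (.I m) (.I m)) hT0 hadj hz0 hiD hp
  have hlen : (back z (l.take i)).length = i + 2 := by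
    unfold back
    simp only [List.length_cons, List.length_append, List.length_reverse, List.length_take,
      List.length_nil]
    omega
  have hLW : back z (l.take i) ∈ LW (Dm T (.I m) (.I m)) := ⟨b1, by rw [b2]; exact hiD⟩
  refine ⟨back z (l.take i), ?_, by omega, l.drop i, ?_, ?_⟩
  · rw [mem_Af, mem_LS]
    refine ⟨⟨b1, ?_, by rw [b2]; exact hiD⟩, ?_⟩
    · rw [hlen]
      have := hbox i (fun j hj hji => hmin j hj hji)
      rw [List.length_take] at this
      omega
    · have c := LW_cls hT hLW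
      rw [b2] at c
      have hz1 := hzS.1
      have hz2 := hzS.2
      simp only [ku] at c
      omega
  · rw [b2, hlen]
    refine ⟨by rw [List.length_drop]; omega, ?_, h3.sublist (List.drop_sublist _ _), h4.drop _,
      fun _ _ => Set.mem_univ _⟩
    rw [List.head?_drop, List.getElem?_eq_getElem hil, hz]
  · rw [path_back, List.take_append_drop]

theorem exit_count' {T m n : ℕ} (hT : 1 ≤ T) {M : ℝ}
    (hM : ∀ k ≤ n, (F k : ℝ) * (mu0⁻¹) ^ k ≤ M) (G : Finset (List V))
    (hG : ∀ l ∈ G, l ∈ Wk (Strip T) (1, 0) n ∧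
      ∃ i, ∃ hi : i < l.length, ¬ Dm T (.I m) (.I m) (l[i]'hi)) :
    (G.card : ℝ) * (mu0⁻¹) ^ n ≤
      M * (mq (Dm T (.I m) (.I m)) 1 + mq (Dm T (.I m) (.I m)) (-1)) := by
  classical
  have hmu := mu0_pos
  have hM0 : 0 ≤ M := le_trans (by positivity) (hM 0 (Nat.zero_le _))
  set A := (Af T m).filter (fun w => w.length ≤ n + 2) with hA
  have h1 : G.card ≤ ∑ w ∈ A, F (n - (w.length - 2)) := by
    have hsub : G ⊆ A.biUnion
        (fun w => (wf Set.univ (w.headD (0, 0)) (n - (w.length - 2))).image (path w ++ ·)) := by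
      intro l hl
      obtain ⟨w, hw, hwl, q, hq, rfl⟩ := cover' hT (hG l hl).1 (hG l hl).2
      rw [Finset.mem_biUnion]
      refine ⟨w, ?_, ?_⟩
      · rw [hA, Finset.mem_filter]
        exact ⟨hw, hwl⟩
      · rw [Finset.mem_image]
        exact ⟨q, mem_wf.2 hq, rfl⟩
    refine (Finset.card_le_card hsub).trans (Finset.card_biUnion_le.trans ?_)
    apply Finset.sum_le_sum
    intro w _
    exact Finset.card_image_le.trans (cw_le_F _ _ _)
  have h2 : (G.card : ℝ) * (mu0⁻¹) ^ n ≤ ∑ w ∈ A, M * wt w := by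
    calc (G.card : ℝ) * (mu0⁻¹) ^ n
        ≤ (∑ w ∈ A, (F (n - (w.length - 2)) : ℝ)) * (mu0⁻¹) ^ n := by
          apply mul_le_mul_of_nonneg_right _ (by positivity)
          exact_mod_cast h1
      _ = ∑ w ∈ A, (F (n - (w.length - 2)) : ℝ) * (mu0⁻¹) ^ n := Finset.sum_mul _ _ _
      _ ≤ _ := by
          apply Finset.sum_le_sum
          intro w hw
          rw [hA, Finset.mem_filter, mem_Af, mem_LS] at hw
          have hlen := val_len hw.1.1.1
          have e : (mu0⁻¹ : ℝ) ^ n = (mu0⁻¹) ^ (n - (w.length - 2)) * wt w := by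
            unfold wt
            rw [← pow_add]
            congr 1
            omega
          rw [e, ← mul_assoc]
          apply mul_le_mul_of_nonneg_right _ (wt_nonneg w)
          exact hM _ (Nat.sub_le _ _)
  refine h2.trans ?_
  rw [← Finset.mul_sum]
  apply mul_le_mul_of_nonneg_left _ hM0
  refine le_trans ?_ (ms_Af hT)
  exact ms_mono (Finset.filter_subset _ _)

/-- the last row of a list -/
def lr (l : List V) : ℤ := (l.getLast?.getD (0, 0)).2

open Classical in
/-- the walks of `D` from `a` with `n` steps which end at distance at least `k` along the strip -/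
noncomputable def rf (D : Set V) (a : V) (n : ℕ) (k : ℕ) : Finset (List V) :=
  (wf D a n).filter (fun l => (k : ℤ) ≤ |lr l - a.2|)

theorem mem_rf {D : Set V} {a : V} {n k : ℕ} {l : List V} :
    l ∈ rf D a n k ↔ l ∈ Wk D a n ∧ (k : ℤ) ≤ |lr l - a.2| := by
  unfold rf
  rw [Finset.mem_filter, mem_wf]

theorem lr_eq {D : Set V} {a : V} {n : ℕ} {l : List V} (hl : l ∈ Wk D a n) :
    ∃ h : n < l.length, lr l = (l[n]'h).2 := by
  have h1 := hl.1
  refine ⟨by omega, ?_⟩
  unfold lr
  have e : l.length - 1 = n := by omega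
  rw [List.getLast?_eq_getElem?, e, List.getElem?_eq_getElem (by omega)]
  rfl

/-- bound of the number of walks of the lattice -/
theorem F_quasi : ∃ K : ℝ, 0 ≤ K ∧ ∀ n : ℕ, ∀ k ≤ n,
    (F k : ℝ) * (mu0⁻¹) ^ k ≤ Real.exp (K * Real.log (n + 2) ^ 2) := by
  obtain ⟨K, hK, hS⟩ := saws_upper
  have hmu := mu0_pos
  obtain ⟨A, hA⟩ : ∃ A : ℝ, A = |Real.log ((F 0 : ℝ) * (mu0⁻¹) ^ 0 + (F 1 : ℝ) * (mu0⁻¹) ^ 1 + 1)| :=
    ⟨_, rfl⟩
  have hA0 : 0 ≤ A := by rw [hA]; exact abs_nonneg _
  refine ⟨K + 4 * A, by positivity, ?_⟩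
  intro n k hk
  have hn2 : (2 : ℝ) ≤ n + 2 := by
    have : (0 : ℝ) ≤ n := Nat.cast_nonneg n
    linarith
  have hl2 : Real.log 2 ≤ Real.log (n + 2) := Real.log_le_log (by norm_num) hn2
  have hlog2 := Real.log_two_gt_d9
  have hsq : (1 : ℝ) / 4 ≤ Real.log (n + 2) ^ 2 := by nlinarith
  rcases Nat.lt_or_ge k 2 with h2 | h2
  · have h3 : (F k : ℝ) * (mu0⁻¹) ^ k ≤ (F 0 : ℝ) * (mu0⁻¹) ^ 0 + (F 1 : ℝ) * (mu0⁻¹) ^ 1 + 1 := by
      have hp0 : (0 : ℝ) ≤ (F 0 : ℝ) * (mu0⁻¹) ^ 0 := by positivity
      have hp1 : (0 : ℝ) ≤ (F 1 : ℝ) * (mu0⁻¹) ^ 1 := by positivity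
      interval_cases k
      · linarith
      · linarith
    have hpos : 0 < (F 0 : ℝ) * (mu0⁻¹) ^ 0 + (F 1 : ℝ) * (mu0⁻¹) ^ 1 + 1 := by positivity
    refine h3.trans ?_
    rw [← Real.log_le_iff_le_exp hpos]
    have h4 := le_abs_self (Real.log ((F 0 : ℝ) * (mu0⁻¹) ^ 0 + (F 1 : ℝ) * (mu0⁻¹) ^ 1 + 1))
    rw [← hA] at h4
    nlinarith
  · have h3 : (F k : ℝ) * (mu0⁻¹) ^ k ≤ Real.exp (K * Real.log k ^ 2) := by
      refine le_trans ?_ (hS k h2)
      apply mul_le_mul_of_nonneg_right _ (by positivity)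
      exact_mod_cast F_le_saws k
    refine h3.trans ?_
    apply Real.exp_le_exp.2
    have hk0 : (0 : ℝ) < k := by exact_mod_cast (by omega : 0 < k)
    have hlk : Real.log k ≤ Real.log (n + 2) := by
      apply Real.log_le_log hk0
      have : (k : ℝ) ≤ n := by exact_mod_cast hk
      linarith
    have hlk0 : 0 ≤ Real.log k := Real.log_nonneg (by exact_mod_cast (by omega : 1 ≤ k))
    have h5 : Real.log k ^ 2 ≤ Real.log (n + 2) ^ 2 := pow_le_pow_left₀ hlk0 hlk 2
    nlinarith

/-- walks from the boundary vertex: both bounds -/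
theorem bd_both : ∃ K : ℝ, 0 ≤ K ∧ ∀ T : ℕ, 1 ≤ T → ∀ n k : ℕ,
    ((rf (Strip T) (1, 0) n k).card : ℝ) * (mu0⁻¹) ^ n ≤
      28 * Real.exp (K * Real.log (n + 2) ^ 2) *
        Real.exp (-(n / (24 * (T : ℝ) ^ 2)) - k / (3 * T)) := by
  obtain ⟨K, hK, hF⟩ := F_quasi
  refine ⟨K, hK, ?_⟩
  intro T hT n k
  have hmu := mu0_pos
  have hT0 : (0 : ℝ) < T := by exact_mod_cast hT
  have hT1 : (1 : ℝ) ≤ T := by exact_mod_cast hT
  obtain ⟨M, hMdef⟩ : ∃ M : ℝ, M = Real.exp (K * Real.log (n + 2) ^ 2) := ⟨_, rfl⟩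
  have hM0 : 0 < M := by rw [hMdef]; exact Real.exp_pos _
  have hM := hF n
  rw [← hMdef] at hM ⊢
  obtain ⟨X, hX⟩ : ∃ X : ℝ, X = ((rf (Strip T) (1, 0) n k).card : ℝ) * (mu0⁻¹) ^ n := ⟨_, rfl⟩
  have hX0 : 0 ≤ X := by rw [hX]; positivity
  rw [← hX]
  -- the number of steps
  have hA : X ≤ 28 * M * Real.exp (-(n / (8 * (T : ℝ) ^ 2))) := by
    have hXc : X ≤ (cw (Strip T) (1, 0) n : ℝ) * (mu0⁻¹) ^ n := by
      rw [hX]
      apply mul_le_mul_of_nonneg_right _ (by positivity)
      exact_mod_cast Finset.card_filter_le _ _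
    have h54 : 8 * Real.exp (5 / 4) ≤ 28 := by
      have h1 := Real.exp_one_lt_d9
      have h2 : Real.exp (5 / 4) = Real.exp 1 * Real.exp (1 / 4) := by
        rw [← Real.exp_add]
        norm_num
      have h3 : Real.exp (1 / 4) ≤ 1.2857 := by
        have h4 : Real.exp (1 / 4) ^ 4 = Real.exp 1 := by
          rw [← Real.exp_nat_mul]
          norm_num
        by_contra hcon
        push Not at hcon
        have h5 : (1.2857 : ℝ) ^ 4 < Real.exp (1 / 4) ^ 4 :=
          pow_lt_pow_left₀ hcon (by norm_num) (by norm_num)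
        rw [h4] at h5
        norm_num at h5
        linarith
      rw [h2]
      have := Real.exp_pos (1 / 4)
      nlinarith
    refine hXc.trans ?_
    have key : (cw (Strip T) (1, 0) n : ℝ) * (mu0⁻¹) ^ n ≤
        M * (8 * Real.exp (5 / 4) * Real.exp (-(n / (8 * (T : ℝ) ^ 2)))) := by
      rcases Nat.lt_or_ge n (2 * T) with hn | hn
      · have h1 : (cw (Strip T) (1, 0) n : ℝ) ≤ F n := by exact_mod_cast cw_le_F _ _ n
        have h2 := hM n le_rfl
        have h3 : (1 : ℝ) ≤ 8 * Real.exp (5 / 4) * Real.exp (-(n / (8 * (T : ℝ) ^ 2))) := by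
          have h4 : (n : ℝ) / (8 * (T : ℝ) ^ 2) ≤ 1 / 4 := by
            rw [div_le_iff₀ (by positivity)]
            have : (n : ℝ) ≤ 2 * T := by exact_mod_cast hn.le
            nlinarith
          rw [mul_assoc, ← Real.exp_add]
          have h5 := Real.add_one_le_exp (5 / 4 + -((n : ℝ) / (8 * (T : ℝ) ^ 2)))
          linarith
        calc (cw (Strip T) (1, 0) n : ℝ) * (mu0⁻¹) ^ n ≤ F n * (mu0⁻¹) ^ n :=
              mul_le_mul_of_nonneg_right h1 (by positivity)
          _ ≤ M := h2
          _ ≤ _ := le_mul_of_one_le_right hM0.le h3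
      · obtain ⟨N, hN⟩ : ∃ N, N = n / (2 * T) := ⟨_, rfl⟩
        have hN1 : 1 ≤ N := by
          rw [hN]
          exact (Nat.one_le_div_iff (by omega)).2 hn
        obtain ⟨m, hm⟩ : ∃ m, m = (N - 1) / 2 := ⟨_, rfl⟩
        have hmN : 2 * m + 1 ≤ N := by omega
        have hNm : N ≤ 2 * m + 2 := by omega
        have hlt : (2 * m + 1) * (2 * T) < n + 1 := by
          have h1 : (2 * m + 1) * (2 * T) ≤ N * (2 * T) := Nat.mul_le_mul_right _ hmN
          have h2 : N * (2 * T) ≤ n := by rw [hN]; exact Nat.div_mul_le_self _ _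
          omega
        have h1 := exit_count hT hlt hM
        have h2 := wall_total (m := m) hT
        have h3 : (3 / 5 : ℝ) ^ (m / T) ≤
            Real.exp (5 / 4) * Real.exp (-(n / (8 * (T : ℝ) ^ 2))) := by
          refine (pow_exp _).trans ?_
          rw [← Real.exp_add]
          apply Real.exp_le_exp.2
          have h4 : (m : ℝ) < (T : ℝ) * ((m / T : ℕ) + 1) := by
            have := Nat.lt_mul_div_succ m (show 0 < T by omega)
            exact_mod_cast this
          have h5 : (n : ℝ) < (2 * T) * ((N : ℝ) + 1) := by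
            have := Nat.lt_mul_div_succ n (show 0 < 2 * T by omega)
            rw [← hN] at this
            exact_mod_cast this
          have h6 : (N : ℝ) ≤ 2 * m + 2 := by exact_mod_cast hNm
          have h7 : (n : ℝ) < 2 * T * (2 * (T * ((m / T : ℕ) + 1)) + 3) := by
            nlinarith
          have h8 : (n : ℝ) / (8 * (T : ℝ) ^ 2) ≤ ((m / T : ℕ) : ℝ) / 2 + 5 / 4 := by
            rw [div_le_iff₀ (by positivity)]
            nlinarith
          linarith
        calc (cw (Strip T) (1, 0) n : ℝ) * (mu0⁻¹) ^ n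
            ≤ M * (mq (Dm T (.I m) (.I m)) 1 + mq (Dm T (.I m) (.I m)) (-1)) := h1
          _ ≤ M * (8 * (3 / 5) ^ (m / T)) :=
              mul_le_mul_of_nonneg_left h2 hM0.le
          _ ≤ _ := by
              apply mul_le_mul_of_nonneg_left _ hM0.le
              rw [mul_assoc]
              exact mul_le_mul_of_nonneg_left h3 (by norm_num)
    refine key.trans ?_
    have he := Real.exp_pos (-((n : ℝ) / (8 * (T : ℝ) ^ 2)))
    calc M * (8 * Real.exp (5 / 4) * Real.exp (-(n / (8 * (T : ℝ) ^ 2))))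
        ≤ M * (28 * Real.exp (-(n / (8 * (T : ℝ) ^ 2)))) := by gcongr
      _ = _ := by ring
  -- the distance
  have hB : X ≤ 28 * M * Real.exp (-(k / (2 * T))) := by
    rcases Nat.eq_zero_or_pos k with hk | hk
    · refine hA.trans ?_
      apply mul_le_mul_of_nonneg_left _ (by positivity)
      apply Real.exp_le_exp.2
      rw [hk]
      simp only [Nat.cast_zero, zero_div, neg_zero, Left.neg_nonpos_iff]
      positivity
    · have h1 := exit_count' (m := k - 1) hT hM (rf (Strip T) (1, 0) n k) (by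
        intro l hl
        rw [mem_rf] at hl
        refine ⟨hl.1, n, ?_⟩
        obtain ⟨hlen, hlr⟩ := lr_eq hl.1
        refine ⟨hlen, ?_⟩
        intro hD
        obtain ⟨-, -, d3, d4⟩ := hD
        simp only [Up] at d3
        simp only [Lo] at d4
        have h2 := hl.1.2.2.2.2 _ (List.getElem_mem hlen)
        have h3 := h2.1
        have h4 := hl.2
        rw [hlr] at h4
        simp only [sub_zero] at h4
        push_cast [Nat.cast_sub hk] at d3 d4
        rcases abs_cases ((l[n]'hlen).2) with ⟨h5, _⟩ | ⟨h5, _⟩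
        · omega
        · omega)
      rw [← hX] at h1
      have h2 := wall_total (m := k - 1) hT
      have h3 : (3 / 5 : ℝ) ^ ((k - 1) / T) ≤
          Real.exp (1 / 2) * Real.exp (-(k / (2 * T))) := by
        refine (pow_exp _).trans ?_
        rw [← Real.exp_add]
        apply Real.exp_le_exp.2
        have h4 : k ≤ T * ((k - 1) / T + 1) := by
          have := Nat.lt_mul_div_succ (k - 1) (show 0 < T by omega)
          omega
        have h5 : (k : ℝ) ≤ T * (((k - 1) / T : ℕ) + 1) := by exact_mod_cast h4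
        have h6 : (k : ℝ) / (2 * T) ≤ (((k - 1) / T : ℕ) : ℝ) / 2 + 1 / 2 := by
          rw [div_le_iff₀ (by positivity)]
          nlinarith
        linarith
      have h7 : 8 * Real.exp (1 / 2) ≤ 28 := by
        have := exp_half
        linarith
      calc X ≤ M * (mq (Dm T (.I (k - 1)) (.I (k - 1))) 1 +
            mq (Dm T (.I (k - 1)) (.I (k - 1))) (-1)) := h1
        _ ≤ M * (8 * (3 / 5) ^ ((k - 1) / T)) := mul_le_mul_of_nonneg_left h2 hM0.le
        _ ≤ M * (8 * (Real.exp (1 / 2) * Real.exp (-(k / (2 * T))))) := by gcongr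
        _ = M * ((8 * Real.exp (1 / 2)) * Real.exp (-(k / (2 * T)))) := by ring
        _ ≤ M * (28 * Real.exp (-(k / (2 * T)))) := by gcongr
        _ = _ := by ring
  -- interpolation
  have h3 : X ^ 3 ≤ (28 * M * Real.exp (-(n / (24 * (T : ℝ) ^ 2)) - k / (3 * T))) ^ 3 := by
    calc X ^ 3 = X * (X * X) := by ring
      _ ≤ (28 * M * Real.exp (-(n / (8 * (T : ℝ) ^ 2)))) *
          ((28 * M * Real.exp (-(k / (2 * T)))) * (28 * M * Real.exp (-(k / (2 * T))))) := by
          gcongr
      _ = (28 * M) ^ 3 * (Real.exp (-(n / (8 * (T : ℝ) ^ 2))) *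
          (Real.exp (-(k / (2 * T))) * Real.exp (-(k / (2 * T))))) := by ring
      _ = (28 * M) ^ 3 * Real.exp (-(n / (24 * (T : ℝ) ^ 2)) - k / (3 * T)) ^ 3 := by
          rw [← Real.exp_add, ← Real.exp_add, ← Real.exp_nat_mul]
          congr 2
          field_simp
          ring
      _ = _ := by ring
  exact le_of_pow_le_pow_left₀ (by norm_num) (by positivity) h3

end Pool.Agent.X130.ST
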