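import Pool.Agent.X130.ST.H

set_option autoImplicit false

/-! The critical partition function of the walks along a strip. -/

namespace Pool.Agent.X130.ST

open H978R2.Hex hiding Strip
open Pool.Agent.W818.TD hiding Up
open Pool.Agent.W832.HR hiding nbr_trans
open Filter Topology
open scoped ENNReal

/-- the walks of the strip with `n` steps from row `0` to row `N` -/
def GW (T N n : ℕ) : Set (List V) :=
  {l | l.length = n + 1 ∧ (∃ x : ℤ, l.head? = some (x, 0)) ∧
    (∃ x : ℤ, l.getLast? = some (x, (N : ℤ))) ∧ l.Nodup ∧ l.IsChain Nbr ∧ ∀ p ∈ l, p ∈ Strip T}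

theorem GW_finite (T N n : ℕ) : (GW T N n).Finite := by
  apply ((Finset.Icc 1 (2 * T)).biUnion
    (fun h => wf (Strip T) ((h : ℤ), 0) n)).finite_toSet.subset
  rintro l ⟨h1, ⟨x, h2⟩, h3, h4, h5, h6⟩
  have hx : ((x, 0) : V) ∈ Strip T := h6 _ (List.mem_of_head? h2)
  obtain ⟨a1, a2⟩ := hx
  simp only [sub_zero] at a1 a2
  rw [Finset.mem_coe, Finset.mem_biUnion]
  refine ⟨x.toNat, Finset.mem_Icc.2 ⟨by omega, by omega⟩, ?_⟩
  rw [mem_wf]
  have e : ((x.toNat : ℕ) : ℤ) = x := by omega
  rw [e]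
  exact ⟨h1, h2, h4, h5, h6⟩

noncomputable def gf (T N n : ℕ) : Finset (List V) := (GW_finite T N n).toFinset

theorem mem_gf {T N n : ℕ} {l : List V} : l ∈ gf T N n ↔ l ∈ GW T N n := by
  unfold gf
  rw [Set.Finite.mem_toFinset]

noncomputable def g (T N n : ℕ) : ℕ := (gf T N n).card

theorem ncard_GW (T N n : ℕ) : (GW T N n).ncard = g T N n := by
  unfold g gf
  rw [Set.ncard_eq_toFinset_card _ (GW_finite T N n)]

theorem GW_mem {T N n : ℕ} {l : List V} (hl : l ∈ GW T N n) : ∃ x : ℤ, l ∈ Wk (Strip T) (x, 0) n := by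
  obtain ⟨h1, ⟨x, h2⟩, h3, h4, h5, h6⟩ := hl
  exact ⟨x, h1, h2, h4, h5, h6⟩

/-! ### translation -/

theorem rf_trans {D D' : Set V} {a c : V} {n k : ℕ} (hc : (c.1 + c.2) % 2 = 0)
    (hD : ∀ p ∈ D, p + c ∈ D') : (rf D a n k).card ≤ (rf D' (a + c) n k).card := by
  apply Finset.card_le_card_of_injOn (List.map (fun p => p + c))
  · intro l hl
    rw [Finset.mem_coe, mem_rf] at hl
    rw [Finset.mem_coe, mem_rf]
    have hmem : l.map (fun p => p + c) ∈ Wk D' (a + c) n := by
      obtain ⟨⟨h1, h2, h3, h4, h5⟩, -⟩ := hl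
      refine ⟨by rw [List.length_map]; exact h1, ?_, h3.map (fun x y h => by simpa using h), ?_, ?_⟩
      · rw [List.head?_map, h2]
        rfl
      · rw [List.isChain_map]
        exact h4.imp fun {x y} hxy => nbr_trans hc hxy
      · intro p hp
        rw [List.mem_map] at hp
        obtain ⟨q, hq, rfl⟩ := hp
        exact hD q (h5 q hq)
    refine ⟨hmem, ?_⟩
    obtain ⟨e1, e2⟩ := lr_eq hl.1
    obtain ⟨e3, e4⟩ := lr_eq hmem
    rw [e4, List.getElem_map]
    have := hl.2
    rw [e2] at this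
    simp only [Prod.snd_add]
    rw [show (l[n]'e1).2 + c.2 - (a.2 + c.2) = (l[n]'e1).2 - a.2 by ring]
    exact this
  · intro l _ l' _ h
    exact List.map_injective_iff.2 (fun x y h => by simpa using h) h

theorem half_rf {T k i : ℕ} {u : V} (hu : u ∈ Strip T) :
    (rf (Hu T u) u i k).card ≤
      (rf (Strip T) (1, 0) i k).card + (rf (Strip T) (1, 0) (i + 1) k).card := by
  obtain ⟨h1, h2⟩ := hu
  rcases Int.emod_two_eq_zero_or_one (u.1 + u.2) with h | h
  · -- even
    refine le_trans ?_ (Nat.le_add_left _ _)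
    obtain ⟨u', hu'⟩ : ∃ u' : V, u' = (u.1 - 1, u.2) := ⟨_, rfl⟩
    have e1 : u'.1 = u.1 - 1 := by rw [hu']
    have e2 : u'.2 = u.2 := by rw [hu']
    have s1 : (rf (Hu T u) u i k).card ≤ (rf {p | 1 ≤ p.1 - p.2 ∧ p.1 - p.2 ≤ 2 * (T : ℤ) ∧
        u'.1 - u'.2 ≤ p.1 - p.2} u' (i + 1) k).card := by
      apply Finset.card_le_card_of_injOn (fun l => u' :: l)
      · intro l hl
        rw [Finset.mem_coe, mem_rf] at hl
        rw [Finset.mem_coe, mem_rf]
        have hmem : (u' :: l) ∈ Wk {p | 1 ≤ p.1 - p.2 ∧ p.1 - p.2 ≤ 2 * (T : ℤ) ∧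
            u'.1 - u'.2 ≤ p.1 - p.2} u' (i + 1) := by
          obtain ⟨⟨g1, g2, g3, g4, g5⟩, -⟩ := hl
          refine ⟨by simp [g1], rfl, ?_, ?_, ?_⟩
          · rw [List.nodup_cons]
            refine ⟨fun hm => ?_, g3⟩
            have := (g5 u' hm).2
            omega
          · rw [List.isChain_cons]
            refine ⟨fun y hy => ?_, g4⟩
            rw [g2, Option.mem_def, Option.some.injEq] at hy
            rw [← hy]
            left
            omega
          · intro p hp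
            rw [List.mem_cons] at hp
            rcases hp with rfl | hp
            · refine ⟨?_, ?_, le_rfl⟩
              · omega
              · omega
            · obtain ⟨⟨a1, a2⟩, a3⟩ := g5 p hp
              exact ⟨a1, a2, by omega⟩
        refine ⟨hmem, ?_⟩
        obtain ⟨f1, f2⟩ := lr_eq hl.1
        obtain ⟨f3, f4⟩ := lr_eq hmem
        rw [f4, List.getElem_cons_succ, e2, ← f2]
        exact hl.2
      · intro l _ l' _ h
        simpa using h
    refine s1.trans ?_
    have s2 := rf_trans (D := {p : V | 1 ≤ p.1 - p.2 ∧ p.1 - p.2 ≤ 2 * (T : ℤ) ∧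
        u'.1 - u'.2 ≤ p.1 - p.2}) (D' := Strip T) (a := u') (n := i + 1) (k := k)
      (c := (1, 0) - u')
      (by simp only [Prod.fst_sub, Prod.snd_sub]; omega)
      (fun p hp => by
        obtain ⟨a1, a2, a3⟩ := hp
        constructor
        · simp only [Prod.fst_add, Prod.snd_add, Prod.fst_sub, Prod.snd_sub]
          omega
        · simp only [Prod.fst_add, Prod.snd_add, Prod.fst_sub, Prod.snd_sub]
          omega)
    simp only [add_sub_cancel] at s2
    exact s2
  · refine le_trans ?_ (Nat.le_add_right _ _)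
    have s2 := rf_trans (D := Hu T u) (D' := Strip T) (a := u) (n := i) (k := k)
      (c := (1, 0) - u)
      (by simp only [Prod.fst_sub, Prod.snd_sub]; omega)
      (fun p hp => by
        obtain ⟨⟨a1, a2⟩, a3⟩ := hp
        constructor
        · simp only [Prod.fst_add, Prod.snd_add, Prod.fst_sub, Prod.snd_sub]
          omega
        · simp only [Prod.fst_add, Prod.snd_add, Prod.fst_sub, Prod.snd_sub]
          omega)
    simp only [add_sub_cancel] at s2
    exact s2

/-- rows at distance at most `n` -/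
noncomputable def Br' (T n : ℕ) : Finset V :=
  (Finset.Icc (-(n : ℤ)) n ×ˢ Finset.Icc (1 : ℤ) (2 * T)).image (fun p => (p.1 + p.2, p.1))

theorem card_Br' (T n : ℕ) : (Br' T n).card ≤ (2 * n + 1) * (2 * T) := by
  unfold Br'
  refine Finset.card_image_le.trans ?_
  rw [Finset.card_product, Int.card_Icc, Int.card_Icc]
  have e1 : ((n : ℤ) + 1 - -(n : ℤ)).toNat = 2 * n + 1 := by omega
  have e2 : (2 * (T : ℤ) + 1 - 1).toNat = 2 * T := by omega
  rw [e1, e2]

open Classical in
theorem g_le (T N n : ℕ) : g T N n ≤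
    ∑ i ∈ Finset.range (n + 1), ∑ u ∈ (Br' T n).filter (fun u => u ∈ Strip T),
      ((rf (Strip T) (1, 0) i u.2.natAbs).card + (rf (Strip T) (1, 0) (i + 1) u.2.natAbs).card) *
        ((rf (Strip T) (1, 0) (n - i) (u.2 - N).natAbs).card +
          (rf (Strip T) (1, 0) (n - i + 1) (u.2 - N).natAbs).card) := by
  have hsub : gf T N n ⊆ (Finset.range (n + 1)).biUnion fun i =>
      ((Br' T n).filter (fun u => u ∈ Strip T)).biUnion fun u =>
        ((rf (Hu T u) u i u.2.natAbs) ×ˢ (rf (Hu T u) u (n - i) (u.2 - N).natAbs)).image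
          (fun pq => pq.1.reverse.dropLast ++ pq.2) := by
    intro l hl
    rw [mem_gf] at hl
    obtain ⟨x, hlx⟩ := GW_mem hl
    have hbox := walk_box hlx
    obtain ⟨h1, ⟨x', h2⟩, ⟨y, hy⟩, h3, h4, h5⟩ := hl
    obtain ⟨i, hi, hmin⟩ := Finset.exists_min_image (Finset.range (n + 1))
      (fun i => (l.getD i (0, 0)).1 - (l.getD i (0, 0)).2) ⟨0, by simp⟩
    rw [Finset.mem_range] at hi
    have hil : i < l.length := by omega
    have hmin' : ∀ p ∈ l, (l[i]'hil).1 - (l[i]'hil).2 ≤ p.1 - p.2 := by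
      intro p hp
      obtain ⟨j, hj, rfl⟩ := List.mem_iff_getElem.1 hp
      have := hmin j (Finset.mem_range.2 (by omega))
      rw [List.getD_eq_getElem _ _ hil, List.getD_eq_getElem _ _ hj] at this
      exact this
    have hB := (hbox i hil).2
    simp only [sub_zero] at hB
    have huS : (l[i]'hil) ∈ Strip T := h5 _ (List.getElem_mem _)
    rw [Finset.mem_biUnion]
    refine ⟨i, Finset.mem_range.2 hi, ?_⟩
    rw [Finset.mem_biUnion]
    refine ⟨l[i]'hil, ?_, ?_⟩
    · rw [Finset.mem_filter]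
      refine ⟨?_, huS⟩
      unfold Br'
      rw [Finset.mem_image]
      refine ⟨((l[i]'hil).2, (l[i]'hil).1 - (l[i]'hil).2), ?_, ?_⟩
      · rw [Finset.mem_product, Finset.mem_Icc, Finset.mem_Icc]
        rw [abs_le] at hB
        exact ⟨⟨by omega, by omega⟩, huS.1, huS.2⟩
      · apply Prod.ext
        · simp
        · rfl
    · rw [Finset.mem_image]
      refine ⟨((l.take (i + 1)).reverse, l.drop i), ?_, ?_⟩
      · have m1 : (l.take (i + 1)).reverse ∈ Wk (Hu T (l[i]'hil)) (l[i]'hil) i := by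
          refine ⟨?_, ?_, ?_, ?_, ?_⟩
          · simp only [List.length_reverse, List.length_take]
            omega
          · simp only [List.head?_reverse]
            rw [List.getLast?_eq_getElem?, List.length_take, min_eq_left (by omega)]
            rw [show i + 1 - 1 = i by omega, List.getElem?_take_of_lt (by omega),
              List.getElem?_eq_getElem hil]
          · exact List.nodup_reverse.2 (h3.sublist (List.take_sublist _ _))
          · rw [List.isChain_reverse]
            exact (h4.take _).imp fun {x y} hxy => nbr_symm hxy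
          · intro p hp
            rw [List.mem_reverse] at hp
            have := List.mem_of_mem_take hp
            exact ⟨h5 p this, hmin' p this⟩
        have m2 : l.drop i ∈ Wk (Hu T (l[i]'hil)) (l[i]'hil) (n - i) := by
          refine ⟨?_, ?_, ?_, ?_, ?_⟩
          · simp only [List.length_drop]
            omega
          · rw [List.head?_drop, List.getElem?_eq_getElem hil]
          · exact h3.sublist (List.drop_sublist _ _)
          · exact h4.drop _
          · intro p hp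
            have := List.mem_of_mem_drop hp
            exact ⟨h5 p this, hmin' p this⟩
        rw [Finset.mem_product, mem_rf, mem_rf]
        refine ⟨⟨m1, ?_⟩, ⟨m2, ?_⟩⟩
        · have e : lr (l.take (i + 1)).reverse = 0 := by
            unfold lr
            rw [List.getLast?_reverse, List.head?_take, if_neg (by omega), h2]
            rfl
          rw [e]
          simp
        · have e : lr (l.drop i) = N := by
            unfold lr
            rw [List.getLast?_drop, if_neg (by omega), hy]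
            rfl
          rw [e, abs_sub_comm]
          simp
      · simp only [List.reverse_reverse]
        rw [List.take_add_one, List.getElem?_eq_getElem hil, Option.toList_some,
          List.dropLast_concat, List.take_append_drop]
  refine (Finset.card_le_card hsub).trans (Finset.card_biUnion_le.trans ?_)
  apply Finset.sum_le_sum
  intro i _
  refine Finset.card_biUnion_le.trans ?_
  apply Finset.sum_le_sum
  intro u hu
  rw [Finset.mem_filter] at hu
  refine Finset.card_image_le.trans ?_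
  rw [Finset.card_product]
  exact Nat.mul_le_mul (half_rf hu.2) (half_rf hu.2)

theorem log_bd {K : ℝ} (hK : 0 ≤ K) : ∃ C : ℝ, 0 ≤ C ∧ ∀ T : ℕ, 2 ≤ T → ∀ n : ℕ,
    K * Real.log (n + 3) ^ 2 ≤ n / (48 * (T : ℝ) ^ 2) + C * Real.log T ^ 2 := by
  obtain ⟨D, hD⟩ : ∃ D : ℝ, D = 48 * (32 * K) ^ 2 + 1 := ⟨_, rfl⟩
  have hD0 : 0 ≤ D := by rw [hD]; positivity
  refine ⟨36 * K + 4 * D, by positivity, ?_⟩
  intro T hT n
  have hT2 : (2 : ℝ) ≤ T := by exact_mod_cast hT
  have hn0 : (0 : ℝ) ≤ n := Nat.cast_nonneg n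
  have hlT : Real.log 2 ≤ Real.log T := Real.log_le_log (by norm_num) hT2
  have hlog2 := Real.log_two_gt_d9
  have hlT2 : (1 : ℝ) / 4 ≤ Real.log T ^ 2 := by nlinarith
  have hl0 : 0 ≤ Real.log ((n : ℝ) + 3) := Real.log_nonneg (by linarith)
  rcases le_or_gt ((n : ℝ) + 3) (4 * (T : ℝ) ^ 4) with h | h
  · have h1 : Real.log ((n : ℝ) + 3) ≤ 6 * Real.log T := by
      calc Real.log ((n : ℝ) + 3) ≤ Real.log (4 * (T : ℝ) ^ 4) :=
            Real.log_le_log (by linarith) h
        _ = Real.log 4 + 4 * Real.log T := by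
            rw [Real.log_mul (by norm_num) (by positivity), Real.log_pow]
            norm_num
        _ ≤ 6 * Real.log T := by
            have : Real.log 4 = 2 * Real.log 2 := by
              rw [show (4 : ℝ) = 2 ^ 2 by norm_num, Real.log_pow]
              norm_num
            linarith
    have h2 : Real.log ((n : ℝ) + 3) ^ 2 ≤ (6 * Real.log T) ^ 2 := pow_le_pow_left₀ hl0 h1 2
    have h3 : (0 : ℝ) ≤ n / (48 * (T : ℝ) ^ 2) := by positivity
    have h4 := mul_le_mul_of_nonneg_left h2 hK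
    have h5 : 0 ≤ D * Real.log T ^ 2 := by positivity
    nlinarith
  · obtain ⟨y, hy⟩ : ∃ y : ℝ, y = ((n : ℝ) + 3) ^ (1 / 4 : ℝ) := ⟨_, rfl⟩
    have hy0 : 0 ≤ y := by rw [hy]; positivity
    have hy4 : y ^ 4 = (n : ℝ) + 3 := by
      rw [hy, ← Real.rpow_natCast, ← Real.rpow_mul (by linarith)]
      norm_num
    have h1 : Real.log ((n : ℝ) + 3) ^ 2 ≤ 64 * y := by
      have h2 := Real.log_le_rpow_div (x := (n : ℝ) + 3) (by linarith)
        (show (0 : ℝ) < 1 / 8 by norm_num)
      have h3 : (((n : ℝ) + 3) ^ (1 / 8 : ℝ)) ^ 2 = y := by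
        rw [hy, ← Real.rpow_natCast, ← Real.rpow_mul (by linarith)]
        norm_num
      have h4 := pow_le_pow_left₀ hl0 h2 2
      rw [div_pow, h3] at h4
      calc Real.log ((n : ℝ) + 3) ^ 2 ≤ y / (1 / 8) ^ 2 := h4
        _ = 64 * y := by ring
    have h5 : 64 * K * y ≤ y ^ 2 / 48 + 48 * (32 * K) ^ 2 := by
      nlinarith [sq_nonneg (y / 48 - 32 * K), sq_nonneg (y - 48 * 32 * K)]
    have h6 : (T : ℝ) ^ 2 * y ^ 2 ≤ (n : ℝ) + 3 := by
      have h7 : (T : ℝ) ^ 4 ≤ y ^ 4 := by rw [hy4]; nlinarith [sq_nonneg ((T : ℝ) ^ 2)]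
      have h8 : (T : ℝ) ≤ y := le_of_pow_le_pow_left₀ (by norm_num) hy0 h7
      calc (T : ℝ) ^ 2 * y ^ 2 ≤ y ^ 2 * y ^ 2 := by gcongr
        _ = (n : ℝ) + 3 := by rw [← hy4]; ring
    have h9 : y ^ 2 / 48 ≤ n / (48 * (T : ℝ) ^ 2) + 1 := by
      have h10 : y ^ 2 / 48 ≤ (n + 3) / (48 * (T : ℝ) ^ 2) := by
        rw [div_le_div_iff₀ (by norm_num) (by positivity)]
        nlinarith
      have h11 : ((n : ℝ) + 3) / (48 * (T : ℝ) ^ 2) = n / (48 * (T : ℝ) ^ 2) + 3 / (48 * (T : ℝ) ^ 2) := by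
        ring
      have h12 : (3 : ℝ) / (48 * (T : ℝ) ^ 2) ≤ 1 := by
        rw [div_le_one (by positivity)]
        nlinarith
      linarith
    have h13 : K * Real.log ((n : ℝ) + 3) ^ 2 ≤ 64 * K * y := by
      have := mul_le_mul_of_nonneg_left h1 hK
      linarith
    have h14 : D ≤ 4 * D * Real.log T ^ 2 := by nlinarith
    have h15 : 0 ≤ 36 * K * Real.log T ^ 2 := by positivity
    rw [hD] at h14 ⊢
    nlinarith

open Classical in
/-- **upper bound of the number of walks along the strip** -/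
theorem g_bound : ∃ C : ℝ, 0 ≤ C ∧ ∀ T : ℕ, 2 ≤ T → ∀ N n : ℕ,
    (g T N n : ℝ) * (mu0⁻¹) ^ n ≤ Real.exp (C * Real.log T ^ 2 - N / (3 * T)) *
      Real.exp (-(1 / (48 * (T : ℝ) ^ 2))) ^ n := by
  obtain ⟨K, hK, hbd⟩ := bd_both
  obtain ⟨C, hC, hlog⟩ := log_bd (K := 2 * K + 3) (by positivity)
  refine ⟨C + 50, by positivity, ?_⟩
  intro T hT N n
  have hmu := mu0_pos
  have hmu2 := mu0_le_two
  have hT2 : (2 : ℝ) ≤ T := by exact_mod_cast hT
  have hT0 : (0 : ℝ) < T := by linarith
  have hn0 : (0 : ℝ) ≤ n := Nat.cast_nonneg n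
  obtain ⟨E, hE⟩ : ∃ E : ℝ, E = Real.exp (K * Real.log (n + 3) ^ 2) := ⟨_, rfl⟩
  have hE0 : 0 < E := by rw [hE]; exact Real.exp_pos _
  -- one piece
  have hpiece : ∀ i ≤ n, ∀ k : ℕ, (((rf (Strip T) (1, 0) i k).card : ℝ) +
      (rf (Strip T) (1, 0) (i + 1) k).card) * (mu0⁻¹) ^ i ≤
      84 * E * Real.exp (-(i / (24 * (T : ℝ) ^ 2)) - k / (3 * T)) := by
    intro i hi k
    have hin : (i : ℝ) ≤ n := by exact_mod_cast hi
    have hi0 : (0 : ℝ) ≤ i := Nat.cast_nonneg i
    have h1 := hbd T (by omega) i k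
    have h2 := hbd T (by omega) (i + 1) k
    have e1 : Real.exp (K * Real.log (i + 2) ^ 2) ≤ E := by
      rw [hE]
      apply Real.exp_le_exp.2
      apply mul_le_mul_of_nonneg_left _ hK
      apply pow_le_pow_left₀ (Real.log_nonneg (by linarith))
      exact Real.log_le_log (by linarith) (by linarith)
    have e2 : Real.exp (K * Real.log (((i + 1 : ℕ) : ℝ) + 2) ^ 2) ≤ E := by
      rw [hE]
      push_cast
      apply Real.exp_le_exp.2
      apply mul_le_mul_of_nonneg_left _ hK
      apply pow_le_pow_left₀ (Real.log_nonneg (by linarith))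
      exact Real.log_le_log (by linarith) (by linarith)
    have e3 : Real.exp (-(((i + 1 : ℕ) : ℝ) / (24 * (T : ℝ) ^ 2)) - k / (3 * T)) ≤
        Real.exp (-(i / (24 * (T : ℝ) ^ 2)) - k / (3 * T)) := by
      apply Real.exp_le_exp.2
      have : (i : ℝ) / (24 * (T : ℝ) ^ 2) ≤ ((i + 1 : ℕ) : ℝ) / (24 * (T : ℝ) ^ 2) := by
        apply div_le_div_of_nonneg_right _ (by positivity)
        push_cast
        linarith
      linarith
    obtain ⟨Q, hQ⟩ : ∃ Q : ℝ, Q = Real.exp (-(i / (24 * (T : ℝ) ^ 2)) - k / (3 * T)) := ⟨_, rfl⟩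
    rw [← hQ] at h1 e3 ⊢
    have hQ0 : 0 < Q := by rw [hQ]; exact Real.exp_pos _
    have h3 : ((rf (Strip T) (1, 0) i k).card : ℝ) * (mu0⁻¹) ^ i ≤ 28 * E * Q :=
      h1.trans (by gcongr)
    have h4 : ((rf (Strip T) (1, 0) (i + 1) k).card : ℝ) * (mu0⁻¹) ^ (i + 1) ≤ 28 * E * Q :=
      h2.trans (by gcongr)
    have h5 : ((rf (Strip T) (1, 0) (i + 1) k).card : ℝ) * (mu0⁻¹) ^ i ≤ 2 * (28 * E * Q) := by
      have e : ((rf (Strip T) (1, 0) (i + 1) k).card : ℝ) * (mu0⁻¹) ^ i =
          mu0 * (((rf (Strip T) (1, 0) (i + 1) k).card : ℝ) * (mu0⁻¹) ^ (i + 1)) := by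
        rw [pow_succ]
        field_simp
      rw [e]
      exact mul_le_mul hmu2 h4 (by positivity) (by norm_num)
    rw [add_mul]
    linarith
  -- the sum
  have hsum : (g T N n : ℝ) * (mu0⁻¹) ^ n ≤ ((n : ℝ) + 1) * ((2 * n + 1) * (2 * T)) *
      ((84 * E) ^ 2 * Real.exp (-(n / (24 * (T : ℝ) ^ 2)) - N / (3 * T))) := by
    have h1 : (g T N n : ℝ) ≤ ∑ i ∈ Finset.range (n + 1),
        ∑ u ∈ (Br' T n).filter (fun u => u ∈ Strip T),
        (((rf (Strip T) (1, 0) i u.2.natAbs).card : ℝ) +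
          (rf (Strip T) (1, 0) (i + 1) u.2.natAbs).card) *
        (((rf (Strip T) (1, 0) (n - i) (u.2 - N).natAbs).card : ℝ) +
          (rf (Strip T) (1, 0) (n - i + 1) (u.2 - N).natAbs).card) := by
      exact_mod_cast g_le T N n
    calc (g T N n : ℝ) * (mu0⁻¹) ^ n ≤ (∑ i ∈ Finset.range (n + 1),
        ∑ u ∈ (Br' T n).filter (fun u => u ∈ Strip T),
        (((rf (Strip T) (1, 0) i u.2.natAbs).card : ℝ) +
          (rf (Strip T) (1, 0) (i + 1) u.2.natAbs).card) *
        (((rf (Strip T) (1, 0) (n - i) (u.2 - N).natAbs).card : ℝ) +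
          (rf (Strip T) (1, 0) (n - i + 1) (u.2 - N).natAbs).card)) * (mu0⁻¹) ^ n :=
          mul_le_mul_of_nonneg_right h1 (by positivity)
      _ = ∑ i ∈ Finset.range (n + 1),
        ∑ u ∈ (Br' T n).filter (fun u => u ∈ Strip T),
        ((((rf (Strip T) (1, 0) i u.2.natAbs).card : ℝ) +
          (rf (Strip T) (1, 0) (i + 1) u.2.natAbs).card) *
        (((rf (Strip T) (1, 0) (n - i) (u.2 - N).natAbs).card : ℝ) +
          (rf (Strip T) (1, 0) (n - i + 1) (u.2 - N).natAbs).card)) * (mu0⁻¹) ^ n := by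
          rw [Finset.sum_mul]
          apply Finset.sum_congr rfl
          intro i _
          rw [Finset.sum_mul]
      _ ≤ ∑ _i ∈ Finset.range (n + 1), ∑ _u ∈ (Br' T n).filter (fun u => u ∈ Strip T),
          ((84 * E) ^ 2 * Real.exp (-(n / (24 * (T : ℝ) ^ 2)) - N / (3 * T))) := by
          apply Finset.sum_le_sum
          intro i hi
          apply Finset.sum_le_sum
          intro u _
          rw [Finset.mem_range] at hi
          have hin : i ≤ n := by omega
          have p1 := hpiece i hin u.2.natAbs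
          have p2 := hpiece (n - i) (Nat.sub_le _ _) (u.2 - N).natAbs
          have e : (mu0⁻¹ : ℝ) ^ n = (mu0⁻¹) ^ i * (mu0⁻¹) ^ (n - i) := by
            rw [← pow_add]
            congr 1
            omega
          have hprod := mul_le_mul p1 p2 (by positivity) (by positivity)
          have e2 : ((((rf (Strip T) (1, 0) i u.2.natAbs).card : ℝ) +
              (rf (Strip T) (1, 0) (i + 1) u.2.natAbs).card) *
              (((rf (Strip T) (1, 0) (n - i) (u.2 - N).natAbs).card : ℝ) +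
              (rf (Strip T) (1, 0) (n - i + 1) (u.2 - N).natAbs).card)) * (mu0⁻¹) ^ n =
              ((((rf (Strip T) (1, 0) i u.2.natAbs).card : ℝ) +
              (rf (Strip T) (1, 0) (i + 1) u.2.natAbs).card) * (mu0⁻¹) ^ i) *
              ((((rf (Strip T) (1, 0) (n - i) (u.2 - N).natAbs).card : ℝ) +
              (rf (Strip T) (1, 0) (n - i + 1) (u.2 - N).natAbs).card) * (mu0⁻¹) ^ (n - i)) := by
            rw [e]
            ring
          rw [e2]
          refine hprod.trans (le_of_eq_of_le (b := (84 * E) ^ 2 *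
            (Real.exp (-(i / (24 * (T : ℝ) ^ 2)) - (u.2.natAbs : ℕ) / (3 * T)) *
            Real.exp (-(((n - i : ℕ) : ℝ) / (24 * (T : ℝ) ^ 2)) -
              ((u.2 - N).natAbs : ℕ) / (3 * T)))) (by ring) ?_)
          apply mul_le_mul_of_nonneg_left _ (by positivity)
          rw [← Real.exp_add]
          apply Real.exp_le_exp.2
          have e3 : (N : ℝ) ≤ (u.2.natAbs : ℕ) + ((u.2 - N).natAbs : ℕ) := by
            have : N ≤ u.2.natAbs + (u.2 - N).natAbs := by omega
            exact_mod_cast this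
          have e4 : ((n - i : ℕ) : ℝ) = n - i := by
            rw [Nat.cast_sub hin]
          rw [e4]
          have e5 : (N : ℝ) / (3 * T) ≤ (u.2.natAbs : ℕ) / (3 * T) + ((u.2 - N).natAbs : ℕ) / (3 * T) := by
            rw [← add_div]
            exact div_le_div_of_nonneg_right e3 (by positivity)
          have e6 : (n : ℝ) / (24 * (T : ℝ) ^ 2) = i / (24 * (T : ℝ) ^ 2) +
              (n - i) / (24 * (T : ℝ) ^ 2) := by ring
          linarith
      _ ≤ _ := by
          rw [Finset.sum_const, Finset.sum_const, Finset.card_range, nsmul_eq_mul, nsmul_eq_mul]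
          push_cast
          rw [← mul_assoc]
          apply mul_le_mul_of_nonneg_right _ (by positivity)
          apply mul_le_mul_of_nonneg_left _ (by positivity)
          have h2 : ((Br' T n).filter (fun u => u ∈ Strip T)).card ≤ (2 * n + 1) * (2 * T) :=
            (Finset.card_filter_le _ _).trans (card_Br' T n)
          exact_mod_cast h2
  -- the final estimate
  have hl3 : 1 ≤ Real.log ((n : ℝ) + 3) := by
    rw [Real.le_log_iff_exp_le (by linarith)]
    have := Real.exp_one_lt_d9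
    linarith
  have h1 : ((n : ℝ) + 1) ≤ Real.exp (Real.log ((n : ℝ) + 3) ^ 2) := by
    calc ((n : ℝ) + 1) ≤ Real.exp (Real.log ((n : ℝ) + 3)) := by
          rw [Real.exp_log (by linarith)]
          linarith
      _ ≤ _ := Real.exp_le_exp.2 (by nlinarith)
  have h2 : (2 * (n : ℝ) + 1) ≤ Real.exp (2 * Real.log ((n : ℝ) + 3) ^ 2) := by
    calc (2 * (n : ℝ) + 1) ≤ ((n : ℝ) + 3) ^ 2 := by nlinarith
      _ = Real.exp (2 * Real.log ((n : ℝ) + 3)) := by
          rw [← Real.log_rpow (by linarith), Real.exp_log (by positivity)]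
          norm_num
      _ ≤ _ := Real.exp_le_exp.2 (by nlinarith)
  have hlog2 := Real.log_two_gt_d9
  have hlT : Real.log 2 ≤ Real.log T := Real.log_le_log (by norm_num) hT2
  have h3 : 2 * (T : ℝ) * 84 ^ 2 ≤ Real.exp (50 * Real.log T ^ 2) := by
    have h4 : 2 * (T : ℝ) * 84 ^ 2 ≤ (T : ℝ) ^ 15 := by
      have h5 : (2 : ℝ) ^ 14 ≤ (T : ℝ) ^ 14 := pow_le_pow_left₀ (by norm_num) hT2 14
      calc 2 * (T : ℝ) * 84 ^ 2 ≤ 2 ^ 14 * T := by nlinarith
        _ ≤ (T : ℝ) ^ 14 * T := by gcongr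
        _ = _ := by ring
    refine h4.trans ?_
    have h6 : (T : ℝ) ^ 15 = Real.exp (15 * Real.log T) := by
      rw [mul_comm, Real.exp_mul, Real.exp_log hT0]
      norm_cast
    rw [h6]
    apply Real.exp_le_exp.2
    nlinarith
  have h7 := hlog T hT n
  calc (g T N n : ℝ) * (mu0⁻¹) ^ n ≤ ((n : ℝ) + 1) * ((2 * n + 1) * (2 * T)) *
      ((84 * E) ^ 2 * Real.exp (-(n / (24 * (T : ℝ) ^ 2)) - N / (3 * T))) := hsum
    _ = ((n : ℝ) + 1) * (2 * n + 1) * (2 * T * 84 ^ 2) * (E ^ 2 *
        Real.exp (-(n / (24 * (T : ℝ) ^ 2)) - N / (3 * T))) := by ring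
    _ ≤ Real.exp (Real.log ((n : ℝ) + 3) ^ 2) * Real.exp (2 * Real.log ((n : ℝ) + 3) ^ 2) *
        Real.exp (50 * Real.log T ^ 2) * (E ^ 2 *
        Real.exp (-(n / (24 * (T : ℝ) ^ 2)) - N / (3 * T))) := by
        gcongr
    _ = Real.exp ((2 * K + 3) * Real.log ((n : ℝ) + 3) ^ 2 + 50 * Real.log T ^ 2 -
        n / (24 * (T : ℝ) ^ 2) - N / (3 * T)) := by
        rw [hE, ← Real.exp_nat_mul, ← Real.exp_add, ← Real.exp_add, ← Real.exp_add, ← Real.exp_add]
        congr 1
        push_cast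
        ring
    _ ≤ Real.exp ((C + 50) * Real.log T ^ 2 - N / (3 * T) + n * -(1 / (48 * (T : ℝ) ^ 2))) := by
        apply Real.exp_le_exp.2
        have h8 : (n : ℝ) / (24 * (T : ℝ) ^ 2) = 2 * (n / (48 * (T : ℝ) ^ 2)) := by
          field_simp
          ring
        have h9 : (n : ℝ) * -(1 / (48 * (T : ℝ) ^ 2)) = -(n / (48 * (T : ℝ) ^ 2)) := by ring
        rw [h8, h9]
        linarith
    _ = _ := by
        rw [Real.exp_add, Real.exp_nat_mul]

end Pool.Agent.X130.ST
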