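import Pool.Agent.X130.ST.I

set_option autoImplicit false

/-! The critical correlation length of a strip. -/

namespace Pool.Agent.X130.ST

open H978R2.Hex hiding Strip
open Pool.Agent.W818.TD hiding Up
open Pool.Agent.W832.HR hiding nbr_trans
open Filter Topology
open scoped ENNReal

/-- the critical partition function of the walks from row `0` to row `N` -/
noncomputable def G (T N : ℕ) : ℝ := ∑' n : ℕ, (g T N n : ℝ) * (mu0⁻¹) ^ n

theorem one_sub_exp {u : ℝ} (h0 : 0 < u) (h1 : u ≤ 1) : u / 2 ≤ 1 - Real.exp (-u) := by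
  have h2 : Real.exp (-u) ≤ 1 / (1 + u) := by
    rw [Real.exp_neg, ← one_div]
    apply one_div_le_one_div_of_le (by linarith)
    have := Real.add_one_le_exp u
    linarith
  have h3 : u / 2 ≤ 1 - 1 / (1 + u) := by
    have e : 1 - 1 / (1 + u) = u / (1 + u) := by
      field_simp
      ring
    rw [e]
    apply div_le_div_of_nonneg_left h0.le (by linarith) (by linarith)
  linarith

theorem G_upper : ∃ C : ℝ, 0 ≤ C ∧ ∀ T : ℕ, 2 ≤ T → ∀ N : ℕ,
    Summable (fun n : ℕ => (g T N n : ℝ) * (mu0⁻¹) ^ n) ∧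
      G T N ≤ Real.exp (C * Real.log T ^ 2 - N / (3 * T)) := by
  obtain ⟨C, hC, h⟩ := g_bound
  refine ⟨C + 20, by positivity, ?_⟩
  intro T hT N
  have hmu := mu0_pos
  have hT2 : (2 : ℝ) ≤ T := by exact_mod_cast hT
  obtain ⟨u, hu⟩ : ∃ u : ℝ, u = 1 / (48 * (T : ℝ) ^ 2) := ⟨_, rfl⟩
  have hu0 : 0 < u := by rw [hu]; positivity
  have hu1 : u ≤ 1 := by
    rw [hu, div_le_one (by positivity)]
    nlinarith
  have hr := one_sub_exp hu0 hu1
  have h1 := h T hT N
  rw [← hu] at h1
  have hr0 : 0 ≤ Real.exp (-u) := (Real.exp_pos _).le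
  have hr1 : Real.exp (-u) < 1 := by linarith
  have hsum : Summable (fun n : ℕ => Real.exp (C * Real.log T ^ 2 - N / (3 * T)) *
      Real.exp (-u) ^ n) := (summable_geometric_of_lt_one hr0 hr1).mul_left _
  have hs : Summable (fun n : ℕ => (g T N n : ℝ) * (mu0⁻¹) ^ n) :=
    Summable.of_nonneg_of_le (fun n => by positivity) h1 hsum
  refine ⟨hs, ?_⟩
  have h2 : G T N ≤ Real.exp (C * Real.log T ^ 2 - N / (3 * T)) * (1 - Real.exp (-u))⁻¹ := by
    unfold G
    refine (hs.tsum_le_tsum h1 hsum).trans (le_of_eq ?_)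
    rw [tsum_mul_left, tsum_geometric_of_lt_one hr0 hr1]
  have h3 : (1 - Real.exp (-u))⁻¹ ≤ 96 * (T : ℝ) ^ 2 := by
    have e : 96 * (T : ℝ) ^ 2 = (u / 2)⁻¹ := by
      rw [hu]
      field_simp
      norm_num
    rw [e]
    exact inv_anti₀ (by positivity) hr
  have h4 : 96 * (T : ℝ) ^ 2 ≤ Real.exp (20 * Real.log T ^ 2) := by
    have h5 : 96 * (T : ℝ) ^ 2 ≤ (T : ℝ) ^ 9 := by
      have h6 : (2 : ℝ) ^ 7 ≤ (T : ℝ) ^ 7 := pow_le_pow_left₀ (by norm_num) hT2 7
      calc 96 * (T : ℝ) ^ 2 ≤ 2 ^ 7 * T ^ 2 := by nlinarith [sq_nonneg (T : ℝ)]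
        _ ≤ (T : ℝ) ^ 7 * T ^ 2 := by gcongr
        _ = _ := by ring
    refine h5.trans ?_
    have h6 : (T : ℝ) ^ 9 = Real.exp (9 * Real.log T) := by
      rw [mul_comm, Real.exp_mul, Real.exp_log (by linarith)]
      norm_cast
    rw [h6]
    apply Real.exp_le_exp.2
    have hlog2 := Real.log_two_gt_d9
    have hlT : Real.log 2 ≤ Real.log T := Real.log_le_log (by norm_num) hT2
    nlinarith
  calc G T N ≤ Real.exp (C * Real.log T ^ 2 - N / (3 * T)) * (1 - Real.exp (-u))⁻¹ := h2
    _ ≤ Real.exp (C * Real.log T ^ 2 - N / (3 * T)) * Real.exp (20 * Real.log T ^ 2) := by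
        apply mul_le_mul_of_nonneg_left (h3.trans h4) (Real.exp_pos _).le
    _ = _ := by
        rw [← Real.exp_add]
        congr 1
        ring

/-! ### submultiplicativity -/

theorem g_add_le (T N M n : ℕ) :
    g T (N + M) n ≤ ∑ i ∈ Finset.range (n + 1), g T N i * g T M (n - i) := by
  classical
  have hsub : gf T (N + M) n ⊆ (Finset.range (n + 1)).biUnion fun i =>
      ((gf T N i) ×ˢ (gf T M (n - i))).image
        (fun pq => pq.1.dropLast ++ pq.2.map (fun p => p + ((N : ℤ), (N : ℤ)))) := by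
    intro l hl
    rw [mem_gf] at hl
    obtain ⟨h1, ⟨x, h2⟩, ⟨y, hy⟩, h3, h4, h5⟩ := hl
    have hlast : (l[n]'(by omega)).2 = (N : ℤ) + M := by
      rw [List.getLast?_eq_getElem?, h1, Nat.add_sub_cancel,
        List.getElem?_eq_getElem (by omega), Option.some.injEq] at hy
      rw [hy]
      push_cast
      rfl
    have hfirst : (l[0]'(by omega)).2 = 0 := by
      rw [List.head?_eq_getElem?, List.getElem?_eq_getElem (by omega), Option.some.injEq] at h2
      rw [h2]
    have hex : ∃ i, ∃ hi : i < l.length, (N : ℤ) ≤ (l[i]'hi).2 := by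
      refine ⟨n, by omega, ?_⟩
      rw [hlast]
      omega
    obtain ⟨i, hi⟩ : ∃ i, i = Nat.find hex := ⟨_, rfl⟩
    obtain ⟨hil, hiN⟩ := Nat.find_spec hex
    rw [← hi] at hil
    simp only [← hi] at hiN
    have hrow : (l[i]'hil).2 = N := by
      apply le_antisymm _ hiN
      rcases Nat.eq_zero_or_pos i with h0 | h0
      · simp only [h0]
        rw [hfirst]
        omega
      · have h6 := Nat.find_min hex (m := i - 1) (by omega)
        push Not at h6
        have h7 := h6 (by omega)
        rw [List.isChain_iff_getElem] at h4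
        have h8 := h4 (i - 1) (by omega)
        have e : i - 1 + 1 = i := by omega
        simp only [e] at h8
        rw [nbr_iff, HP.adj_iff] at h8
        omega
    rw [Finset.mem_biUnion]
    refine ⟨i, Finset.mem_range.2 (by omega), ?_⟩
    rw [Finset.mem_image]
    refine ⟨(l.take (i + 1), (l.drop i).map (fun p => p + (-(N : ℤ), -(N : ℤ)))), ?_, ?_⟩
    · rw [Finset.mem_product, mem_gf, mem_gf]
      constructor
      · refine ⟨?_, ⟨x, ?_⟩, ⟨(l[i]'hil).1, ?_⟩, ?_, ?_, ?_⟩
        · simp only [List.length_take]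
          omega
        · simp only [List.head?_take]
          rw [if_neg (by omega), h2]
        · simp only
          rw [List.getLast?_eq_getElem?, List.length_take, min_eq_left (by omega),
            show i + 1 - 1 = i by omega, List.getElem?_take_of_lt (by omega),
            List.getElem?_eq_getElem hil, ← hrow]
        · exact h3.sublist (List.take_sublist _ _)
        · exact h4.take _
        · intro p hp
          exact h5 p (List.mem_of_mem_take hp)
      · refine ⟨?_, ⟨(l[i]'hil).1 - N, ?_⟩, ⟨y - N, ?_⟩, ?_, ?_, ?_⟩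
        · simp only [List.length_map, List.length_drop]
          omega
        · simp only
          rw [List.head?_map, List.head?_drop, List.getElem?_eq_getElem hil, Option.map_some]
          rw [Option.some.injEq]
          apply Prod.ext
          · simp only [Prod.fst_add]
            ring
          · simp only [Prod.snd_add]
            rw [hrow]
            ring
        · simp only
          rw [List.getLast?_map, List.getLast?_drop, if_neg (by omega), hy, Option.map_some]
          rw [Option.some.injEq]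
          apply Prod.ext
          · simp only [Prod.fst_add]
            ring
          · simp only [Prod.snd_add]
            push_cast
            ring
        · exact (h3.sublist (List.drop_sublist _ _)).map (fun x y h => by simpa using h)
        · simp only
          rw [List.isChain_map]
          exact (h4.drop _).imp fun {x y} hxy => nbr_trans (by simp only; omega) hxy
        · intro p hp
          simp only at hp
          rw [List.mem_map] at hp
          obtain ⟨q, hq, rfl⟩ := hp
          have := h5 q (List.mem_of_mem_drop hq)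
          obtain ⟨a1, a2⟩ := this
          constructor
          · simp only [Prod.fst_add, Prod.snd_add]
            omega
          · simp only [Prod.fst_add, Prod.snd_add]
            omega
    · simp only [List.map_map]
      have e : ((fun p : V => p + ((N : ℤ), (N : ℤ))) ∘ fun p => p + (-(N : ℤ), -(N : ℤ))) = id := by
        funext p
        simp only [Function.comp_apply, id]
        apply Prod.ext
        · simp only [Prod.fst_add]
          ring
        · simp only [Prod.snd_add]
          ring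
      rw [e, List.map_id, List.take_add_one, List.getElem?_eq_getElem hil, Option.toList_some,
        List.dropLast_concat, List.take_append_drop]
  refine (Finset.card_le_card hsub).trans (Finset.card_biUnion_le.trans ?_)
  apply Finset.sum_le_sum
  intro i _
  refine Finset.card_image_le.trans ?_
  rw [Finset.card_product]
  exact le_rfl

theorem G_mul {T N M : ℕ} (hN : Summable (fun n : ℕ => (g T N n : ℝ) * (mu0⁻¹) ^ n))
    (hM : Summable (fun n : ℕ => (g T M n : ℝ) * (mu0⁻¹) ^ n))
    (hNM : Summable (fun n : ℕ => (g T (N + M) n : ℝ) * (mu0⁻¹) ^ n)) :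
    G T (N + M) ≤ G T N * G T M := by
  have hmu := mu0_pos
  have n1 : Summable (fun n : ℕ => ‖(g T N n : ℝ) * (mu0⁻¹) ^ n‖) := hN.norm
  have n2 : Summable (fun n : ℕ => ‖(g T M n : ℝ) * (mu0⁻¹) ^ n‖) := hM.norm
  unfold G
  rw [tsum_mul_tsum_eq_tsum_sum_range_of_summable_norm n1 n2]
  apply hNM.tsum_le_tsum _ (summable_norm_sum_mul_range_of_summable_norm n1 n2).of_norm
  intro n
  have h1 : (g T (N + M) n : ℝ) ≤ ∑ i ∈ Finset.range (n + 1), (g T N i : ℝ) * g T M (n - i) := by
    exact_mod_cast g_add_le T N M n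
  calc (g T (N + M) n : ℝ) * (mu0⁻¹) ^ n
      ≤ (∑ i ∈ Finset.range (n + 1), (g T N i : ℝ) * g T M (n - i)) * (mu0⁻¹) ^ n :=
        mul_le_mul_of_nonneg_right h1 (by positivity)
    _ = ∑ i ∈ Finset.range (n + 1), (g T N i : ℝ) * (mu0⁻¹) ^ i *
        ((g T M (n - i) : ℝ) * (mu0⁻¹) ^ (n - i)) := by
        rw [Finset.sum_mul]
        apply Finset.sum_congr rfl
        intro i hi
        rw [Finset.mem_range] at hi
        have e : (mu0⁻¹ : ℝ) ^ n = (mu0⁻¹) ^ i * (mu0⁻¹) ^ (n - i) := by
          rw [← pow_add]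
          congr 1
          omega
        rw [e]
        ring

/-! ### lower bound -/

theorem Z_le_G {T N : ℕ} (hs : Summable (fun n : ℕ => (g T N n : ℝ) * (mu0⁻¹) ^ n)) {a b : V}
    (ha : a.2 = 0) (hb : b.2 = N) : Zx xc (Strip T) a b ≤ ENNReal.ofReal (G T N) := by
  classical
  have hmu := mu0_pos
  unfold Zx
  rw [ENNReal.tsum_eq_iSup_sum]
  apply iSup_le
  intro A
  obtain ⟨A', hA'⟩ : ∃ A' : Finset (List V), A' = A.image Subtype.val := ⟨_, rfl⟩
  have e1 : ∑ l ∈ A, xc ^ (l.1.length - 1) =
      ENNReal.ofReal (∑ l ∈ A', (mu0⁻¹) ^ (l.length - 1)) := by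
    rw [ENNReal.ofReal_sum_of_nonneg (fun _ _ => by positivity), hA',
      Finset.sum_image (fun u _ v _ h => Subtype.ext h)]
    apply Finset.sum_congr rfl
    intro l _
    rw [xc_eq, ENNReal.ofReal_pow (by positivity)]
  rw [e1]
  apply ENNReal.ofReal_le_ofReal
  have hmem : ∀ l ∈ A', l ∈ Traj (Strip T) a b := by
    intro l hl
    rw [hA', Finset.mem_image] at hl
    obtain ⟨u, _, rfl⟩ := hl
    exact u.2
  obtain ⟨M, hM⟩ : ∃ M : ℕ, ∀ l ∈ A', l.length - 1 < M := by
    refine ⟨(A'.sup (fun l => l.length - 1)) + 1, fun l hl => ?_⟩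
    have := Finset.le_sup (f := fun l : List V => l.length - 1) hl
    omega
  have hsub : A' ⊆ (Finset.range M).biUnion (fun j => gf T N j) := by
    intro l hl
    have hl' := hmem l hl
    have hlen : 1 ≤ l.length := by
      have := hl'.1
      match l, this with
      | y :: s, _ => simp
    rw [Finset.mem_biUnion]
    refine ⟨l.length - 1, Finset.mem_range.2 (hM l hl), ?_⟩
    rw [mem_gf]
    refine ⟨by omega, ⟨a.1, ?_⟩, ⟨b.1, ?_⟩, hl'.2.2.1, hl'.2.2.2.1, hl'.2.2.2.2⟩
    · rw [hl'.1, ← ha]
    · rw [hl'.2.1, ← hb]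
  calc ∑ l ∈ A', (mu0⁻¹) ^ (l.length - 1)
      ≤ ∑ l ∈ (Finset.range M).biUnion (fun j => gf T N j), (mu0⁻¹) ^ (l.length - 1) :=
        Finset.sum_le_sum_of_subset_of_nonneg hsub (fun _ _ _ => by positivity)
    _ = ∑ j ∈ Finset.range M, ∑ l ∈ gf T N j, (mu0⁻¹) ^ (l.length - 1) := by
        apply Finset.sum_biUnion
        intro i _ j _ hij
        rw [Function.onFun, Finset.disjoint_left]
        intro l hl hl'
        rw [mem_gf] at hl hl'
        have := hl.1
        have := hl'.1
        omega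
    _ = ∑ j ∈ Finset.range M, (g T N j : ℝ) * (mu0⁻¹) ^ j := by
        apply Finset.sum_congr rfl
        intro j _
        have : ∀ l ∈ gf T N j, (mu0⁻¹ : ℝ) ^ (l.length - 1) = (mu0⁻¹) ^ j := by
          intro l hl
          rw [mem_gf] at hl
          rw [hl.1]
          rfl
        rw [Finset.sum_congr rfl this, Finset.sum_const, nsmul_eq_mul]
        rfl
    _ ≤ G T N := hs.sum_le_tsum _ (fun _ _ => by positivity)

theorem G_row {T n N : ℕ} (h : 2 * n + 1 ≤ T)
    (hs : Summable (fun j : ℕ => (g T ((2 * n + 1) * N + 2 * n) j : ℝ) * (mu0⁻¹) ^ j)) :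
    (1 / (256 * ((n : ℝ) + 1) ^ 3)) ^ (2 * N + 2) ≤ G T ((2 * n + 1) * N + 2 * n) := by
  have hmu := mu0_pos
  have hmu2 := mu0_le_two
  obtain ⟨κ, hκ⟩ : ∃ κ : ℝ, κ = 1 / (128 * ((n : ℝ) + 1) ^ 3) := ⟨_, rfl⟩
  have hκ0 : 0 < κ := by rw [hκ]; positivity
  have h1 := row (x := xc) (n := n) (κ := kap n) (fun s s' hss => std_block hss) N
  have h2 : Zx xc (Ro n N) (port n (0, 0) (0, 0, false) .R) (port n (0, 0) ((N : ℤ), 0, true) .R) ≤
      Zx xc (Strip T) (port n (0, 0) (0, 0, false) .R + ((n : ℤ), (n : ℤ)))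
        (port n (0, 0) ((N : ℤ), 0, true) .R + ((n : ℤ), (n : ℤ))) := by
    apply Zx_map (g := fun p => p + ((n : ℤ), (n : ℤ)))
    · intro p q hpq
      simpa using hpq
    · intro p q hpq
      exact nbr_trans (by simp only; omega) hpq
    · intro p hp
      obtain ⟨a1, a2⟩ := Ro_sub h hp
      constructor
      · simp only [Prod.fst_add, Prod.snd_add]
        omega
      · simp only [Prod.fst_add, Prod.snd_add]
        omega
    · rfl
    · rfl
  have h3 := Z_le_G (T := T) (N := (2 * n + 1) * N + 2 * n) hs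
    (a := port n (0, 0) (0, 0, false) .R + ((n : ℤ), (n : ℤ)))
    (b := port n (0, 0) ((N : ℤ), 0, true) .R + ((n : ℤ), (n : ℤ)))
    (by
      unfold port push tv mid0
      simp)
    (by
      unfold port push tv mid0
      simp only [if_true, Prod.snd_add]
      push_cast
      ring)
  have h4 := (h1.trans h2).trans h3
  have e1 : kap n * (xc * kap n) ^ (2 * N + 1) =
      ENNReal.ofReal (κ * (mu0⁻¹ * κ) ^ (2 * N + 1)) := by
    unfold kap
    rw [← hκ, xc_eq, ← ENNReal.ofReal_mul (by positivity), ← ENNReal.ofReal_pow (by positivity),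
      ← ENNReal.ofReal_mul hκ0.le]
  rw [e1] at h4
  have hG0 : 0 ≤ G T ((2 * n + 1) * N + 2 * n) := tsum_nonneg fun _ => by positivity
  rw [ENNReal.ofReal_le_ofReal_iff hG0] at h4
  refine le_trans ?_ h4
  have e2 : (1 : ℝ) / (256 * ((n : ℝ) + 1) ^ 3) = κ / 2 := by
    rw [hκ]
    field_simp
    norm_num
  rw [e2, show 2 * N + 2 = (2 * N + 1) + 1 by ring, pow_succ, mul_comm]
  apply mul_le_mul (by linarith) _ (by positivity) (by positivity)
  apply pow_le_pow_left₀ (by positivity)
  rw [div_eq_mul_inv, mul_comm]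
  apply mul_le_mul_of_nonneg_right _ hκ0.le
  exact inv_anti₀ hmu hmu2

end Pool.Agent.X130.ST
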