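import Pool.Agent.X130.ST.J

set_option autoImplicit false

/-! The critical correlation length of a strip: the theorem. -/

namespace Pool.Agent.X130.ST

open H978R2.Hex hiding Strip
open Pool.Agent.W818.TD hiding Up
open Pool.Agent.W832.HR hiding nbr_trans
open Filter Topology
open scoped ENNReal

theorem G_lower : ∃ C : ℝ, 0 ≤ C ∧ ∀ T : ℕ, 2 ≤ T → ∀ N : ℕ,
    Summable (fun n : ℕ => (g T N n : ℝ) * (mu0⁻¹) ^ n) ∧
      G T N ≤ Real.exp (C * Real.log T ^ 2 - N / (3 * T)) ∧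
      Real.exp (-(C * (Real.log T ^ 2 + N / T * Real.log T))) ≤ G T N := by
  obtain ⟨C, hC, h⟩ := G_upper
  refine ⟨C + 50, by positivity, ?_⟩
  intro T hT N
  have hT2 : (2 : ℝ) ≤ T := by exact_mod_cast hT
  have hT0 : (0 : ℝ) < T := by linarith
  have hN0 : (0 : ℝ) ≤ N := Nat.cast_nonneg N
  refine ⟨(h T hT N).1, ?_, ?_⟩
  · refine (h T hT N).2.trans (Real.exp_le_exp.2 ?_)
    have := sq_nonneg (Real.log T)
    nlinarith
  obtain ⟨n, hn⟩ : ∃ n : ℕ, n = (T - 1) / 2 := ⟨_, rfl⟩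
  obtain ⟨N₀, hN₀⟩ : ∃ N₀ : ℕ, N₀ = N / (2 * n + 1) := ⟨_, rfl⟩
  have hlt : N < (2 * n + 1) * (N₀ + 1) := by
    have := Nat.lt_mul_div_succ N (show 0 < 2 * n + 1 by omega)
    rw [← hN₀] at this
    exact this
  have hle : (2 * n + 1) * N₀ ≤ N := by
    rw [hN₀]
    exact Nat.mul_div_le N (2 * n + 1)
  have hN'1 : N ≤ (2 * n + 1) * N₀ + 2 * n := by
    have : (2 * n + 1) * (N₀ + 1) = (2 * n + 1) * N₀ + (2 * n + 1) := by ring
    omega
  obtain ⟨D, hD⟩ : ∃ D : ℕ, N + D = (2 * n + 1) * N₀ + 2 * n := ⟨_, Nat.add_sub_cancel' hN'1⟩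
  have h1 := G_row (T := T) (n := n) (N := N₀) (by omega) (h T hT _).1
  rw [← hD] at h1
  have h2 := G_mul (h T hT N).1 (h T hT D).1 (h T hT (N + D)).1
  have h3 : G T D ≤ Real.exp (C * Real.log T ^ 2) := by
    refine (h T hT D).2.trans (Real.exp_le_exp.2 ?_)
    have : (0 : ℝ) ≤ D / (3 * T) := by positivity
    linarith
  have hG0 : 0 ≤ G T N := tsum_nonneg fun _ => by
    have := mu0_pos
    positivity
  have h4 : (1 / (256 * ((n : ℝ) + 1) ^ 3)) ^ (2 * N₀ + 2) ≤ G T N * Real.exp (C * Real.log T ^ 2) :=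
    (h1.trans h2).trans (mul_le_mul_of_nonneg_left h3 hG0)
  have hlT : Real.log 2 ≤ Real.log T := Real.log_le_log (by norm_num) hT2
  have hlog2 := Real.log_two_gt_d9
  have h5 : Real.exp (-(11 * Real.log T)) ≤ 1 / (256 * ((n : ℝ) + 1) ^ 3) := by
    have e : Real.exp (-(11 * Real.log T)) = 1 / (T : ℝ) ^ 11 := by
      rw [Real.exp_neg, mul_comm, Real.exp_mul, Real.exp_log hT0, one_div]
      norm_cast
    rw [e]
    apply one_div_le_one_div_of_le (by positivity)
    have hnT : (n : ℝ) + 1 ≤ T := by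
      have : n + 1 ≤ T := by omega
      exact_mod_cast this
    have h6 : (2 : ℝ) ^ 8 ≤ (T : ℝ) ^ 8 := pow_le_pow_left₀ (by norm_num) hT2 8
    calc 256 * ((n : ℝ) + 1) ^ 3 ≤ 2 ^ 8 * (T : ℝ) ^ 3 := by
          have : ((n : ℝ) + 1) ^ 3 ≤ (T : ℝ) ^ 3 := pow_le_pow_left₀ (by positivity) hnT 3
          linarith
      _ ≤ (T : ℝ) ^ 8 * T ^ 3 := by gcongr
      _ = _ := by ring
  have h6 : Real.exp (-(11 * Real.log T) * (4 * (N / T) + 2)) ≤
      (1 / (256 * ((n : ℝ) + 1) ^ 3)) ^ (2 * N₀ + 2) := by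
    refine le_trans ?_ (pow_le_pow_left₀ (Real.exp_pos _).le h5 _)
    rw [← Real.exp_nat_mul]
    apply Real.exp_le_exp.2
    push_cast
    have h7 : (N₀ : ℝ) ≤ 2 * (N / T) := by
      have h8 : T * N₀ ≤ 2 * N := by
        have : T ≤ 2 * (2 * n + 1) := by omega
        calc T * N₀ ≤ 2 * (2 * n + 1) * N₀ := Nat.mul_le_mul_right _ this
          _ = 2 * ((2 * n + 1) * N₀) := by ring
          _ ≤ 2 * N := Nat.mul_le_mul_left _ hle
      have h9 : (T : ℝ) * N₀ ≤ 2 * N := by exact_mod_cast h8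
      rw [← mul_div_assoc, le_div_iff₀ hT0]
      linarith
    have hl0 : 0 ≤ Real.log T := by linarith
    nlinarith
  have h7 : Real.exp (-(11 * Real.log T) * (4 * (N / T) + 2)) * Real.exp (-(C * Real.log T ^ 2)) ≤
      G T N := by
    have h8 := h6.trans h4
    calc Real.exp (-(11 * Real.log T) * (4 * (N / T) + 2)) * Real.exp (-(C * Real.log T ^ 2))
        ≤ G T N * Real.exp (C * Real.log T ^ 2) * Real.exp (-(C * Real.log T ^ 2)) :=
          mul_le_mul_of_nonneg_right h8 (Real.exp_pos _).le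
      _ = G T N := by
          rw [mul_assoc, ← Real.exp_add, add_neg_cancel, Real.exp_zero, mul_one]
  refine le_trans ?_ h7
  rw [← Real.exp_add]
  apply Real.exp_le_exp.2
  have hq : 0 ≤ (N : ℝ) / T := by positivity
  have hl0 : 0 ≤ Real.log T := by linarith
  have h9 : 0 ≤ (N : ℝ) / T * Real.log T := by positivity
  have h10 : 22 * Real.log T ≤ 50 * Real.log T ^ 2 := by nlinarith
  nlinarith

/-- **the critical correlation length** -/
theorem corr : ∃ C : ℝ, 0 < C ∧ ∀ T : ℕ, 2 ≤ T →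
    (∀ N : ℕ, Summable (fun n : ℕ => (g T N n : ℝ) * (mu0⁻¹) ^ n) ∧
      Real.exp (-(C * (Real.log T ^ 2 + N / T * Real.log T))) ≤ G T N ∧
      G T N ≤ Real.exp (C * Real.log T ^ 2 - N / (3 * T))) ∧
    ∃ m : ℝ, Tendsto (fun N : ℕ => -Real.log (G T N) / N) atTop (𝓝 m) ∧
      (∀ N : ℕ, 1 ≤ N → Real.exp (-(m * N)) ≤ G T N) ∧
      1 / (3 * T) ≤ m ∧ m ≤ C * Real.log T / T := by
  obtain ⟨C, hC, h⟩ := G_lower
  refine ⟨C + 1, by positivity, ?_⟩
  intro T hT
  have hT2 : (2 : ℝ) ≤ T := by exact_mod_cast hT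
  have hT0 : (0 : ℝ) < T := by linarith
  have hl0 : 0 ≤ Real.log T := Real.log_nonneg (by linarith)
  refine ⟨fun N => ⟨(h T hT N).1, ?_, ?_⟩, ?_⟩
  · refine le_trans (Real.exp_le_exp.2 ?_) (h T hT N).2.2
    have : 0 ≤ Real.log T ^ 2 + N / T * Real.log T := by positivity
    linarith
  · refine (h T hT N).2.1.trans (Real.exp_le_exp.2 ?_)
    have := sq_nonneg (Real.log T)
    linarith
  have hpos : ∀ N, 0 < G T N := fun N => lt_of_lt_of_le (Real.exp_pos _) (h T hT N).2.2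
  obtain ⟨u, hu⟩ : ∃ u : ℕ → ℝ, u = fun N => Real.log (G T N) := ⟨_, rfl⟩
  have hsub : Subadditive u := by
    intro N M
    simp only [hu]
    rw [← Real.log_mul (hpos N).ne' (hpos M).ne']
    exact Real.log_le_log (hpos _) (G_mul (h T hT N).1 (h T hT M).1 (h T hT (N + M)).1)
  have hlow : ∀ N : ℕ, -(C * (Real.log T ^ 2 + N / T * Real.log T)) ≤ u N := by
    intro N
    simp only [hu]
    rw [Real.le_log_iff_exp_le (hpos N)]
    exact (h T hT N).2.2
  have hup : ∀ N : ℕ, u N ≤ C * Real.log T ^ 2 - N / (3 * T) := by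
    intro N
    simp only [hu]
    rw [Real.log_le_iff_le_exp (hpos N)]
    exact (h T hT N).2.1
  have hdivlow : ∀ N : ℕ, 1 ≤ N → -(C * Real.log T ^ 2) / N - C * Real.log T / T ≤ u N / N := by
    intro N hN
    have hN0 : (0 : ℝ) < N := by exact_mod_cast hN
    rw [le_div_iff₀ hN0]
    refine le_trans (le_of_eq ?_) (hlow N)
    field_simp
    ring
  have hdivup : ∀ N : ℕ, 1 ≤ N → u N / N ≤ C * Real.log T ^ 2 / N - 1 / (3 * T) := by
    intro N hN
    have hN0 : (0 : ℝ) < N := by exact_mod_cast hN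
    rw [div_le_iff₀ hN0]
    refine (hup N).trans (le_of_eq ?_)
    field_simp
  have hbdd : BddBelow (Set.range fun n : ℕ => u n / n) := by
    refine ⟨-(C * Real.log T ^ 2) - C * Real.log T / T, ?_⟩
    rintro _ ⟨N, rfl⟩
    simp only
    rcases Nat.eq_zero_or_pos N with h0 | h0
    · rw [h0]
      simp only [Nat.cast_zero, div_zero]
      have h1 : 0 ≤ C * Real.log T ^ 2 := by positivity
      have h2 : 0 ≤ C * Real.log T / T := by positivity
      linarith
    · refine le_trans ?_ (hdivlow N h0)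
      have h1 : C * Real.log T ^ 2 / N ≤ C * Real.log T ^ 2 :=
        div_le_self (by positivity) (by exact_mod_cast h0)
      have h2 : -(C * Real.log T ^ 2) / N = -(C * Real.log T ^ 2 / N) := by ring
      rw [h2]
      linarith
  have hlim := hsub.tendsto_lim hbdd
  have hz : ∀ c : ℝ, Tendsto (fun N : ℕ => c / (N : ℝ)) atTop (𝓝 0) := fun c =>
    tendsto_const_nhds.div_atTop tendsto_natCast_atTop_atTop
  refine ⟨-hsub.lim, ?_, ?_, ?_, ?_⟩
  · refine hlim.neg.congr fun N => ?_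
    simp only [hu]
    ring
  · intro N hN
    have hN0 : (0 : ℝ) < N := by exact_mod_cast hN
    have h1 := hsub.lim_le_div hbdd (n := N) (by omega)
    rw [← Real.le_log_iff_exp_le (hpos N)]
    rw [le_div_iff₀ hN0] at h1
    have h2 : u N = Real.log (G T N) := by rw [hu]
    rw [h2] at h1
    linarith
  · have h1 : hsub.lim ≤ 0 - 1 / (3 * T) := by
      apply le_of_tendsto_of_tendsto hlim ((hz (C * Real.log T ^ 2)).sub_const (1 / (3 * (T : ℝ))))
      filter_upwards [eventually_ge_atTop 1] with N hN using hdivup N hN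
    linarith
  · have h1 : 0 - C * Real.log T / T ≤ hsub.lim := by
      apply le_of_tendsto_of_tendsto ((hz (-(C * Real.log T ^ 2))).sub_const
        (C * Real.log T / (T : ℝ))) hlim
      filter_upwards [eventually_ge_atTop 1] with N hN using hdivlow N hN
    have h2 : C * Real.log T / T ≤ (C + 1) * Real.log T / T := by
      apply div_le_div_of_nonneg_right _ hT0.le
      nlinarith
    linarith

end Pool.Agent.X130.ST
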