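import Pool.Agent.X130.ST.G

set_option autoImplicit false

/-! Galleries of triangles at a general fugacity; snakes. -/

namespace Pool.Agent.X130.ST

open H978R2.Hex hiding Strip
open Pool.Agent.W818.TD hiding Up
open Pool.Agent.W832.HR hiding nbr_trans
open Filter Topology
open scoped ENNReal

/-- **galleries** -/
theorem gallery {x : ℝ≥0∞} {n : ℕ} {κ : ℝ≥0∞}
    (hκ : ∀ s s', s ≠ s' → κ ≤ Zx x (Tri n) (mid0 n s) (mid0 n s')) {o : V}
    (ho : (o.1 + o.2) % 2 = 0) (c : ℕ → Ch) (s : ℕ → Sd) (m : ℕ)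
    (hs : ∀ i ≤ m, s i ≠ s (i + 1)) (hc : ∀ i < m, c (i + 1) = nb (c i) (s (i + 1)))
    (hi : ∀ i ≤ m, ∀ j ≤ m, c i = c j → i = j) :
    κ * (x * κ) ^ m ≤ Zx x {p | ∃ i ≤ m, p ∈ cell n o (c i)} (port n o (c 0) (s 0))
      (port n o (c m) (s (m + 1))) := by
  induction m with
  | zero =>
    rw [pow_zero, mul_one]
    refine (Zx_cell hκ ho (c 0) (hs 0 le_rfl)).trans (Zx_mono ?_ _ _)
    intro p hp
    exact ⟨0, le_rfl, hp⟩
  | succ m ih =>
    have h1 := ih (fun i hi => hs i (by omega)) (fun i hi => hc i (by omega))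
      (fun i hi' j hj => hi i (by omega) j (by omega))
    have h2 := Zx_cell hκ ho (c (m + 1)) (hs (m + 1) le_rfl)
    have h3 : x * (Zx x {p | ∃ i ≤ m, p ∈ cell n o (c i)} (port n o (c 0) (s 0))
        (port n o (c m) (s (m + 1))) * Zx x (cell n o (c (m + 1)))
        (port n o (c (m + 1)) (s (m + 1))) (port n o (c (m + 1)) (s (m + 1 + 1)))) ≤
        Zx x {p | ∃ i ≤ m + 1, p ∈ cell n o (c i)} (port n o (c 0) (s 0))
        (port n o (c (m + 1)) (s (m + 1 + 1))) := by
      apply Zx_concat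
      · have := port_nbr ho (c m) (s (m + 1)) (n := n)
        rw [← hc m (by omega)] at this
        exact this
      · rw [Set.disjoint_left]
        rintro p ⟨i, hi', hp⟩ hp'
        have hne : c i ≠ c (m + 1) := by
          intro h
          have := hi i (by omega) (m + 1) le_rfl h
          omega
        exact Set.disjoint_left.1 (cell_disj hne) hp hp'
      · rintro p ⟨i, hi', hp⟩
        exact ⟨i, by omega, hp⟩
      · intro p hp
        exact ⟨m + 1, le_rfl, hp⟩
    refine le_trans ?_ h3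
    calc κ * (x * κ) ^ (m + 1) = x * ((κ * (x * κ) ^ m) * κ) := by ring
      _ ≤ _ := by gcongr

/-- cells of a double row -/
def cc (N W : ℕ) (r : ℕ) : Ch :=
  if r < 2 * N + 2 then (((r / 2 : ℕ) : ℤ), (W : ℤ), decide (r % 2 = 1))
  else ((N : ℤ) - ((r - (2 * N + 2) + 1) / 2 : ℕ), (W : ℤ) + 1, decide (r % 2 = 1))

/-- sides of a double row -/
def ss (N : ℕ) (r : ℕ) : Sd :=
  if r = 0 then .B else if r < 2 * N + 2 then (if r % 2 = 1 then .L else .R)
  else if r = 2 * N + 2 then .B else if r < 4 * N + 2 then (if r % 2 = 1 then .R else .L) else .B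

/-- the cells of the first rows -/
def Rows (n N W k : ℕ) : Set V :=
  {p | ∃ c : Ch, 0 ≤ c.1 ∧ c.1 ≤ N ∧ (W : ℤ) ≤ c.2.1 ∧ c.2.1 < W + k ∧ p ∈ cell n (0, 0) c}

theorem ss_ne (N : ℕ) (hN : 1 ≤ N) (r : ℕ) (hr : r ≤ 4 * N + 1) : ss N r ≠ ss N (r + 1) := by
  unfold ss
  split_ifs <;> first | (exfalso; omega) | simp

theorem cc_nb (N W : ℕ) (hN : 1 ≤ N) (r : ℕ) (hr : r < 4 * N + 1) :
    cc N W (r + 1) = nb (cc N W r) (ss N (r + 1)) := by
  unfold ss cc
  rcases Nat.lt_trichotomy r (2 * N + 1) with h | h | h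
  · rw [if_pos (by omega), if_pos (by omega), if_neg (by omega), if_pos (by omega)]
    rcases Nat.mod_two_eq_zero_or_one r with h1 | h1
    · rw [if_pos (by omega)]
      have e1 : decide (r % 2 = 1) = false := by simp [h1]
      have e2 : decide ((r + 1) % 2 = 1) = true := by simp; omega
      rw [e1, e2]
      simp only [nb]
      have e3 : (r + 1) / 2 = r / 2 := by omega
      rw [e3]
    · rw [if_neg (by omega)]
      have e1 : decide (r % 2 = 1) = true := by simp [h1]
      have e2 : decide ((r + 1) % 2 = 1) = false := by simp; omega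
      rw [e1, e2]
      simp only [nb]
      have e3 : (r + 1) / 2 = r / 2 + 1 := by omega
      rw [e3]
      push_cast
      rfl
  · rw [if_neg (by omega), if_pos (by omega), if_neg (by omega), if_neg (by omega),
      if_pos (by omega)]
    have e1 : decide (r % 2 = 1) = true := by simp; omega
    have e2 : decide ((r + 1) % 2 = 1) = false := by simp; omega
    rw [e1, e2]
    simp only [nb]
    have e3 : r / 2 = N := by omega
    have e4 : (r + 1 - (2 * N + 2) + 1) / 2 = 0 := by omega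
    rw [e3, e4]
    simp
  · rw [if_neg (by omega), if_neg (by omega), if_neg (by omega), if_neg (by omega),
      if_neg (by omega), if_pos (by omega)]
    rcases Nat.mod_two_eq_zero_or_one r with h1 | h1
    · rw [if_pos (by omega)]
      have e1 : decide (r % 2 = 1) = false := by simp [h1]
      have e2 : decide ((r + 1) % 2 = 1) = true := by simp; omega
      rw [e1, e2]
      simp only [nb]
      have e3 : (r + 1 - (2 * N + 2) + 1) / 2 = (r - (2 * N + 2) + 1) / 2 + 1 := by omega
      rw [e3]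
      push_cast
      ring_nf
    · rw [if_neg (by omega)]
      have e1 : decide (r % 2 = 1) = true := by simp [h1]
      have e2 : decide ((r + 1) % 2 = 1) = false := by simp; omega
      rw [e1, e2]
      simp only [nb]
      have e3 : (r + 1 - (2 * N + 2) + 1) / 2 = (r - (2 * N + 2) + 1) / 2 := by omega
      rw [e3]

theorem cc_inj (N W : ℕ) (r : ℕ) (hr : r ≤ 4 * N + 1) (r' : ℕ) (hr' : r' ≤ 4 * N + 1)
    (h : cc N W r = cc N W r') : r = r' := by
  unfold cc at h
  have key : ∀ {b b' : Bool} {y y' w w' : ℤ}, ((y, w, b) : Ch) = (y', w', b') →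
      y = y' ∧ w = w' ∧ b = b' := by
    intro b b' y y' w w' h
    simp only [Prod.mk.injEq] at h
    exact h
  split_ifs at h with h1 h2 h2
  · obtain ⟨a1, a2, a3⟩ := key h
    rw [decide_eq_decide] at a3
    omega
  · obtain ⟨a1, a2, a3⟩ := key h
    omega
  · obtain ⟨a1, a2, a3⟩ := key h
    omega
  · obtain ⟨a1, a2, a3⟩ := key h
    rw [decide_eq_decide] at a3
    omega

/-- **double row** -/
theorem double_row {x : ℝ≥0∞} {n : ℕ} {κ : ℝ≥0∞}
    (hκ : ∀ s s', s ≠ s' → κ ≤ Zx x (Tri n) (mid0 n s) (mid0 n s')) (N W : ℕ) (hN : 1 ≤ N) :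
    κ * (x * κ) ^ (4 * N + 1) ≤ Zx x (Rows n N W 2) (port n (0, 0) (0, (W : ℤ), false) .B)
      (port n (0, 0) (0, (W : ℤ) + 1, true) .B) := by
  have h := gallery hκ (o := (0, 0)) (by simp) (cc N W) (ss N) (4 * N + 1)
    (fun i hi => ss_ne N hN i hi) (fun i hi => cc_nb N W hN i hi)
    (fun i hi j hj => cc_inj N W i hi j hj)
  have e1 : cc N W 0 = (0, (W : ℤ), false) := by
    unfold cc
    rw [if_pos (by omega)]
    simp
  have e2 : ss N 0 = .B := by
    unfold ss
    rw [if_pos rfl]
  have e3 : cc N W (4 * N + 1) = (0, (W : ℤ) + 1, true) := by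
    unfold cc
    rw [if_neg (by omega)]
    have e4 : (4 * N + 1 - (2 * N + 2) + 1) / 2 = N := by omega
    have e5 : (4 * N + 1) % 2 = 1 := by omega
    rw [e4, e5]
    simp
  have e4 : ss N (4 * N + 1 + 1) = .B := by
    unfold ss
    rw [if_neg (by omega), if_neg (by omega), if_neg (by omega), if_neg (by omega)]
  rw [e1, e2, e3, e4] at h
  refine h.trans (Zx_mono ?_ _ _)
  rintro p ⟨i, hi, hp⟩
  refine ⟨cc N W i, ?_, ?_, ?_, ?_, hp⟩
  · unfold cc
    split_ifs
    · simp only; omega
    · simp only; omega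
  · unfold cc
    split_ifs
    · simp only; omega
    · simp only; omega
  · unfold cc
    split_ifs
    · simp only; omega
    · simp only; omega
  · unfold cc
    split_ifs
    · simp only; omega
    · simp only; omega

/-- **snakes** -/
theorem snake {x : ℝ≥0∞} {n : ℕ} {κ : ℝ≥0∞}
    (hκ : ∀ s s', s ≠ s' → κ ≤ Zx x (Tri n) (mid0 n s) (mid0 n s')) (N : ℕ) (hN : 1 ≤ N) (q : ℕ) :
    κ * (x * κ) ^ ((4 * N + 2) * q + (4 * N + 1)) ≤ Zx x (Rows n N 0 (2 * (q + 1)))
      (port n (0, 0) (0, 0, false) .B)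
      (port n (0, 0) (0, 2 * (q : ℤ) + 1, true) .B) := by
  induction q with
  | zero =>
    have h := double_row hκ N 0 hN
    simpa using h
  | succ q ih =>
    have h1 := double_row hκ N (2 * (q + 1)) hN
    have h3 : x * (Zx x (Rows n N 0 (2 * (q + 1)))
      (port n (0, 0) (0, 0, false) .B)
      (port n (0, 0) (0, 2 * (q : ℤ) + 1, true) .B) * Zx x (Rows n N (2 * (q + 1)) 2)
        (port n (0, 0) (0, ((2 * (q + 1) : ℕ) : ℤ), false) .B)
        (port n (0, 0) (0, ((2 * (q + 1) : ℕ) : ℤ) + 1, true) .B)) ≤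
        Zx x (Rows n N 0 (2 * (q + 1 + 1))) (port n (0, 0) (0, 0, false) .B)
        (port n (0, 0) (0, ((2 * (q + 1) : ℕ) : ℤ) + 1, true) .B) := by
      apply Zx_concat
      · have := port_nbr (n := n) (o := (0, 0)) (by simp) (0, 2 * (q : ℤ) + 1, true) .B
        have e : nb (0, 2 * (q : ℤ) + 1, true) .B = (0, ((2 * (q + 1) : ℕ) : ℤ), false) := by
          simp only [nb]
          push_cast
          ring_nf
        rw [e] at this
        exact this
      · rw [Set.disjoint_left]
        rintro p ⟨c, h0, h1, h2, h3, hp⟩ ⟨c', h0', h1', h2', h3', hp'⟩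
        have hne : c ≠ c' := by
          intro h
          rw [h] at h3
          push_cast at h3 h2'
          omega
        exact Set.disjoint_left.1 (cell_disj hne) hp hp'
      · rintro p ⟨c, h0, h1, h2, h3, hp⟩
        refine ⟨c, h0, h1, h2, ?_, hp⟩
        push_cast at h3 ⊢
        omega
      · rintro p ⟨c, h0, h1, h2, h3, hp⟩
        refine ⟨c, h0, h1, ?_, ?_, hp⟩
        · push_cast at h2 ⊢
          omega
        · push_cast at h3 ⊢
          omega
    have e5 : (2 * ((q + 1 : ℕ) : ℤ) + 1) = ((2 * (q + 1) : ℕ) : ℤ) + 1 := by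
      push_cast
      ring
    rw [e5]
    refine le_trans ?_ h3
    calc κ * (x * κ) ^ ((4 * N + 2) * (q + 1) + (4 * N + 1))
        = x * ((κ * (x * κ) ^ ((4 * N + 2) * q + (4 * N + 1))) * (κ * (x * κ) ^ (4 * N + 1))) := by
          ring
      _ ≤ _ := by gcongr

end Pool.Agent.X130.ST
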