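import Pool.Agent.X130.ST.O

set_option autoImplicit false

/-! The weight of a large triangle above the critical fugacity. -/

namespace Pool.Agent.X130.ST

open H978R2.Hex hiding Strip
open Pool.Agent.W818.TD hiding Up
open Pool.Agent.W832.HR hiding nbr_trans
open Filter Topology
open scoped ENNReal

theorem Zx_mono_x {x y : ℝ≥0∞} (h : x ≤ y) (D : Set V) (a b : V) : Zx x D a b ≤ Zx y D a b := by
  unfold Zx
  apply ENNReal.tsum_le_tsum
  intro l
  exact pow_le_pow_left₀ zero_le h _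

theorem block_large : ∃ c₀ : ℝ, 0 < c₀ ∧ c₀ ≤ 1 ∧ ∀ᶠ T : ℕ in atTop, ∀ t' : ℝ,
    (T : ℝ) ^ (-1 - c₀ / Real.log (Real.log T)) ≤ t' →
    ∃ κ : ℝ, 1 ≤ κ ∧ 3 ≤ mu0⁻¹ * Real.exp t' * κ ∧ ∀ s s' : Sd, s ≠ s' →
      ENNReal.ofReal κ ≤ Zx (ENNReal.ofReal (mu0⁻¹ * Real.exp t')) (Tri ((T - 1) / 2))
        (mid0 ((T - 1) / 2) s) (mid0 ((T - 1) / 2) s') := by
  obtain ⟨c, C, hc, hc1, hC, -, hP, -⟩ := Y981.QB.fin2
  obtain ⟨K, hK, hS⟩ := saws_upper
  refine ⟨c / 8, by positivity, by linarith, ?_⟩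
  filter_upwards [large c K C hc hC] with T hT t' ht'
  obtain ⟨hT1, hu1, hLu, hL2, hT45⟩ := hT
  have hmu := mu0_pos
  have hT0 : (0 : ℝ) < T := by exact_mod_cast (by omega : 0 < T)
  obtain ⟨L, hL⟩ : ∃ L, L = Real.log (T : ℝ) := ⟨_, rfl⟩
  obtain ⟨u, hu⟩ : ∃ u, u = Real.log L := ⟨_, rfl⟩
  rw [← hL] at hLu hL2 hT45 hu1
  rw [← hL] at ht'
  rw [← hu] at hLu hu1
  rw [← hu] at ht'
  have hL1 : 16 * u ^ 2 ≤ c * L := by
    rw [div_mul_eq_mul_div, div_le_iff₀ hc] at hLu
    linarith
  have hLpos : 0 < L := by nlinarith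
  have hexpL : Real.exp L = T := by rw [hL, Real.exp_log hT0]
  have hexpu : Real.exp u = L := by rw [hu, Real.exp_log hLpos]
  have hq : 16 * u ≤ c * L / u := by
    rw [le_div_iff₀ (by linarith)]
    nlinarith
  obtain ⟨v, hv⟩ : ∃ v, v = c * L / u := ⟨_, rfl⟩
  rw [← hv] at hq
  have hvL : v ≤ L := by
    rw [hv, div_le_iff₀ (by linarith)]
    nlinarith
  -- the size of the triangles
  obtain ⟨n, hn⟩ : ∃ n, n = (T - 1) / 2 := ⟨_, rfl⟩
  have hnT : 2 * n + 1 ≤ T := by omega
  have hn16 : 16 ≤ n := by omega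
  have hn3 : (T : ℝ) / 3 ≤ n := by
    have : T ≤ 3 * n := by omega
    have : (T : ℝ) ≤ 3 * n := by exact_mod_cast this
    linarith
  have hn1 : (n : ℝ) + 1 ≤ T := by
    have : n + 1 ≤ T := by omega
    exact_mod_cast this
  -- the number of steps
  obtain ⟨M, hM⟩ : ∃ M : ℝ, M = Real.exp (L + v / 4) := ⟨_, rfl⟩
  obtain ⟨m, hm⟩ : ∃ m : ℕ, m = ⌊M⌋₊ := ⟨_, rfl⟩
  have hM0 : 0 < M := by rw [hM]; exact Real.exp_pos _
  have hmM : (m : ℝ) ≤ M := by rw [hm]; exact Nat.floor_le hM0.le
  have hMm : M - 1 ≤ m := by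
    have := Nat.lt_floor_add_one M
    rw [← hm] at this
    linarith
  obtain ⟨w, hw⟩ : ∃ w : ℝ, w = Real.exp (K * (2 * L) ^ 2) * (C * Real.exp (-(n : ℝ) ^ (4 / 5 : ℝ))) :=
    ⟨_, rfl⟩
  have hw0 : 0 ≤ w := by rw [hw]; positivity
  -- few steps
  have hwk : ∀ k, n ≤ k → k < m →
      ({ω ∈ saws k | (n : ℝ) ≤ Y981.QB.diam ω}.ncard : ℝ) * (mu0⁻¹) ^ k ≤ w := by
    intro k hk1 hk2
    have hk16 : 16 ≤ k := hn16.trans hk1
    have hk0 : (0 : ℝ) < k := by exact_mod_cast (by omega : 0 < k)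
    have hnk : (n : ℝ) ≤ k := by exact_mod_cast hk1
    have hkM : (k : ℝ) ≤ M := by
      have : (k : ℝ) ≤ m := by exact_mod_cast hk2.le
      linarith
    have hlk : Real.log k ≤ L + v / 4 := by
      rw [Real.log_le_iff_le_exp hk0, ← hM]
      exact hkM
    have hlk2 : Real.log k ≤ 2 * L := by linarith
    have hllk1 := loglog_ge hk16
    have hlk0 : 0 < Real.log k := by
      by_contra hcon
      push Not at hcon
      have h16 : (1 : ℝ) < k := by exact_mod_cast (by omega : 1 < k)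
      have := Real.log_pos h16
      linarith
    have hllk2 : Real.log (Real.log k) ≤ 2 * u := by
      have h1 := Real.log_le_log hlk0 hlk2
      rw [Real.log_mul (by norm_num) hLpos.ne', ← hu] at h1
      have := Real.log_two_lt_d9
      linarith
    have hpow : (k : ℝ) ^ (1 - c / Real.log (Real.log k)) ≤ n := by
      rw [Real.rpow_def_of_pos hk0]
      have h1 : c / (2 * u) ≤ c / Real.log (Real.log k) :=
        div_le_div_of_nonneg_left hc.le (by linarith) hllk2
      have h2 : 0 ≤ 1 - c / (2 * u) := by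
        rw [sub_nonneg, div_le_one (by linarith)]
        linarith
      have h3 : Real.log k * (1 - c / Real.log (Real.log k)) ≤ L - 4 := by
        calc Real.log k * (1 - c / Real.log (Real.log k)) ≤ Real.log k * (1 - c / (2 * u)) :=
              mul_le_mul_of_nonneg_left (by linarith) hlk0.le
          _ ≤ (L + v / 4) * (1 - c / (2 * u)) := mul_le_mul_of_nonneg_right hlk h2
          _ = L + v / 4 - v / 2 - v / 4 * (c / (2 * u)) := by
              rw [hv]
              field_simp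
              ring
          _ ≤ L - 4 := by
              have h4 : 0 ≤ v / 4 * (c / (2 * u)) := by
                have : 0 ≤ v := by linarith
                positivity
              linarith
      calc Real.exp (Real.log k * (1 - c / Real.log (Real.log k))) ≤ Real.exp (L - 4) :=
            Real.exp_le_exp.2 h3
        _ = T * Real.exp (-4) := by rw [sub_eq_add_neg, Real.exp_add, hexpL]
        _ ≤ T * (1 / 3) := by
            apply mul_le_mul_of_nonneg_left _ hT0.le
            rw [Real.exp_neg, one_div]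
            apply inv_anti₀ (by norm_num)
            have := Real.add_one_le_exp (4 : ℝ)
            linarith
        _ ≤ n := by linarith
    have hprob : Y981.QB.prob k (fun ω => (n : ℝ) ≤ Y981.QB.diam ω) ≤
        C * Real.exp (-(k : ℝ) ^ (4 / 5 : ℝ)) :=
      (Y981.QB.prob_mono fun ω _ hω => hpow.trans hω).trans (hP k hk16)
    have hsaw : (0 : ℝ) < (saws k).ncard := by
      have h1 : 1 ≤ F k := by
        have h2 := one_le_cs (T := 1) le_rfl k
        by_contra hcon
        have h3 : F k = 0 := by omega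
        have h4 : cs 1 k = 0 := by
          unfold cs
          apply Finset.sum_eq_zero
          intro h _
          have := cw_le_F (Strip 1) ((h : ℤ), 0) k
          omega
        omega
      have := F_le_saws k
      exact_mod_cast (by omega : 0 < (saws k).ncard)
    have e1 : ({ω ∈ saws k | (n : ℝ) ≤ Y981.QB.diam ω}.ncard : ℝ) =
        Y981.QB.prob k (fun ω => (n : ℝ) ≤ Y981.QB.diam ω) * ((saws k).ncard : ℝ) := by
      unfold Y981.QB.prob
      rw [div_mul_cancel₀ _ hsaw.ne']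
    have hmono : Real.exp (-(k : ℝ) ^ (4 / 5 : ℝ)) ≤ Real.exp (-(n : ℝ) ^ (4 / 5 : ℝ)) := by
      apply Real.exp_le_exp.2
      apply neg_le_neg
      exact Real.rpow_le_rpow (Nat.cast_nonneg n) hnk (by norm_num)
    have hs2 := hS k (by omega)
    have hs3 : Real.exp (K * Real.log k ^ 2) ≤ Real.exp (K * (2 * L) ^ 2) := by
      apply Real.exp_le_exp.2
      apply mul_le_mul_of_nonneg_left _ hK
      exact pow_le_pow_left₀ hlk0.le hlk2 2
    rw [e1, mul_assoc, hw, mul_comm]
    apply mul_le_mul (hs2.trans hs3) (hprob.trans (mul_le_mul_of_nonneg_left hmono hC.le)) _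
      (Real.exp_pos _).le
    unfold Y981.QB.prob
    positivity
  have hmw : m * w ≤ 1 / (256 * ((n : ℝ) + 1) ^ 3) := by
    have h1 : (m : ℝ) ≤ Real.exp (2 * L) := by
      refine hmM.trans ?_
      rw [hM]
      apply Real.exp_le_exp.2
      linarith
    have h2 : Real.exp (-(n : ℝ) ^ (4 / 5 : ℝ)) ≤ Real.exp (-((T : ℝ) / 3) ^ (4 / 5 : ℝ)) := by
      apply Real.exp_le_exp.2
      apply neg_le_neg
      exact Real.rpow_le_rpow (by positivity) hn3 (by norm_num)
    have h3 : 1 / (256 * (T : ℝ) ^ 3) ≤ 1 / (256 * ((n : ℝ) + 1) ^ 3) := by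
      apply one_div_le_one_div_of_le (by positivity)
      gcongr
    refine le_trans ?_ h3
    rw [hw]
    calc (m : ℝ) * (Real.exp (K * (2 * L) ^ 2) * (C * Real.exp (-(n : ℝ) ^ (4 / 5 : ℝ))))
        ≤ Real.exp (2 * L) * (Real.exp (K * (2 * L) ^ 2) *
          (C * Real.exp (-((T : ℝ) / 3) ^ (4 / 5 : ℝ)))) := by
          gcongr
      _ = Real.exp (2 * L + K * (2 * L) ^ 2 + Real.log C + -((T : ℝ) / 3) ^ (4 / 5 : ℝ)) := by
          rw [Real.exp_add, Real.exp_add, Real.exp_add, Real.exp_log hC]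
          ring
      _ ≤ Real.exp (-(3 * L) - Real.log 256) := by
          apply Real.exp_le_exp.2
          nlinarith
      _ = 1 / (256 * (T : ℝ) ^ 3) := by
          rw [Real.exp_sub, Real.exp_log (by norm_num), Real.exp_neg]
          have e : Real.exp (3 * L) = (T : ℝ) ^ 3 := by
            rw [← hexpL, ← Real.exp_nat_mul]
            norm_num
          rw [e]
          field_simp
  -- the fugacity
  obtain ⟨t, ht⟩ : ∃ t : ℝ, t = Real.exp (-L - v / 8) := ⟨_, rfl⟩
  have ht0 : 0 < t := by rw [ht]; exact Real.exp_pos _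
  have htT : (T : ℝ) ^ (-1 - c / 8 / u) = t := by
    rw [Real.rpow_def_of_pos hT0, ← hL, ht, hv]
    congr 1
    field_simp
  rw [htT] at ht'
  have htm : 3 * L + 19 ≤ t * m := by
    have h1 : t * M = Real.exp (v / 8) := by
      rw [ht, hM, ← Real.exp_add]
      congr 1
      ring
    have h2 : t ≤ 1 := by
      rw [ht, Real.exp_le_one_iff]
      linarith
    have h3 : L ^ 2 ≤ Real.exp (v / 8) := by
      calc L ^ 2 = Real.exp (2 * u) := by
            rw [← hexpu, ← Real.exp_nat_mul]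
            norm_num
        _ ≤ _ := Real.exp_le_exp.2 (by linarith)
    have h4 := mul_le_mul_of_nonneg_left hMm ht0.le
    rw [mul_sub, h1, mul_one] at h4
    linarith
  obtain ⟨κ, hκ⟩ : ∃ κ : ℝ, κ = Real.exp (t * m) * (1 / (256 * ((n : ℝ) + 1) ^ 3)) := ⟨_, rfl⟩
  have hκ0 : 0 < κ := by rw [hκ]; positivity
  have hx0 : 0 < mu0⁻¹ * Real.exp t := by positivity
  have h8 : 6 ≤ κ := by
    have h1 : (T : ℝ) ^ 3 * Real.exp 19 ≤ Real.exp (t * m) := by
      calc (T : ℝ) ^ 3 * Real.exp 19 = Real.exp (3 * L + 19) := by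
            rw [Real.exp_add]
            congr 1
            rw [← hexpL, ← Real.exp_nat_mul]
            norm_num
        _ ≤ _ := Real.exp_le_exp.2 htm
    have h2 : (1536 : ℝ) ≤ Real.exp 19 := by
      have h3 : Real.exp 19 = Real.exp 1 ^ 19 := by
        rw [← Real.exp_nat_mul]
        norm_num
      rw [h3]
      have h4 : (2 : ℝ) ≤ Real.exp 1 := by
        have := Real.add_one_le_exp (1 : ℝ)
        linarith
      calc (1536 : ℝ) ≤ 2 ^ 19 := by norm_num
        _ ≤ _ := pow_le_pow_left₀ (by norm_num) h4 19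
    have h7 : 1 / (256 * (T : ℝ) ^ 3) ≤ 1 / (256 * ((n : ℝ) + 1) ^ 3) := by
      apply one_div_le_one_div_of_le (by positivity)
      gcongr
    rw [hκ]
    calc (6 : ℝ) = ((T : ℝ) ^ 3 * 1536) * (1 / (256 * (T : ℝ) ^ 3)) := by
          field_simp
          norm_num
      _ ≤ Real.exp (t * m) * (1 / (256 * ((n : ℝ) + 1) ^ 3)) := by
          apply mul_le_mul _ h7 (by positivity) (Real.exp_pos _).le
          refine le_trans ?_ h1
          apply mul_le_mul_of_nonneg_left h2 (by positivity)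
  refine ⟨κ, by linarith, ?_, ?_⟩
  · have h5 : (1 : ℝ) / 2 ≤ mu0⁻¹ := by
      rw [one_div]
      exact inv_anti₀ hmu mu0_le_two
    have h6 : (1 : ℝ) ≤ Real.exp t' := Real.one_le_exp (by linarith)
    calc (3 : ℝ) = 1 / 2 * 1 * 6 := by norm_num
      _ ≤ _ := by gcongr
  · intro s s' hs
    rw [← hn]
    have h9 := block hs hw0 hwk hmw ht0.le
    rw [← hκ] at h9
    refine h9.trans (Zx_mono_x ?_ _ _ _)
    apply ENNReal.ofReal_le_ofReal
    gcongr

end Pool.Agent.X130.ST
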