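import Pool.Agent.X130.ST.P
import Pool.Agent.X130.ST.H

set_option autoImplicit false

/-! Walks in finite domains above the critical fugacity. -/

namespace Pool.Agent.X130.ST

open H978R2.Hex hiding Strip
open Pool.Agent.W818.TD hiding Up
open Pool.Agent.W832.HR hiding nbr_trans
open Filter Topology
open scoped ENNReal

/-- the walks in `D` with `n` steps and the property `A` -/
def SW (D : Finset V) (n : ℕ) (A : List V → Prop) : Set (List V) :=
  {l | (l.length = n + 1 ∧ l.Nodup ∧ l.IsChain Nbr ∧ ∀ p ∈ l, p ∈ D) ∧ A l}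

theorem SW_sub (D : Finset V) (n : ℕ) (A : List V → Prop) :
    SW D n A ⊆ ((D.biUnion fun a => wf (D : Set V) a n : Finset (List V)) : Set (List V)) := by
  rintro l ⟨⟨h1, h2, h3, h4⟩, -⟩
  rw [Finset.mem_coe, Finset.mem_biUnion]
  match l, h1, h2, h3, h4 with
  | p :: l, h1, h2, h3, h4 =>
    refine ⟨p, h4 p (by simp), ?_⟩
    rw [mem_wf]
    exact ⟨h1, rfl, h2, h3, fun q hq => h4 q hq⟩

theorem SW_finite (D : Finset V) (n : ℕ) (A : List V → Prop) : (SW D n A).Finite :=
  (Finset.finite_toSet _).subset (SW_sub D n A)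

noncomputable def sn (D : Finset V) (n : ℕ) (A : List V → Prop) : ℕ := (SW D n A).ncard

theorem sn_le (D : Finset V) (n : ℕ) (A : List V → Prop) : sn D n A ≤ D.card * F n := by
  unfold sn
  refine (Set.ncard_le_ncard (SW_sub D n A) (Finset.finite_toSet _)).trans ?_
  rw [Set.ncard_coe_finset]
  refine Finset.card_biUnion_le.trans ?_
  calc ∑ a ∈ D, (wf (D : Set V) a n).card ≤ ∑ _a ∈ D, F n :=
        Finset.sum_le_sum fun a _ => cw_le_F _ _ _
    _ = _ := by rw [Finset.sum_const, smul_eq_mul]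

/-- the weight of the walks with the property `A` -/
noncomputable def ZA (x : ℝ) (D : Finset V) (A : List V → Prop) : ℝ :=
  ∑ n ∈ Finset.range D.card, (sn D n A : ℝ) * x ^ n

/-- upper bound -/
theorem ZA_up {K : ℝ} (hK : ∀ n : ℕ, ∀ k ≤ n,
    (F k : ℝ) * (mu0⁻¹) ^ k ≤ Real.exp (K * Real.log (n + 2) ^ 2)) {t M : ℝ} (ht : 0 ≤ t)
    (hM : 0 ≤ M) (D : Finset V) (A : List V → Prop)
    (hA : ∀ n, ∀ l ∈ SW D n A, (n : ℝ) ≤ M) :
    ZA (mu0⁻¹ * Real.exp t) D A ≤
      (D.card : ℝ) ^ 2 * Real.exp (K * Real.log (D.card + 2) ^ 2) * Real.exp (t * M) := by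
  have hmu := mu0_pos
  unfold ZA
  calc ∑ n ∈ Finset.range D.card, (sn D n A : ℝ) * (mu0⁻¹ * Real.exp t) ^ n
      ≤ ∑ _n ∈ Finset.range D.card,
        (D.card : ℝ) * Real.exp (K * Real.log (D.card + 2) ^ 2) * Real.exp (t * M) := by
        apply Finset.sum_le_sum
        intro n hn
        rw [Finset.mem_range] at hn
        rcases le_or_gt (n : ℝ) M with h | h
        · have h1 : (sn D n A : ℝ) ≤ D.card * F n := by exact_mod_cast sn_le D n A
          have h2 := hK D.card n hn.le
          have h3 : Real.exp t ^ n ≤ Real.exp (t * M) := by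
            rw [← Real.exp_nat_mul]
            apply Real.exp_le_exp.2
            rw [mul_comm]
            exact mul_le_mul_of_nonneg_left h ht
          calc (sn D n A : ℝ) * (mu0⁻¹ * Real.exp t) ^ n
              ≤ (D.card * F n) * (mu0⁻¹ * Real.exp t) ^ n :=
                mul_le_mul_of_nonneg_right h1 (by positivity)
            _ = D.card * (F n * (mu0⁻¹) ^ n) * Real.exp t ^ n := by rw [mul_pow]; ring
            _ ≤ _ := by gcongr
        · have h1 : sn D n A = 0 := by
            unfold sn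
            rw [Set.ncard_eq_zero (SW_finite D n A), Set.eq_empty_iff_forall_notMem]
            intro l hl
            have := hA n l hl
            linarith
          rw [h1]
          simp only [Nat.cast_zero, zero_mul]
          positivity
    _ = _ := by
        rw [Finset.sum_const, Finset.card_range, nsmul_eq_mul]
        ring

theorem Zx_le_ZA {x : ℝ} (hx : 0 < x) (D : Finset V) (a b : V) :
    Zx (ENNReal.ofReal x) (D : Set V) a b ≤ ENNReal.ofReal (ZA x D fun _ => True) := by
  classical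
  unfold Zx
  rw [ENNReal.tsum_eq_iSup_sum]
  apply iSup_le
  intro A
  obtain ⟨A', hA'⟩ : ∃ A' : Finset (List V), A' = A.image Subtype.val := ⟨_, rfl⟩
  have e1 : ∑ l ∈ A, ENNReal.ofReal x ^ (l.1.length - 1) =
      ENNReal.ofReal (∑ l ∈ A', x ^ (l.length - 1)) := by
    rw [ENNReal.ofReal_sum_of_nonneg (fun _ _ => by positivity), hA',
      Finset.sum_image (fun u _ v _ h => Subtype.ext h)]
    apply Finset.sum_congr rfl
    intro l _
    rw [ENNReal.ofReal_pow hx.le]
  rw [e1]
  apply ENNReal.ofReal_le_ofReal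
  have hmem : ∀ l ∈ A', l ∈ Traj (D : Set V) a b := by
    intro l hl
    rw [hA', Finset.mem_image] at hl
    obtain ⟨u, _, rfl⟩ := hl
    exact u.2
  have hsub : A' ⊆ (Finset.range D.card).biUnion
      (fun j => (SW_finite D j fun _ => True).toFinset) := by
    intro l hl
    have hl' := hmem l hl
    have hlen : 1 ≤ l.length := by
      have := hl'.1
      match l, this with
      | y :: s, _ => simp
    have hcard : l.length ≤ D.card := by
      rw [← List.toFinset_card_of_nodup hl'.2.2.1]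
      apply Finset.card_le_card
      intro p hp
      rw [List.mem_toFinset] at hp
      exact hl'.2.2.2.2 p hp
    rw [Finset.mem_biUnion]
    refine ⟨l.length - 1, Finset.mem_range.2 (by omega), ?_⟩
    rw [Set.Finite.mem_toFinset]
    exact ⟨⟨by omega, hl'.2.2.1, hl'.2.2.2.1, fun p hp => hl'.2.2.2.2 p hp⟩, trivial⟩
  calc ∑ l ∈ A', x ^ (l.length - 1)
      ≤ ∑ l ∈ (Finset.range D.card).biUnion (fun j => (SW_finite D j fun _ => True).toFinset),
        x ^ (l.length - 1) :=
        Finset.sum_le_sum_of_subset_of_nonneg hsub (fun _ _ _ => by positivity)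
    _ = ∑ j ∈ Finset.range D.card, ∑ l ∈ (SW_finite D j fun _ => True).toFinset,
        x ^ (l.length - 1) := by
        apply Finset.sum_biUnion
        intro i _ j _ hij
        rw [Function.onFun, Finset.disjoint_left]
        intro l hl hl'
        rw [Set.Finite.mem_toFinset] at hl hl'
        have := hl.1.1
        have := hl'.1.1
        omega
    _ = ∑ j ∈ Finset.range D.card, (sn D j fun _ => True : ℝ) * x ^ j := by
        apply Finset.sum_congr rfl
        intro j _
        have : ∀ l ∈ (SW_finite D j fun _ => True).toFinset, x ^ (l.length - 1) = x ^ j := by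
          intro l hl
          rw [Set.Finite.mem_toFinset] at hl
          rw [hl.1.1]
          rfl
        rw [Finset.sum_congr rfl this, Finset.sum_const, nsmul_eq_mul]
        unfold sn
        rw [Set.ncard_eq_toFinset_card _ (SW_finite D j fun _ => True)]
    _ = _ := rfl

/-- the rhombus -/
def Box (T R : ℕ) : Set V := {p | 1 ≤ p.1 - p.2 ∧ p.1 - p.2 ≤ 2 * T ∧ 0 ≤ p.2 ∧ p.2 < R}

theorem snake_lower {T R n N q : ℕ} (hR : (2 * n + 1) * (N + 1) ≤ R)
    (hT : 2 * (2 * n + 1) * (q + 1) ≤ T) (hN : 1 ≤ N) (D : Finset V)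
    (hD : ∀ p ∈ Box T R, p ∈ D) {x κ : ℝ} (hx : 0 < x) (hκ0 : 0 < κ)
    (hκ : ∀ s s', s ≠ s' →
      ENNReal.ofReal κ ≤ Zx (ENNReal.ofReal x) (Tri n) (mid0 n s) (mid0 n s')) :
    κ * (x * κ) ^ ((4 * N + 2) * q + (4 * N + 1)) ≤ ZA x D fun _ => True := by
  have h1 := snake hκ N hN q
  have h2 : Zx (ENNReal.ofReal x) (Rows n N 0 (2 * (q + 1)))
      (port n (0, 0) (0, 0, false) .B) (port n (0, 0) (0, 2 * (q : ℤ) + 1, true) .B) ≤
      Zx (ENNReal.ofReal x) (D : Set V) (port n (0, 0) (0, 0, false) .B + ((n : ℤ), (n : ℤ)))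
        (port n (0, 0) (0, 2 * (q : ℤ) + 1, true) .B + ((n : ℤ), (n : ℤ))) := by
    apply Zx_map (g := fun p => p + ((n : ℤ), (n : ℤ)))
    · intro p q hpq
      simpa using hpq
    · intro p q hpq
      exact nbr_trans (by simp only; omega) hpq
    · rintro p ⟨c, c1, c2, c3, c4, hp⟩
      apply hD
      obtain ⟨a1, a2, a3, a4, -, -⟩ := cell_coord hp
      have e1 : (tv n (0, 0) c).2 = (2 * (n : ℤ) + 1) * c.1 := by
        unfold tv
        simp
      have e2 : (tv n (0, 0) c).1 - (tv n (0, 0) c).2 = 2 * ((2 * (n : ℤ) + 1) * c.2.1) := by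
        unfold tv
        simp
      rw [e1] at a1 a2
      rw [e2] at a3 a4
      have b1 : 0 ≤ (2 * (n : ℤ) + 1) * c.1 := by positivity
      have b2 : (2 * (n : ℤ) + 1) * c.1 ≤ (2 * (n : ℤ) + 1) * N :=
        mul_le_mul_of_nonneg_left c2 (by positivity)
      have b3 : 0 ≤ (2 * (n : ℤ) + 1) * c.2.1 := by
        have : 0 ≤ c.2.1 := by simpa using c3
        positivity
      have b4 : (2 * (n : ℤ) + 1) * c.2.1 ≤ (2 * (n : ℤ) + 1) * (2 * (q + 1) - 1) := by
        apply mul_le_mul_of_nonneg_left _ (by positivity)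
        push_cast at c4
        omega
      have b5 : (2 * (n : ℤ) + 1) * (N + 1) ≤ R := by exact_mod_cast hR
      have b6 : 2 * (2 * (n : ℤ) + 1) * (q + 1) ≤ T := by exact_mod_cast hT
      refine ⟨?_, ?_, ?_, ?_⟩
      · simp only [Prod.fst_add, Prod.snd_add]
        omega
      · simp only [Prod.fst_add, Prod.snd_add]
        have e3 : (2 * (n : ℤ) + 1) * (2 * (q + 1) - 1) = 2 * (2 * (n : ℤ) + 1) * (q + 1) -
            (2 * (n : ℤ) + 1) := by ring
        rw [e3] at b4
        omega
      · simp only [Prod.snd_add]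
        omega
      · simp only [Prod.snd_add]
        have e3 : (2 * (n : ℤ) + 1) * (N + 1) = (2 * (n : ℤ) + 1) * N + (2 * (n : ℤ) + 1) := by ring
        rw [e3] at b5
        omega
    · rfl
    · rfl
  have h3 := (h1.trans h2).trans (Zx_le_ZA hx D _ _)
  have e1 : ENNReal.ofReal κ * (ENNReal.ofReal x * ENNReal.ofReal κ) ^
      ((4 * N + 2) * q + (4 * N + 1)) =
      ENNReal.ofReal (κ * (x * κ) ^ ((4 * N + 2) * q + (4 * N + 1))) := by
    rw [← ENNReal.ofReal_mul hx.le, ← ENNReal.ofReal_pow (by positivity),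
      ← ENNReal.ofReal_mul hκ0.le]
  rw [e1, ENNReal.ofReal_le_ofReal_iff] at h3
  · exact h3
  · unfold ZA
    exact Finset.sum_nonneg fun _ _ => by positivity

end Pool.Agent.X130.ST
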