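import Pool.Agent.X130.ST.Q

set_option autoImplicit false

/-! The dense phase near the critical fugacity. -/

namespace Pool.Agent.X130.ST

open H978R2.Hex hiding Strip
open Pool.Agent.W818.TD hiding Up
open Pool.Agent.W832.HR hiding nbr_trans
open Filter Topology
open scoped ENNReal

theorem box_card {T R : ℕ} {D : Finset V} (hD : ∀ p ∈ Box T R, p ∈ D) : 2 * T * R ≤ D.card := by
  have h : ((Finset.Icc 1 (2 * T)) ×ˢ (Finset.range R)).card ≤ D.card := by
    apply Finset.card_le_card_of_injOn (fun u : ℕ × ℕ => ((u.1 : ℤ) + u.2, (u.2 : ℤ)))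
    · rintro ⟨k, r⟩ hu
      rw [Finset.mem_coe, Finset.mem_product, Finset.mem_Icc, Finset.mem_range] at hu
      rw [Finset.mem_coe]
      apply hD
      refine ⟨?_, ?_, ?_, ?_⟩
      · simp only; omega
      · simp only; omega
      · simp only; omega
      · simp only; omega
    · rintro ⟨k, r⟩ _ ⟨k', r'⟩ _ h
      simp only [Prod.mk.injEq] at h ⊢
      omega
  rw [Finset.card_product, Nat.card_Icc, Finset.card_range, Nat.add_sub_cancel] at h
  exact h

theorem large3 (c K : ℝ) (B₀ : ℕ) (hc : 0 < c) : ∃ t₀ : ℝ, 0 < t₀ ∧ t₀ < 1 ∧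
    ∀ t : ℝ, 0 < t → t ≤ t₀ → ∀ l : ℝ, l = Real.log (1 / t) →
      16 ≤ l ∧ 1 ≤ Real.log l ∧ l ^ 2 ≤ Real.exp (c * l / Real.log l) ∧ 512 * K ≤ l ^ 2 ∧
      (B₀ : ℝ) ≤ Real.exp (l / 2) ∧
      ∀ z : ℝ, 2 / t ^ 2 ≤ z → 2 * Real.log z + K * Real.log (z + 2) ^ 2 ≤ Real.sqrt z := by
  have h3 : ∀ᶠ y : ℝ in atTop, 2 / c * Real.log y ^ 2 ≤ y := by
    have h := (Real.isLittleO_pow_log_id_atTop (n := 2)).bound (c := c / 2) (by positivity)
    filter_upwards [h, eventually_ge_atTop 0] with y hy hy0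
    rw [Real.norm_eq_abs, Real.norm_eq_abs, id, abs_of_nonneg (sq_nonneg _), abs_of_nonneg hy0] at hy
    rw [div_mul_eq_mul_div, div_le_iff₀ hc]
    linarith
  have h5 : ∀ᶠ z : ℝ in atTop, 2 * Real.log z + K * Real.log (z + 2) ^ 2 ≤ Real.sqrt z := by
    have hp : Tendsto (fun x : ℝ => x ^ (1 / 2 : ℝ)) atTop atTop := tendsto_rpow_atTop (by norm_num)
    have o1 : (fun x : ℝ => Real.log x ^ 2) =o[atTop] fun x => x ^ (1 / 2 : ℝ) := by
      have h := isLittleO_log_rpow_rpow_atTop (s := 1 / 2) 2 (by norm_num)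
      refine h.congr' ?_ (Filter.Eventually.of_forall fun _ => rfl)
      filter_upwards with x
      exact Real.rpow_natCast _ 2
    have o2 : (fun x : ℝ => Real.log x) =o[atTop] fun x => x ^ (1 / 2 : ℝ) :=
      isLittleO_log_rpow_atTop (by norm_num)
    have o4 := (o1.const_mul_left (4 * |K|)).add (o2.const_mul_left 2)
    filter_upwards [o4.bound one_pos, eventually_ge_atTop 2] with x hx hx0
    rw [Real.norm_eq_abs, Real.norm_eq_abs, abs_of_nonneg (Real.rpow_nonneg (by linarith) _),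
      one_mul, ← Real.sqrt_eq_rpow] at hx
    have h1 := (le_abs_self _).trans hx
    have h2 : Real.log (x + 2) ≤ 2 * Real.log x := by
      rw [← Real.log_rpow (by linarith)]
      apply Real.log_le_log (by linarith)
      have : x ^ (2 : ℝ) = x * x := by
        rw [Real.rpow_two]
        ring
      rw [this]
      nlinarith
    have h3 : 0 ≤ Real.log (x + 2) := Real.log_nonneg (by linarith)
    have h4 : Real.log (x + 2) ^ 2 ≤ (2 * Real.log x) ^ 2 := pow_le_pow_left₀ h3 h2 2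
    have h5 : K * Real.log (x + 2) ^ 2 ≤ |K| * (2 * Real.log x) ^ 2 :=
      mul_le_mul (le_abs_self K) h4 (sq_nonneg _) (abs_nonneg K)
    nlinarith
  obtain ⟨y₀, hy₀⟩ := eventually_atTop.1 h3
  obtain ⟨z₀, hz₀⟩ := eventually_atTop.1 h5
  obtain ⟨m, hm⟩ : ∃ m : ℝ, m = 16 + |y₀| + |z₀| + 512 * |K| + 2 * B₀ := ⟨_, rfl⟩
  have a1 := abs_nonneg y₀
  have a2 := abs_nonneg z₀
  have a3 := abs_nonneg K
  have a4 : (0 : ℝ) ≤ B₀ := Nat.cast_nonneg _
  have hm16 : 16 ≤ m := by rw [hm]; linarith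
  refine ⟨Real.exp (-m), Real.exp_pos _, ?_, ?_⟩
  · rw [Real.exp_lt_one_iff]
    linarith
  intro t ht ht0 l hl
  have hml : m ≤ l := by
    rw [hl, Real.le_log_iff_exp_le (by positivity), one_div, le_inv_comm₀ (Real.exp_pos _) ht,
      ← Real.exp_neg]
    exact ht0
  have hl16 : 16 ≤ l := hm16.trans hml
  have hlog : 1 ≤ Real.log l := by
    rw [Real.le_log_iff_exp_le (by linarith)]
    have := Real.exp_one_lt_d9
    linarith
  have hexp : Real.exp l = 1 / t := by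
    rw [hl, Real.exp_log (by positivity)]
  refine ⟨hl16, hlog, ?_, ?_, ?_, ?_⟩
  · have h1 := hy₀ l (by
      have := le_abs_self y₀
      linarith)
    have h2 : l ^ 2 = Real.exp (2 * Real.log l) := by
      rw [mul_comm, Real.exp_mul, Real.exp_log (by linarith)]
      norm_cast
    rw [h2]
    apply Real.exp_le_exp.2
    rw [le_div_iff₀ (by linarith)]
    rw [div_mul_eq_mul_div, div_le_iff₀ hc] at h1
    nlinarith
  · have := le_abs_self K
    nlinarith
  · have h1 := Real.add_one_le_exp (l / 2)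
    linarith
  · intro z hz
    apply hz₀
    have h1 := le_abs_self z₀
    have h2 : l ≤ 1 / t := by
      rw [← hexp]
      have := Real.add_one_le_exp l
      linarith
    have h3 : 1 / t ≤ 2 / t ^ 2 := by
      have ht1 : t ≤ 1 := by
        have : 1 ≤ 1 / t := by linarith
        rw [le_div_iff₀ ht] at this
        linarith
      rw [div_le_div_iff₀ ht (by positivity)]
      nlinarith
    linarith

theorem log_sq {A t l : ℝ} (hA0 : 0 < A) (ht : 0 < t) (hl : l = Real.log (1 / t)) (hl16 : 16 ≤ l)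
    (hAt : 2 ≤ A * t ^ 2) : Real.log A ^ 2 ≤ 8 * (A * t ^ 2 * l ^ 2) := by
  obtain ⟨a, ha⟩ : ∃ a : ℝ, a = A * t ^ 2 := ⟨_, rfl⟩
  rw [← ha] at hAt ⊢
  have e : Real.log A = Real.log a + 2 * l := by
    rw [ha, Real.log_mul hA0.ne' (by positivity), Real.log_pow, hl, one_div, Real.log_inv]
    push_cast
    ring
  have h2 : Real.log a ≤ 2 * Real.sqrt a := by
    have h3 := Real.log_le_sub_one_of_pos (Real.sqrt_pos.2 (by linarith : 0 < a))
    rw [Real.log_sqrt (by linarith)] at h3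
    linarith
  have h3 : 0 ≤ Real.log a := Real.log_nonneg (by linarith)
  have h4 : Real.log a ^ 2 ≤ 4 * a := by
    have h5 := pow_le_pow_left₀ h3 h2 2
    rw [mul_pow, Real.sq_sqrt (by linarith)] at h5
    linarith
  rw [e]
  have hl2 : 256 ≤ l ^ 2 := by nlinarith
  have h5 : a + l ^ 2 ≤ a * l ^ 2 := by nlinarith
  have h6 : (Real.log a + 2 * l) ^ 2 ≤ 2 * Real.log a ^ 2 + 8 * l ^ 2 := by
    have := sq_nonneg (Real.log a - 2 * l)
    linarith [this, (by ring : (Real.log a - 2 * l) ^ 2 =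
      2 * Real.log a ^ 2 + 8 * l ^ 2 - (Real.log a + 2 * l) ^ 2)]
  linarith

theorem card_cost {K K' z A : ℝ} (hK : 0 ≤ K) (hK' : K' = 9 * K + 4) (hz : 2 ≤ z) (hzA : z ≤ A ^ 2)
    (hA2 : 2 ≤ A) (hlogA1 : 1 ≤ Real.log A) :
    2 * Real.log z + K * Real.log (z + 2) ^ 2 ≤ K' * Real.log A ^ 2 := by
  have h2 : Real.log z ≤ 2 * Real.log A := by
    have h3 := Real.log_le_log (by linarith) hzA
    rw [Real.log_pow] at h3
    push_cast at h3
    exact h3
  have h3 : Real.log (z + 2) ≤ 3 * Real.log A := by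
    have h4 : z + 2 ≤ A ^ 3 := by
      have h5 : 2 * A ^ 2 ≤ A ^ 3 := by nlinarith [sq_nonneg A]
      nlinarith
    have h5 := Real.log_le_log (by linarith) h4
    rw [Real.log_pow] at h5
    push_cast at h5
    exact h5
  have h4 : 0 ≤ Real.log (z + 2) := Real.log_nonneg (by linarith)
  have h5 : Real.log (z + 2) ^ 2 ≤ (3 * Real.log A) ^ 2 := pow_le_pow_left₀ h4 h3 2
  have h6 := mul_le_mul_of_nonneg_left h5 hK
  have h7 : Real.log A ≤ Real.log A ^ 2 := by nlinarith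
  rw [hK']
  nlinarith

theorem main_cost {K' a l y L : ℝ} (hK' : 0 ≤ K') (ha : 0 ≤ a) (hL : L ≤ 8 * (a * l ^ 2))
    (hKl : 512 * K' ≤ l ^ 2) (hyl : l ^ 2 ≤ y) (hy : 128 ≤ y) :
    K' * L + 2 * (a * y) ≤ a * y ^ 2 / 8 := by
  have h2 : K' * L ≤ K' * (8 * (a * l ^ 2)) := mul_le_mul_of_nonneg_left hL hK'
  have h3 : 8 * K' * l ^ 2 + 2 * y ≤ y ^ 2 / 8 := by
    have h4 : 512 * K' * l ^ 2 ≤ y ^ 2 := by
      have h5 : 512 * K' * l ^ 2 ≤ l ^ 2 * l ^ 2 :=
        mul_le_mul_of_nonneg_right hKl (sq_nonneg _)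
      have h6 : l ^ 2 * l ^ 2 ≤ y * y := mul_le_mul hyl hyl (sq_nonneg _) (by linarith)
      nlinarith
    have h7 : 128 * y ≤ y ^ 2 := by nlinarith
    linarith
  have h5 := mul_le_mul_of_nonneg_left h3 ha
  have e1 : K' * (8 * (a * l ^ 2)) + 2 * (a * y) = a * (8 * K' * l ^ 2 + 2 * y) := by ring
  have e2 : a * y ^ 2 / 8 = a * (y ^ 2 / 8) := by ring
  rw [e2]
  linarith

theorem count_bound {r s : ℝ} {N q : ℕ} (hr : 64 ≤ r) (hs : 32 ≤ s) (hN : r < N + 1)
    (hq : s < q + 1) : 3 * (r * s) ≤ (4 * (N : ℝ) - 2) * q - 1 := by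
  have h1 : 4 * r - 6 ≤ 4 * (N : ℝ) - 2 := by linarith
  have h2 : s - 1 ≤ (q : ℝ) := by linarith
  have h3 : (4 * r - 6) * (s - 1) ≤ (4 * (N : ℝ) - 2) * q :=
    mul_le_mul h1 h2 (by linarith) (by linarith)
  have h4 : 3 * (r * s) + 1 ≤ (4 * r - 6) * (s - 1) := by nlinarith
  linarith

theorem area_bound {A T R M r s t y : ℝ} (hA : A = 2 * T * R) (hA0 : 0 < A) (hM : 0 < M)
    (hr : r = R / M) (hs : s = T / (2 * M)) (ht : 0 < t) (hy : 0 < y)
    (hMty : M * (t * y) ≤ 2) : A * t ^ 2 * y ^ 2 / 8 ≤ 3 * (r * s) := by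
  have e1 : r * s = A / (4 * M ^ 2) := by
    rw [hr, hs, hA]
    field_simp
    ring
  have h1 : M ^ 2 * (t * y) ^ 2 ≤ 4 := by
    have h2 : (M * (t * y)) ^ 2 ≤ 2 ^ 2 := pow_le_pow_left₀ (by positivity) hMty 2
    rw [mul_pow] at h2
    linarith
  rw [e1, mul_div_assoc', div_le_div_iff₀ (by norm_num) (by positivity)]
  have e2 : A * t ^ 2 * y ^ 2 * (4 * M ^ 2) = 4 * A * (M ^ 2 * (t * y) ^ 2) := by ring
  rw [e2]
  nlinarith

theorem fug_bound {c₀ c l lam b u : ℝ} (hc : c = c₀ / 2) (hc0 : 0 < c₀) (hc1 : c₀ ≤ 1)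
    (hlam : 1 ≤ lam) (hl : 0 < l) (hb : l - c * l / lam ≤ b) (hb0 : 0 < b) (hu0 : 0 < u)
    (hu : u ≤ lam) (hcl : c * l / lam ≤ l / 2) : b * (-1 - c₀ / u) ≤ -l := by
  have h2 : c₀ / lam ≤ c₀ / u := div_le_div_of_nonneg_left hc0.le hu0 hu
  have h3 : l ≤ (l - c * l / lam) * (1 + c₀ / lam) := by
    have e : (l - c * l / lam) * (1 + c₀ / lam) = l + (c₀ - c) * l / lam -
        c * c₀ * l / lam ^ 2 := by
      field_simp
      ring
    rw [e]
    have h4 : c * c₀ * l / lam ^ 2 ≤ (c₀ - c) * l / lam := by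
      rw [div_le_div_iff₀ (by positivity) (by linarith)]
      have h5 : c₀ - c = c := by rw [hc]; ring
      rw [h5]
      have h6 : c₀ ≤ lam := by linarith
      have hcp : 0 < c := by rw [hc]; positivity
      have h7 : 0 ≤ c * l * lam := by positivity
      have h8 := mul_le_mul_of_nonneg_left h6 h7
      calc c * c₀ * l * lam = c * l * lam * c₀ := by ring
        _ ≤ c * l * lam * lam := h8
        _ = _ := by ring
    linarith
  have h4 : (l - c * l / lam) * (1 + c₀ / lam) ≤ b * (1 + c₀ / u) := by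
    apply mul_le_mul hb (by linarith) (by positivity) hb0.le
  linarith

theorem ax_y {l y : ℝ} (hl : 16 ≤ l) (hy : l ^ 2 ≤ y) : 128 ≤ y := by nlinarith

theorem ax_cl {c c₀ l lam : ℝ} (hc : c = c₀ / 2) (hc1 : c₀ ≤ 1) (hl : 0 < l) (hlam : 1 ≤ lam) :
    c * l / lam ≤ l / 2 := by
  rw [div_le_iff₀ (by linarith)]
  have h1 : c ≤ 1 / 2 := by rw [hc]; linarith
  nlinarith

theorem ax_prod {a b : ℝ} (ha : 1 ≤ a) (hb : 1 ≤ b) : 2 ≤ 2 * (a * b) := by nlinarith

theorem ax_B {t y B : ℝ} (ht : 0 < t) (hy : 128 ≤ y) (hB : B ≤ 2 / (t * y)) : B ≤ 1 / t := by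
  refine hB.trans ?_
  rw [div_le_div_iff₀ (by positivity) ht]
  nlinarith

theorem ax_r {t y M R : ℝ} (ht : 0 < t) (hy : 128 ≤ y) (hM : 0 < M) (hMty : M * (t * y) ≤ 2)
    (hR : 1 ≤ t * R) : 64 * M ≤ R := by
  have h1 : M * t * 128 ≤ 2 := by
    have h2 : M * t * 128 ≤ M * t * y := mul_le_mul_of_nonneg_left hy (by positivity)
    linarith [(by ring : M * t * y = M * (t * y))]
  have h3 : 64 * M * t ≤ t * R := by linarith
  by_contra hcon
  push Not at hcon
  have := mul_lt_mul_of_pos_left hcon ht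
  linarith

theorem ax_1 {a y : ℝ} (ha : 0 ≤ a) (hy : 128 ≤ y) : a * y ≤ a * y ^ 2 / 8 := by
  have h1 : y ≤ y ^ 2 / 8 := by nlinarith
  have := mul_le_mul_of_nonneg_left h1 ha
  linarith [(by ring : a * (y ^ 2 / 8) = a * y ^ 2 / 8)]

theorem ax_2 {A z t : ℝ} (hA : A ≤ z) (hAt : 2 ≤ A * t ^ 2) : 2 ≤ z * t ^ 2 :=
  hAt.trans (mul_le_mul_of_nonneg_right hA (sq_nonneg t))

theorem ax_3 {z t : ℝ} (hz : 0 < z) (h : 1 ≤ t * Real.sqrt z) : Real.sqrt z ≤ t * z := by
  have h5 := Real.mul_self_sqrt hz.le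
  have h6 := Real.sqrt_nonneg z
  calc Real.sqrt z = 1 * Real.sqrt z := (one_mul _).symm
    _ ≤ t * Real.sqrt z * Real.sqrt z := mul_le_mul_of_nonneg_right h h6
    _ = t * z := by rw [mul_assoc, h5]

theorem ax_4 {A t : ℝ} (hA : 0 < A) (ht : 0 < t) (ht1 : t < 1) (hAt : 2 ≤ A * t ^ 2) : 2 ≤ A := by
  have h1 : t ^ 2 ≤ 1 := by nlinarith
  nlinarith

theorem ax_5 {t : ℝ} (ht : 0 < t) : (1 / t) ^ 2 ≤ 2 / t ^ 2 := by
  rw [div_pow, one_pow]
  gcongr
  norm_num

/-- **the dense phase** -/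
theorem dense : ∃ c t₀ : ℝ, 0 < c ∧ 0 < t₀ ∧ t₀ < 1 ∧ ∀ t : ℝ, 0 < t → t ≤ t₀ → ∀ T R : ℕ,
    1 / t ≤ T → 1 / t ≤ R → ∀ D : Finset V, (∀ p ∈ Box T R, p ∈ D) →
    (D.card : ℝ) ≤ (2 * T * R) ^ 2 →
    Real.exp (2 * T * R * t ^ (2 - c / Real.log (Real.log (1 / t)))) ≤
      ZA (mu0⁻¹ * Real.exp t) D (fun _ => True) ∧
    ZA (mu0⁻¹ * Real.exp t) D (fun _ => True) ≤ Real.exp (2 * t * D.card) ∧
    ZA (mu0⁻¹ * Real.exp t) D
      (fun l => (l.length : ℝ) ≤ 2 * T * R * t ^ (1 - c / Real.log (Real.log (1 / t)))) ≤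
      Real.exp (-(2 * T * R * t ^ (2 - c / Real.log (Real.log (1 / t))))) *
        ZA (mu0⁻¹ * Real.exp t) D (fun _ => True) := by
  obtain ⟨c₀, hc0, hc1, hbl⟩ := block_large
  obtain ⟨B₀, hB₀⟩ := eventually_atTop.1 hbl
  obtain ⟨K, hK, hF⟩ := F_quasi
  obtain ⟨c, hc⟩ : ∃ c : ℝ, c = c₀ / 2 := ⟨_, rfl⟩
  obtain ⟨K', hK'⟩ : ∃ K' : ℝ, K' = 9 * K + 4 := ⟨_, rfl⟩
  have hcpos : 0 < c := by rw [hc]; positivity
  obtain ⟨t₀, ht0, ht01, hlar⟩ := large3 c K' B₀ hcpos
  refine ⟨c, t₀, hcpos, ht0, ht01, ?_⟩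
  intro t htpos htt T R hT hR D hD hDc
  obtain ⟨l, hl⟩ : ∃ l, l = Real.log (1 / t) := ⟨_, rfl⟩
  obtain ⟨hl16, hlam, hyl, hKl, hBl, hz⟩ := hlar t htpos htt l hl
  rw [← hl]
  obtain ⟨lam, hla⟩ : ∃ lam, lam = Real.log l := ⟨_, rfl⟩
  rw [← hla] at hlam hyl ⊢
  obtain ⟨y, hy⟩ : ∃ y : ℝ, y = Real.exp (c * l / lam) := ⟨_, rfl⟩
  rw [← hy] at hyl
  have hmu := mu0_pos
  have hexpl : Real.exp l = 1 / t := by rw [hl, Real.exp_log (by positivity)]
  have hexpl' : Real.exp (-l) = t := by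
    rw [Real.exp_neg, hexpl, one_div, inv_inv]
  have hy0 : 0 < y := by rw [hy]; exact Real.exp_pos _
  have hy128 : 128 ≤ y := ax_y hl16 hyl
  have hyl2 : y ≤ Real.exp (l / 2) := by
    rw [hy]
    exact Real.exp_le_exp.2 (ax_cl hc hc1 (by linarith) hlam)
  have hp2 : t ^ (2 - c / lam) = t ^ 2 * y := by
    have h1 : t ^ (2 - c / lam) = Real.exp (Real.log t * (2 - c / lam)) :=
      Real.rpow_def_of_pos htpos _
    have h2 : Real.log t = -l := by
      rw [hl, one_div, Real.log_inv, neg_neg]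
    rw [h1, h2, hy]
    have h3 : t ^ 2 = Real.exp (-(2 * l)) := by
      rw [← hexpl', ← Real.exp_nat_mul]
      congr 1
      push_cast
      ring
    rw [h3, ← Real.exp_add]
    congr 1
    field_simp
    ring
  have hp1 : t ^ (1 - c / lam) = t * y := by
    have h1 : t ^ (1 - c / lam) = Real.exp (Real.log t * (1 - c / lam)) :=
      Real.rpow_def_of_pos htpos _
    have h2 : Real.log t = -l := by
      rw [hl, one_div, Real.log_inv, neg_neg]
    rw [h1, h2, hy]
    rw [← hexpl']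
    rw [← Real.exp_add]
    congr 1
    field_simp
    ring
  rw [hp2, hp1]
  have hT0 : (0 : ℝ) < T := lt_of_lt_of_le (by positivity) hT
  have hR0 : (0 : ℝ) < R := lt_of_lt_of_le (by positivity) hR
  have htT : 1 ≤ t * T := by
    rw [div_le_iff₀ htpos] at hT
    linarith
  have htR : 1 ≤ t * R := by
    rw [div_le_iff₀ htpos] at hR
    linarith
  obtain ⟨A, hA⟩ : ∃ A : ℝ, A = 2 * T * R := ⟨_, rfl⟩
  have hA0 : 0 < A := by rw [hA]; positivity
  have hAt : 2 ≤ A * t ^ 2 := by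
    have : A * t ^ 2 = 2 * ((t * T) * (t * R)) := by rw [hA]; ring
    rw [this]
    exact ax_prod htT htR
  have hDA : A ≤ D.card := by
    have := box_card hD
    rw [hA]
    exact_mod_cast this
  rw [← hA] at hDc ⊢
  -- the triangles
  obtain ⟨B, hB⟩ : ∃ B : ℕ, B = ⌈1 / (t * y)⌉₊ := ⟨_, rfl⟩
  have hty : 0 < t * y := by positivity
  have hB1 : 1 / (t * y) ≤ B := by rw [hB]; exact Nat.le_ceil _
  have hB2 : (B : ℝ) < 1 / (t * y) + 1 := by rw [hB]; exact Nat.ceil_lt_add_one (by positivity)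
  have hty1 : t * y ≤ 1 := by
    have h1 : t * y ≤ Real.exp (-l) * Real.exp (l / 2) := by
      rw [hexpl']
      exact mul_le_mul_of_nonneg_left hyl2 htpos.le
    rw [← Real.exp_add] at h1
    refine h1.trans ?_
    rw [Real.exp_le_one_iff]
    linarith
  have hB3 : (B : ℝ) ≤ 2 / (t * y) := by
    have : 1 ≤ 1 / (t * y) := by
      rw [le_div_iff₀ hty]
      linarith
    have e : 2 / (t * y) = 1 / (t * y) + 1 / (t * y) := by ring
    rw [e]
    linarith
  have hlogty : Real.log (1 / (t * y)) = l - c * l / lam := by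
    have e : 1 / (t * y) = Real.exp (l - c * l / lam) := by
      rw [Real.exp_sub, hexpl, ← hy]
      field_simp
    rw [e, Real.log_exp]
  have hBpos : (0 : ℝ) < B := lt_of_lt_of_le (by positivity) hB1
  have hBlarge : B₀ ≤ B := by
    have h1 : Real.exp (l / 2) ≤ 1 / (t * y) := by
      have e : 1 / (t * y) = Real.exp (l - c * l / lam) := by
        rw [Real.exp_sub, hexpl, ← hy]
        field_simp
      rw [e]
      apply Real.exp_le_exp.2
      have h2 : c * l / lam ≤ l / 2 := ax_cl hc hc1 (by linarith) hlam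
      linarith
    have h2 : (B₀ : ℝ) ≤ B := hBl.trans (h1.trans hB1)
    exact_mod_cast h2
  have hlogB1 : l - c * l / lam ≤ Real.log B := by
    rw [← hlogty]
    exact Real.log_le_log (by positivity) hB1
  have hlogB2 : Real.log B ≤ l := by
    have h1 : (B : ℝ) ≤ 1 / t := ax_B htpos hy128 hB3
    calc Real.log B ≤ Real.log (1 / t) := Real.log_le_log hBpos h1
      _ = l := hl.symm
  have hcl : c * l / lam ≤ l / 2 := ax_cl hc hc1 (by linarith) hlam
  have hlogB3 : 8 ≤ Real.log B := by linarith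
  have hllB1 : Real.log (Real.log B) ≤ lam := by
    rw [hla]
    exact Real.log_le_log (by linarith) hlogB2
  have hllB0 : 0 < Real.log (Real.log B) := Real.log_pos (by linarith)
  have hfug : (B : ℝ) ^ (-1 - c₀ / Real.log (Real.log B)) ≤ t := by
    have h1 : (B : ℝ) ^ (-1 - c₀ / Real.log (Real.log B)) =
        Real.exp (Real.log B * (-1 - c₀ / Real.log (Real.log B))) := Real.rpow_def_of_pos hBpos _
    rw [h1]
    rw [← hexpl']
    apply Real.exp_le_exp.2
    exact fug_bound hc hc0 hc1 hlam (by linarith) hlogB1 (by linarith) hllB0 hllB1 hcl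
  obtain ⟨κ, hκ1, hκx, hκ⟩ := hB₀ B hBlarge t hfug
  obtain ⟨n, hn⟩ : ∃ n : ℕ, n = (B - 1) / 2 := ⟨_, rfl⟩
  rw [← hn] at hκ
  have hBn : 2 * n + 1 ≤ B := by
    have : 0 < B := by exact_mod_cast hBpos
    omega
  obtain ⟨M, hM⟩ : ∃ M : ℝ, M = 2 * n + 1 := ⟨_, rfl⟩
  have hM1 : 1 ≤ M := by
    rw [hM]
    have : (0 : ℝ) ≤ n := Nat.cast_nonneg n
    linarith
  have hMB : M ≤ B := by
    rw [hM]
    exact_mod_cast hBn
  have hMty : M * (t * y) ≤ 2 := by
    have h1 := hMB.trans hB3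
    rwa [le_div_iff₀ hty] at h1
  obtain ⟨N', hN'⟩ : ∃ N' : ℕ, N' = R / (2 * n + 1) := ⟨_, rfl⟩
  obtain ⟨q', hq'⟩ : ∃ q' : ℕ, q' = T / (2 * (2 * n + 1)) := ⟨_, rfl⟩
  have hN1 : (2 * n + 1) * N' ≤ R := by rw [hN']; exact Nat.mul_div_le _ _
  have hN2 : (R : ℝ) < M * (N' + 1) := by
    have h1 := Nat.lt_mul_div_succ R (show 0 < 2 * n + 1 by omega)
    rw [← hN'] at h1
    rw [hM]
    exact_mod_cast h1
  have hq1 : 2 * (2 * n + 1) * q' ≤ T := by rw [hq']; exact Nat.mul_div_le _ _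
  have hq2 : (T : ℝ) < 2 * M * (q' + 1) := by
    have h1 := Nat.lt_mul_div_succ T (show 0 < 2 * (2 * n + 1) by omega)
    rw [← hq'] at h1
    rw [hM]
    exact_mod_cast h1
  obtain ⟨r, hr⟩ : ∃ r : ℝ, r = R / M := ⟨_, rfl⟩
  obtain ⟨s, hs⟩ : ∃ s : ℝ, s = T / (2 * M) := ⟨_, rfl⟩
  have hr64 : 64 ≤ r := by
    rw [hr, le_div_iff₀ (by linarith)]
    exact ax_r htpos hy128 (by linarith) hMty htR
  have hs32 : 32 ≤ s := by
    rw [hs, le_div_iff₀ (by linarith)]
    have := ax_r htpos hy128 (by linarith) hMty htT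
    linarith
  have hrN : r < N' + 1 := by
    rw [hr, div_lt_iff₀ (by linarith)]
    linarith
  have hsq : s < q' + 1 := by
    rw [hs, div_lt_iff₀ (by linarith)]
    linarith
  have hN63 : 63 ≤ N' := by
    have : (63 : ℝ) < N' := by linarith
    exact_mod_cast this.le
  have hq31 : 31 ≤ q' := by
    have : (31 : ℝ) < q' := by linarith
    exact_mod_cast this.le
  have hx0 : 0 < mu0⁻¹ * Real.exp t := by positivity
  have hlow := snake_lower (T := T) (R := R) (n := n) (N := N' - 1) (q := q' - 1)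
    (by rw [Nat.sub_add_cancel (by omega)]; exact hN1)
    (by rw [Nat.sub_add_cancel (by omega)]; exact hq1) (by omega) D hD hx0 (by linarith) hκ
  obtain ⟨E, hE⟩ : ∃ E : ℕ, E = (4 * (N' - 1) + 2) * (q' - 1) + (4 * (N' - 1) + 1) := ⟨_, rfl⟩
  rw [← hE] at hlow
  have hE1 : 3 * (r * s) ≤ E := by
    have e1 : (E : ℝ) = (4 * (N' : ℝ) - 2) * q' - 1 := by
      rw [hE]
      push_cast [Nat.cast_sub (show 1 ≤ N' by omega), Nat.cast_sub (show 1 ≤ q' by omega)]
      ring
    rw [e1]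
    exact count_bound hr64 hs32 hrN hsq
  have hrs : A * t ^ 2 * y ^ 2 / 8 ≤ 3 * (r * s) := by
    exact area_bound hA hA0 (by linarith) hr hs htpos hy0 hMty
  have hZ : Real.exp (A * t ^ 2 * y ^ 2 / 8) ≤ ZA (mu0⁻¹ * Real.exp t) D (fun _ => True) := by
    refine le_trans ?_ hlow
    have h1 : Real.exp (E : ℝ) ≤ κ * (mu0⁻¹ * Real.exp t * κ) ^ E := by
      have h2 : Real.exp (E : ℝ) = Real.exp 1 ^ E := by
        rw [← Real.exp_nat_mul, mul_one]
      have h3 : Real.exp 1 ≤ mu0⁻¹ * Real.exp t * κ := by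
        have := Real.exp_one_lt_d9
        linarith
      rw [h2]
      calc Real.exp 1 ^ E ≤ (mu0⁻¹ * Real.exp t * κ) ^ E :=
            pow_le_pow_left₀ (Real.exp_pos _).le h3 _
        _ ≤ κ * (mu0⁻¹ * Real.exp t * κ) ^ E :=
            le_mul_of_one_le_left (by positivity) hκ1
    exact (Real.exp_le_exp.2 (hrs.trans hE1)).trans h1
  refine ⟨?_, ?_, ?_⟩
  · refine le_trans (Real.exp_le_exp.2 ?_) hZ
    have h1 := ax_1 (a := A * t ^ 2) (by positivity) hy128
    linarith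
  · have h1 := ZA_up hF htpos.le (Nat.cast_nonneg D.card) D (fun _ => True) (by
      rintro n l ⟨⟨h1, h2, -, h4⟩, -⟩
      have h5 : l.length ≤ D.card := by
        rw [← List.toFinset_card_of_nodup h2]
        apply Finset.card_le_card
        intro p hp
        rw [List.mem_toFinset] at hp
        exact h4 p hp
      exact_mod_cast (by omega : n ≤ D.card))
    refine h1.trans ?_
    have hD2 : 2 / t ^ 2 ≤ (D.card : ℝ) := by
      rw [div_le_iff₀ (by positivity)]
      exact ax_2 hDA hAt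
    have hD0 : (0 : ℝ) < D.card := by linarith
    have h2 := hz D.card hD2
    have h3 : Real.sqrt D.card ≤ t * D.card := by
      have h4 : 1 ≤ t * Real.sqrt D.card := by
        have h5 : 1 / t ≤ Real.sqrt D.card := by
          apply Real.le_sqrt_of_sq_le
          exact (ax_5 htpos).trans hD2
        rw [div_le_iff₀ htpos] at h5
        linarith
      exact ax_3 hD0 h4
    have h4 : (D.card : ℝ) ^ 2 * Real.exp (K * Real.log (D.card + 2) ^ 2) ≤
        Real.exp (t * D.card) := by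
      have e : (D.card : ℝ) ^ 2 = Real.exp (2 * Real.log D.card) := by
        rw [mul_comm, Real.exp_mul, Real.exp_log hD0]
        norm_cast
      rw [e, ← Real.exp_add]
      apply Real.exp_le_exp.2
      have h5 : K * Real.log (D.card + 2) ^ 2 ≤ K' * Real.log (D.card + 2) ^ 2 := by
        apply mul_le_mul_of_nonneg_right _ (sq_nonneg _)
        rw [hK']
        linarith
      linarith
    calc (D.card : ℝ) ^ 2 * Real.exp (K * Real.log (D.card + 2) ^ 2) * Real.exp (t * D.card)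
        ≤ Real.exp (t * D.card) * Real.exp (t * D.card) :=
          mul_le_mul_of_nonneg_right h4 (Real.exp_pos _).le
      _ = _ := by
          rw [← Real.exp_add]
          congr 1
          ring
  · have h1 := ZA_up hF htpos.le (M := A * (t * y)) (by positivity) D
      (fun l => (l.length : ℝ) ≤ A * (t * y)) (by
      rintro n l ⟨⟨h1, h2, -, h4⟩, h5⟩
      rw [h1] at h5
      push_cast at h5
      linarith)
    refine h1.trans ?_
    have hAlog := log_sq hA0 htpos hl hl16 hAt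
    have hA2 : 2 ≤ A := ax_4 hA0 htpos (by linarith) hAt
    have hlogA1 : 1 ≤ Real.log A := by
      have h2 : 2 * l ≤ Real.log A := by
        have h3 : 1 / t ^ 2 ≤ A := by
          rw [div_le_iff₀ (by positivity)]
          linarith
        have h4 := Real.log_le_log (by positivity) h3
        rw [one_div, Real.log_inv, Real.log_pow] at h4
        rw [hl, one_div, Real.log_inv]
        push_cast at h4
        linarith
      linarith
    have hD0 : (0 : ℝ) < D.card := by linarith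
    have hcost := card_cost hK hK' (by linarith : (2 : ℝ) ≤ D.card) hDc hA2 hlogA1
    have hmain := main_cost (by rw [hK']; positivity) (by positivity : 0 ≤ A * t ^ 2) hAlog hKl hyl
      hy128
    have e : (D.card : ℝ) ^ 2 = Real.exp (2 * Real.log D.card) := by
      rw [mul_comm, Real.exp_mul, Real.exp_log hD0]
      norm_cast
    calc (D.card : ℝ) ^ 2 * Real.exp (K * Real.log (D.card + 2) ^ 2) *
          Real.exp (t * (A * (t * y)))
        = Real.exp (2 * Real.log D.card + K * Real.log (D.card + 2) ^ 2 + A * t ^ 2 * y) := by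
          rw [e, ← Real.exp_add, ← Real.exp_add]
          congr 1
          ring
      _ ≤ Real.exp (-(A * (t ^ 2 * y)) + A * t ^ 2 * y ^ 2 / 8) := by
          apply Real.exp_le_exp.2
          linarith
      _ = Real.exp (-(A * (t ^ 2 * y))) * Real.exp (A * t ^ 2 * y ^ 2 / 8) := Real.exp_add _ _
      _ ≤ _ := mul_le_mul_of_nonneg_left hZ (Real.exp_pos _).le

end Pool.Agent.X130.ST
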